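import Mathlib
import Pool.Agent.H420R3.Cross

/-!
Orbits of a normal subgroup of the Galois group, their images and the residue discs.
-/

set_option autoImplicit false
set_option linter.unusedSectionVars false

namespace Pool.Agent.Y740.RL

open NumberField Module MvPolynomial IsDedekindDomain Pool.Agent.H420R3
open scoped Pointwise

noncomputable section

variable {K : Type*} [Field K] [NumberField K]
variable {M : Type*} [Field M] [NumberField M] [Algebra K M]
variable (F : Fin 2 → MvPolynomial (Fin 2) (𝓞 K))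
variable (H : Subgroup Gal(M/K))

open Classical in
/-- the orbit of a point under a group `H` of automorphisms -/
def orbH (p : Option M) : Finset (Option M) :=
  (Finset.univ.filter fun g : Gal(M/K) => g ∈ H).image fun g => g • p

/-- the number of points of the orbit -/
def dgH (p : Option M) : ℕ := (orbH H p).card

variable {H}

lemma mem_orbH {p p' : Option M} : p' ∈ orbH H p ↔ ∃ g ∈ H, g • p = p' := by
  classical
  simp [orbH]

lemma self_mem_orbH (p : Option M) : p ∈ orbH H p := mem_orbH.mpr ⟨1, H.one_mem, one_smul _ p⟩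

lemma dgH_pos (p : Option M) : 0 < dgH H p := Finset.card_pos.mpr ⟨p, self_mem_orbH p⟩

lemma orbH_subset (p : Option M) : orbH H p ⊆ orbK K p := by
  intro w hw
  obtain ⟨g, -, rfl⟩ := mem_orbH.mp hw
  exact mem_orbK.mpr ⟨g, rfl⟩

lemma orbH_smul_of_mem {g : Gal(M/K)} (hg : g ∈ H) (p : Option M) :
    orbH H (g • p) = orbH H p := by
  ext w
  rw [mem_orbH, mem_orbH]
  constructor
  · rintro ⟨h, hh, rfl⟩
    exact ⟨h * g, H.mul_mem hh hg, mul_smul h g p⟩
  · rintro ⟨h, hh, rfl⟩
    refine ⟨h * g⁻¹, H.mul_mem hh (H.inv_mem hg), ?_⟩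
    rw [mul_smul, inv_smul_smul]

lemma orbH_eq_of_mem {p w : Option M} (h : w ∈ orbH H p) : orbH H w = orbH H p := by
  obtain ⟨g, hg, rfl⟩ := mem_orbH.mp h
  exact orbH_smul_of_mem hg p

lemma dgH_eq_of_mem {p w : Option M} (h : w ∈ orbH H p) : dgH H w = dgH H p := by
  unfold dgH
  rw [orbH_eq_of_mem h]

lemma smul_mem_orbH {p w : Option M} {g : Gal(M/K)} (hg : g ∈ H) (h : w ∈ orbH H p) :
    g • w ∈ orbH H p := by
  rw [← orbH_eq_of_mem h]
  exact mem_orbH.mpr ⟨g, hg, rfl⟩

lemma phi_iter_memH {p w : Option M} (h : w ∈ orbH H p) (j : ℕ) :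
    (phi F)^[j] w ∈ orbH H ((phi F)^[j] p) := by
  obtain ⟨g, hg, rfl⟩ := mem_orbH.mp h
  rw [phi_iter_smul]
  exact mem_orbH.mpr ⟨g, hg, rfl⟩

lemma exists_liftH {p w : Option M} {j : ℕ} (h : w ∈ orbH H ((phi F)^[j] p)) :
    ∃ u ∈ orbH H p, (phi F)^[j] u = w := by
  obtain ⟨g, hg, rfl⟩ := mem_orbH.mp h
  exact ⟨g • p, mem_orbH.mpr ⟨g, hg, rfl⟩, phi_iter_smul F g p j⟩

open Classical in
/-- the fibres of the iterates have constant cardinality -/
lemma card_fibH (p : Option M) (j : ℕ) {w : Option M} (hw : w ∈ orbH H ((phi F)^[j] p)) :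
    ((orbH H p).filter fun u => (phi F)^[j] u = w).card * dgH H ((phi F)^[j] p) = dgH H p := by
  have key : ∀ w' ∈ orbH H ((phi F)^[j] p),
      ((orbH H p).filter fun u => (phi F)^[j] u = w').card =
      ((orbH H p).filter fun u => (phi F)^[j] u = w).card := by
    intro w' hw'
    rw [← orbH_eq_of_mem hw] at hw'
    obtain ⟨g, hg, rfl⟩ := mem_orbH.mp hw'
    refine Finset.card_bij (fun u _ => g⁻¹ • u) ?_ ?_ ?_
    · intro u hu
      rw [Finset.mem_filter] at hu ⊢
      refine ⟨smul_mem_orbH (H.inv_mem hg) hu.1, ?_⟩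
      rw [phi_iter_smul, hu.2, inv_smul_smul]
    · intro u _ u' _ h
      exact smul_left_cancel g⁻¹ h
    · intro u hu
      rw [Finset.mem_filter] at hu
      refine ⟨g • u, ?_, inv_smul_smul _ _⟩
      rw [Finset.mem_filter]
      refine ⟨smul_mem_orbH hg hu.1, ?_⟩
      rw [phi_iter_smul, hu.2]
  have h1 : (orbH H p).card = ∑ w' ∈ orbH H ((phi F)^[j] p),
      ((orbH H p).filter fun u => (phi F)^[j] u = w').card :=
    Finset.card_eq_sum_card_fiberwise fun u hu => phi_iter_memH F hu j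
  rw [Finset.sum_congr rfl key, Finset.sum_const, smul_eq_mul] at h1
  unfold dgH
  rw [h1, mul_comm]

lemma dgH_phi_dvd (p : Option M) (j : ℕ) : dgH H ((phi F)^[j] p) ∣ dgH H p :=
  ⟨_, by rw [mul_comm]; exact (card_fibH F p j (self_mem_orbH _)).symm⟩

lemma dgH_phi_le (p : Option M) (j : ℕ) : dgH H ((phi F)^[j] p) ≤ dgH H p :=
  Nat.le_of_dvd (dgH_pos p) (dgH_phi_dvd F p j)

/-! ### normal subgroups -/

lemma smul_mem_orbH_smul [hH : H.Normal] (g : Gal(M/K)) {p w : Option M} :
    g • w ∈ orbH H (g • p) ↔ w ∈ orbH H p := by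
  rw [mem_orbH, mem_orbH]
  constructor
  · rintro ⟨h, hh, hw⟩
    refine ⟨g⁻¹ * h * g, ?_, ?_⟩
    · have := hH.conj_mem h hh g⁻¹
      rwa [inv_inv] at this
    · rw [mul_smul, mul_smul, hw, inv_smul_smul]
  · rintro ⟨h, hh, rfl⟩
    refine ⟨g * h * g⁻¹, hH.conj_mem h hh g, ?_⟩
    rw [mul_smul, mul_smul, inv_smul_smul]

lemma dgH_smul [hH : H.Normal] (g : Gal(M/K)) (p : Option M) : dgH H (g • p) = dgH H p := by
  classical
  unfold dgH
  symm
  refine Finset.card_bij (fun u _ => g • u) ?_ ?_ ?_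
  · intro u hu
    exact (smul_mem_orbH_smul g).mpr hu
  · intro u _ u' _ h
    exact smul_left_cancel g h
  · intro u hu
    refine ⟨g⁻¹ • u, ?_, smul_inv_smul _ _⟩
    rw [← smul_mem_orbH_smul g, smul_inv_smul]
    exact hu

section Disc

variable {F} {v : FinitePlace M} {ρ : ℝ} {q : ℕ}

open Classical in
variable (H v) in
/-- number of points of the orbit in the residue disc -/
def bbH (p : Option M) : ℕ := ((orbH H p).filter fun p' => dv v p p' < 1).card

lemma bbH_pos (p : Option M) : 0 < bbH H v p := by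
  classical
  unfold bbH
  refine Finset.card_pos.mpr ⟨p, ?_⟩
  rw [Finset.mem_filter, dv_self]
  exact ⟨self_mem_orbH p, by norm_num⟩

lemma bbH_congr {p p' : Option M} (h : p' ∈ orbH H p) (h1 : dv v p p' < 1) :
    bbH H v p' = bbH H v p := by
  classical
  unfold bbH
  rw [orbH_eq_of_mem h]
  congr 1
  refine Finset.filter_congr fun w _ => ⟨fun hw => ?_, fun hw => ?_⟩
  · exact dv_lt_one_trans v h1 hw
  · rw [dv_comm] at h1
    exact dv_lt_one_trans v h1 hw

lemma bbH_smul [hH : H.Normal] {σ : Gal(M/K)} (hσ : σ • mi v = mi v) (p : Option M) :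
    bbH H v (σ • p) = bbH H v p := by
  classical
  unfold bbH
  symm
  refine Finset.card_bij (fun u _ => σ • u) ?_ ?_ ?_
  · intro u hu
    rw [Finset.mem_filter] at hu ⊢
    refine ⟨(smul_mem_orbH_smul σ).mpr hu.1, ?_⟩
    rw [dv_smul v hσ]
    exact hu.2
  · intro u _ u' _ h
    exact smul_left_cancel σ h
  · intro u hu
    rw [Finset.mem_filter] at hu
    refine ⟨σ⁻¹ • u, ?_, smul_inv_smul _ _⟩
    rw [Finset.mem_filter]
    refine ⟨?_, ?_⟩
    · rw [← smul_mem_orbH_smul σ, smul_inv_smul]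
      exact hu.1
    · rw [← dv_smul v hσ, smul_inv_smul]
      exact hu.2

open Classical in
/-- number of points in a residue disc along the orbit -/
lemma bbH_phi (h : Red v F q ρ) (p : Option M) (j : ℕ) :
    bbH H v p * dgH H ((phi F)^[j] p) = dgH H p * bbH H v ((phi F)^[j] p) := by
  have h1 : bbH H v p = ∑ w ∈ (orbH H ((phi F)^[j] p)).filter
      (fun w => dv v ((phi F)^[j] p) w < 1),
      ((orbH H p).filter fun u => (phi F)^[j] u = w).card := by
    unfold bbH
    have h2 := Finset.card_eq_sum_card_fiberwise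
      (s := (orbH H p).filter fun p' => dv v p p' < 1)
      (t := (orbH H ((phi F)^[j] p)).filter fun w => dv v ((phi F)^[j] p) w < 1)
      (f := fun u => (phi F)^[j] u) (by
        intro u hu
        simp only [Finset.coe_filter, Set.mem_ofPred_eq] at hu ⊢
        exact ⟨phi_iter_memH F hu.1 j, (h.dv_iter_lt_one_iff _ _ j).mpr hu.2⟩)
    rw [h2]
    refine Finset.sum_congr rfl fun w hw => ?_
    congr 1
    rw [Finset.mem_filter] at hw
    ext u
    simp only [Finset.mem_filter]
    constructor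
    · rintro ⟨⟨a, -⟩, c⟩
      exact ⟨a, c⟩
    · rintro ⟨a, c⟩
      refine ⟨⟨a, ?_⟩, c⟩
      rw [← h.dv_iter_lt_one_iff _ _ j, c]
      exact hw.2
  rw [h1, Finset.sum_mul, Finset.sum_congr rfl (g := fun _ => dgH H p) (by
    intro w hw
    rw [Finset.mem_filter] at hw
    exact card_fibH F p j hw.1)]
  rw [Finset.sum_const, smul_eq_mul, mul_comm]
  rfl

variable [IsGalois K M]

/-- the integrality property for the orbits of `H` -/
lemma bbH_mul_depth (h : Red v F q ρ) {m : ℕ} (hm : ∃ j, q ^ m = (mi v).absNorm ^ j)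
    (p : Option M) (ht : 0 < tt v F m p) :
    (Nat.card ((mi v).inertia Gal(M/K) ⊓ H : Subgroup Gal(M/K)) : ℝ) * Real.log (nv v) ≤
      bbH H v p * (-Real.log (tt v F m p)) := by
  classical
  set I := ((mi v).inertia Gal(M/K) ⊓ H : Subgroup Gal(M/K)) with hI
  -- orbit and stabilizer
  let H' : Subgroup I := MulAction.stabilizer I p
  let H₁ : Subgroup Gal(M/K) := H'.map I.subtype
  have hHI : H₁ ≤ (mi v).inertia Gal(M/K) := (Subgroup.map_subtype_le H').trans inf_le_left
  have hcardH : Nat.card H₁ = Nat.card H' := Subgroup.card_map_of_injective I.subtype_injective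
  have hfix : ∀ g ∈ H₁, g • p = p := by
    rintro g ⟨g', hg', rfl⟩
    exact MulAction.mem_stabilizer_iff.mp hg'
  -- the representative
  obtain ⟨i, hi⟩ := exists_nm v (rep p)
  have h1 := nm_pos v (rep_ne_zero p)
  have h2 : rep p i ≠ 0 := by
    intro h
    rw [h, map_zero] at hi
    linarith
  set z : Fin 2 → M := (rep p i)⁻¹ • rep p with hz
  have hz1 : nm v z = 1 := by
    rw [hz, nm_smul, map_inv₀, hi, inv_mul_cancel₀ h1.ne']
  have hpz : pt z = p := by rw [hz, pt_smul (inv_ne_zero h2), pt_rep]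
  have hzf : ∀ g ∈ H₁, (fun j => g (z j)) = z := by
    intro g hg
    have h3 : rep (g • p) = rep p := by rw [hfix g hg]
    rw [rep_smul] at h3
    funext j
    rw [hz]
    simp only [Pi.smul_apply, smul_eq_mul, map_mul, map_inv₀]
    rw [congrFun h3 i, congrFun h3 j]
  have hzf' : ∀ g ∈ H₁, ∀ n, (fun j => g ((act F)^[n] z j)) = (act F)^[n] z := by
    intro g hg n
    induction n with
    | zero => exact hzf g hg
    | succ n ih =>
      rw [Function.iterate_succ_apply', ← act_map, ih]
  set y : M := wdg z ((act F)^[m] z) with hy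
  have hyf : ∀ g ∈ H₁, g y = y := by
    intro g hg
    have e1 := hzf g hg
    have e2 := hzf' g hg m
    rw [hy]
    unfold wdg
    rw [map_sub, map_mul, map_mul, congrFun e1 0, congrFun e1 1, congrFun e2 0, congrFun e2 1]
  have hvy : v y = tt v F m p := by
    unfold tt
    conv_rhs => rw [← hpz]
    rw [h.phi_iter_pt (ne_zero_of_nm_one hz1), dd_pt v (ne_zero_of_nm_one hz1)
      (h.iter_ne_zero (ne_zero_of_nm_one hz1) m), dd, hz1, h.nm_iter_one hz1, mul_one, div_one]
  have hy1 : v y < 1 := by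
    rw [hvy]
    exact h.tt_lt_one hm p
  have h3 := v_fixed_le v H₁ hHI hyf hy1
  rw [hvy] at h3
  have h4 : (Nat.card H₁ : ℝ) * Real.log (nv v) ≤ -Real.log (tt v F m p) := by
    have h5 := Real.log_le_log ht h3
    rw [Real.log_inv, Real.log_pow] at h5
    linarith
  -- counting
  have h5 : Nat.card I = Nat.card (MulAction.orbit I p) * Nat.card H' := by
    exact (Nat.card_congr (MulAction.orbitProdStabilizerEquivGroup I p)).symm.trans
      (Nat.card_prod _ _)
  have h6 : Nat.card (MulAction.orbit I p) ≤ bbH H v p := by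
    unfold bbH
    have h7 : (MulAction.orbit I p) ⊆
        (((orbH H p).filter fun p' => dv v p p' < 1 : Finset (Option M)) : Set (Option M)) := by
      rintro _ ⟨g, rfl⟩
      simp only [Finset.coe_filter, Set.mem_ofPred_eq]
      exact ⟨mem_orbH.mpr ⟨g, g.2.2, rfl⟩, dv_inertia g.2.1 p⟩
    have h8 := Set.ncard_le_ncard h7 (Finset.finite_toSet _)
    rwa [Set.ncard_coe_finset] at h8
  have hlog := log_nv_pos v
  calc (Nat.card I : ℝ) * Real.log (nv v) =
      (Nat.card (MulAction.orbit I p) : ℝ) * ((Nat.card H₁ : ℝ) * Real.log (nv v)) := by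
        rw [h5, hcardH]
        push_cast
        ring
    _ ≤ bbH H v p * ((Nat.card H₁ : ℝ) * Real.log (nv v)) := by
        gcongr
    _ ≤ bbH H v p * (-Real.log (tt v F m p)) := by gcongr

end Disc

end

end Pool.Agent.Y740.RL
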