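import Mathlib
import Pool.Agent.Y740.RL.OrbH

/-!
Depth of points for the orbits of a normal subgroup; cross energies and self energies.
-/

set_option autoImplicit false
set_option linter.unusedSectionVars false

namespace Pool.Agent.Y740.RL

open NumberField Module MvPolynomial IsDedekindDomain Pool.Agent.H420R3
open scoped Pointwise

noncomputable section

variable {K : Type*} [Field K] [NumberField K]
variable {M : Type*} [Field M] [NumberField M] [Algebra K M]
variable {F : Fin 2 → MvPolynomial (Fin 2) (𝓞 K)}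
variable {H : Subgroup Gal(M/K)}
variable {P : Ideal (𝓞 K)} [hP : P.IsMaximal] {q : ℕ}

variable (P F H) in
/-- the data for the relative argument: a normal subgroup `H` of the Galois group whose inertia
groups have index at most `e` in the full inertia groups, and an automorphism `θ` which is,
modulo `H`, inverse to a lift of Frobenius at a set of places above `P` with a proportion at least
`1 / B` of the total weight -/
structure Rel (θ : Gal(M/K)) (e B : ℝ) : Prop where
  normal : H.Normal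
  one_le : 1 ≤ e
  one_leB : 1 ≤ B
  iner : ∀ v ∈ TP M P, (Nat.card ((mi v).inertia Gal(M/K)) : ℝ) ≤
    e * Nat.card ((mi v).inertia Gal(M/K) ⊓ H : Subgroup Gal(M/K))
  frob : ∃ T ⊆ TP M P, ∑ v ∈ TP M P, ew K v ≤ B * ∑ v ∈ T, ew K v ∧
    ∀ v ∈ T, ∃ τ : Gal(M/K), τ • mi v = mi v ∧
      (∀ p : Option M, dv v (phi F p) (τ • p) < 1) ∧ τ * θ ∈ H

variable {θ : Gal(M/K)} {e B : ℝ}

variable [IsGalois K M]

variable (F H P) in
/-- lower bound for the depth of the conjugates of a point -/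
def DepH (q : ℕ) (e : ℝ) (p : Option M) : Prop :=
  ∀ v ∈ TP M P, ∀ m : ℕ, 1 ≤ m → (∃ j, q ^ m = (mi v).absNorm ^ j) → ∀ x ∈ orbK K p,
    1 / (e * bbH H v x) ≤ st v F m x

lemma Rel.dep (hr : Rel F H P θ e B) (h : Good P F q) (hP0 : P ≠ ⊥) {p : Option M}
    (hpw : Wand F p) : DepH F H P q e p := by
  intro v hv m hm hm' x hx
  have hp := hpw.of_mem hx
  have hR := h.red_at hP0 hv
  have hw := ew_pos (K := K) v
  have h1 := bbH_mul_depth (H := H) hR hm' x (hp.tt_pos hm)
  have h0 := card_inertia (K := K) hP0 hv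
  have h2 : (0 : ℝ) < bbH H v x := by exact_mod_cast bbH_pos x
  have h3 := hr.iner v hv
  have he := hr.one_le
  have hlog := log_nv_pos v
  unfold st
  rw [div_le_div_iff₀ (by positivity) hw, ← h0, one_mul]
  calc (Nat.card ((mi v).inertia Gal(M/K)) : ℝ) * Real.log (nv v) ≤
      (e * Nat.card ((mi v).inertia Gal(M/K) ⊓ H : Subgroup Gal(M/K))) * Real.log (nv v) := by
        gcongr
    _ = e * (Nat.card ((mi v).inertia Gal(M/K) ⊓ H : Subgroup Gal(M/K)) * Real.log (nv v)) := by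
        ring
    _ ≤ e * (bbH H v x * (-Real.log (tt v F m x))) := by gcongr
    _ = _ := by ring

lemma DepH.iter {p : Option M} (hd : DepH F H P q e p) (h : Good P F q) (hP0 : P ≠ ⊥)
    (hpw : Wand F p) {v : FinitePlace M} (hv : v ∈ TP M P) {m : ℕ} (hm : 1 ≤ m)
    (hm' : ∃ j, q ^ m = (mi v).absNorm ^ j) {x : Option M} (hx : x ∈ orbK K p) (j : ℕ) :
    (gq q)^[j] (1 / (e * bbH H v x)) ≤ st v F m ((phi F)^[j] x) := by
  induction j with
  | zero => exact hd v hv m hm hm' x hx
  | succ j ih =>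
    rw [Function.iterate_succ_apply', Function.iterate_succ_apply']
    exact (gq_mono q ih).trans (h.depth_phi hP0 hv hm ((hpw.of_mem hx).iter j))

/-- the depth after `i` steps, when the degree does not decrease much -/
lemma DepH.shift [hH : H.Normal] {p : Option M} (he : 1 ≤ e) (hd : DepH F H P q e p)
    (h : Good P F q) (hP0 : P ≠ ⊥)
    (hpw : Wand F p) {i : ℕ} (hi : e ≤ (q : ℝ) ^ i * dgH H ((phi F)^[i] p) / dgH H p) :
    DepH F H P q 1 ((phi F)^[i] p) := by
  intro v hv m hm hm' x hx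
  obtain ⟨u, hu, rfl⟩ := exists_lift F hx
  have hR := h.red_at hP0 hv
  have h1 := hd.iter h hP0 hpw hv hm hm' hu i
  have hb0 : (0 : ℝ) < bbH H v u := by exact_mod_cast bbH_pos u
  have hb1 : (1 : ℝ) ≤ bbH H v ((phi F)^[i] u) := by exact_mod_cast bbH_pos ((phi F)^[i] u)
  have hD0 : (0 : ℝ) < dgH H p := by exact_mod_cast dgH_pos p
  have hDi : (0 : ℝ) < dgH H ((phi F)^[i] p) := by exact_mod_cast dgH_pos ((phi F)^[i] p)
  have h2 := gq_iter_min hR.two_le (t := 1 / (e * bbH H v u)) (by positivity) i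
  refine le_trans ?_ (h2.trans h1)
  rw [one_mul]
  refine le_min ?_ ?_
  · have h3 := bbH_phi (H := H) hR u i
    obtain ⟨g, hg⟩ := mem_orbK.mp hu
    have h4 : dgH H u = dgH H p := by rw [← hg, dgH_smul]
    have h5 : dgH H ((phi F)^[i] u) = dgH H ((phi F)^[i] p) := by
      rw [← hg, phi_iter_smul, dgH_smul]
    rw [h4, h5] at h3
    have h6 : (bbH H v u : ℝ) * dgH H ((phi F)^[i] p) =
        dgH H p * bbH H v ((phi F)^[i] u) := by exact_mod_cast h3
    rw [le_div_iff₀ hD0] at hi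
    rw [mul_one_div, div_le_div_iff₀ (by linarith) (by positivity), one_mul]
    have h7 : e * (bbH H v u : ℝ) * dgH H p ≤
        (q : ℝ) ^ i * bbH H v ((phi F)^[i] u) * dgH H p := by
      calc e * (bbH H v u : ℝ) * dgH H p = (e * dgH H p) * bbH H v u := by ring
        _ ≤ ((q : ℝ) ^ i * dgH H ((phi F)^[i] p)) * bbH H v u := by gcongr
        _ = (q : ℝ) ^ i * (bbH H v u * dgH H ((phi F)^[i] p)) := by ring
        _ = _ := by rw [h6]; ring
    exact le_of_mul_le_mul_right h7 hD0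
  · rw [div_le_one (by linarith)]
    exact hb1

/-- self energy: two points of the orbit in the same disc at level `j` -/
lemma self_lowerH {p : Option M} (he : 1 ≤ e) (hd : DepH F H P q e p) (h : Good P F q)
    (hP0 : P ≠ ⊥) {v : FinitePlace M}
    (hv : v ∈ TP M P) (hp : Wand F p) (j : ℕ) {w w' : Option M}
    (hw : w ∈ orbH H ((phi F)^[j] p)) (hw' : w' ∈ orbH H ((phi F)^[j] p)) (hne : w ≠ w')
    (h1 : dv v w w' < 1) :
    ew K v * (gq q)^[j] ((dgH H ((phi F)^[j] p) : ℝ) / (e * (dgH H p * bbH H v w))) ≤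
      dl v w w' := by
  have hR := h.red_at hP0 hv
  obtain ⟨m, hm, hm'⟩ := h.exists_depth hP0 hv
  have hb : bbH H v w' = bbH H v w := bbH_congr (by rw [orbH_eq_of_mem hw]; exact hw') h1
  have key : ∀ x, x ∈ orbH H ((phi F)^[j] p) →
      (gq q)^[j] ((dgH H ((phi F)^[j] p) : ℝ) / (e * (dgH H p * bbH H v x))) ≤ st v F m x := by
    intro x hx
    obtain ⟨u, hu, rfl⟩ := exists_liftH F hx
    have h2 := hd.iter h hP0 hp hv hm hm' (orbH_subset _ hu) j
    have h3 := bbH_phi (H := H) hR u j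
    rw [dgH_eq_of_mem hu, dgH_eq_of_mem hx] at h3
    have h4 : (dgH H ((phi F)^[j] p) : ℝ) / (e * (dgH H p * bbH H v ((phi F)^[j] u))) =
        1 / (e * (bbH H v u : ℝ)) := by
      have h5 : (bbH H v u : ℝ) * dgH H ((phi F)^[j] p) =
          dgH H p * bbH H v ((phi F)^[j] u) := by
        exact_mod_cast h3
      have h6 : (0 : ℝ) < bbH H v u := by exact_mod_cast bbH_pos u
      have h7 : (0 : ℝ) < bbH H v ((phi F)^[j] u) := by exact_mod_cast bbH_pos _
      have h8 : (0 : ℝ) < dgH H p := by exact_mod_cast dgH_pos p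
      rw [div_eq_div_iff (by positivity) (by positivity)]
      linear_combination e * h5
    rw [h4]
    exact h2
  refine h.dl_lower hP0 hv hm h1 hne (key w hw) ?_
    ((hp.iter j).of_mem (orbH_subset _ hw)) ((hp.iter j).of_mem (orbH_subset _ hw'))
  rw [← hb]
  exact key w' hw'

open Classical in
/-- self energy of a point at a drop -/
lemma self_sumH {p : Option M} (he : 1 ≤ e) (hd : DepH F H P q e p) (h : Good P F q)
    (hP0 : P ≠ ⊥) {v : FinitePlace M}
    (hv : v ∈ TP M P) (hp : Wand F p) (j : ℕ) {w : Option M}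
    (hw : w ∈ orbH H ((phi F)^[j] p)) :
    ((bbH H v w : ℝ) - 1) * (ew K v *
      (gq q)^[j] ((dgH H ((phi F)^[j] p) : ℝ) / (e * (dgH H p * bbH H v w)))) ≤
      ∑ w' ∈ orbH H ((phi F)^[j] p), dl v w w' := by
  set s := ew K v * (gq q)^[j] ((dgH H ((phi F)^[j] p) : ℝ) / (e * (dgH H p * bbH H v w)))
    with hs
  set S := ((orbH H ((phi F)^[j] p)).filter fun w' => dv v w w' < 1) with hS
  have hwS : w ∈ S := by
    rw [hS, Finset.mem_filter, dv_self]
    exact ⟨hw, by norm_num⟩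
  have hSc : S.card = bbH H v w := by
    unfold bbH
    rw [orbH_eq_of_mem hw]
  have h1 : ((S.erase w).card : ℝ) = (bbH H v w : ℝ) - 1 := by
    rw [Finset.card_erase_of_mem hwS, hSc, Nat.cast_sub (bbH_pos w)]
    norm_num
  rw [← h1]
  calc ((S.erase w).card : ℝ) * s = ∑ w' ∈ S.erase w, s := by
        rw [Finset.sum_const, nsmul_eq_mul]
    _ ≤ ∑ w' ∈ S.erase w, dl v w w' := by
        refine Finset.sum_le_sum fun w' hw' => ?_
        rw [Finset.mem_erase, hS, Finset.mem_filter] at hw'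
        exact self_lowerH he hd h hP0 hv hp j hw hw'.2.1 hw'.1.symm hw'.2.2
    _ ≤ ∑ w' ∈ orbH H ((phi F)^[j] p), dl v w w' := by
        refine Finset.sum_le_sum_of_subset_of_nonneg ?_ fun w _ _ => dl_nonneg v _ _
        exact (Finset.erase_subset _ _).trans (Finset.filter_subset _ _)

open Classical in
/-- at a drop every point has a companion with the same image -/
lemma exists_mateH {p : Option M} (j : ℕ)
    (hdrop : dgH H ((phi F)^[j + 1] p) < dgH H ((phi F)^[j] p)) {w : Option M}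
    (hw : w ∈ orbH H ((phi F)^[j] p)) :
    ∃ w' ∈ orbH H ((phi F)^[j] p), w' ≠ w ∧ phi F w' = phi F w := by
  have h1 := card_fibH F ((phi F)^[j] p) 1 (w := phi F w) (by
    have := phi_iter_memH F hw 1
    exact this)
  rw [← Function.iterate_add_apply, add_comm 1 j] at h1
  set S := (orbH H ((phi F)^[j] p)).filter fun u => (phi F)^[1] u = phi F w with hS
  have hwS : w ∈ S := by
    rw [hS, Finset.mem_filter]
    exact ⟨hw, rfl⟩
  have h2 : 1 < S.card := by
    by_contra hcon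
    push Not at hcon
    have h3 := dgH_pos (H := H) ((phi F)^[j + 1] p)
    nlinarith
  obtain ⟨w', hw', hne⟩ := Finset.exists_mem_ne h2 w
  rw [hS, Finset.mem_filter] at hw'
  exact ⟨w', hw'.1, hne, hw'.2⟩

variable (F H θ) in
/-- the twisted orbits -/
def ZZ (p : Option M) (a : ℕ) : Finset (Option M) := orbH H (θ ^ a • (phi F)^[a] p)

lemma ZZ_subset (p : Option M) (a : ℕ) : ZZ F H θ p a ⊆ orbK K ((phi F)^[a] p) := by
  unfold ZZ
  refine (orbH_subset _).trans ?_
  rw [orbK_smul]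

lemma card_ZZ [hH : H.Normal] (p : Option M) (a : ℕ) :
    (ZZ F H θ p a).card = dgH H ((phi F)^[a] p) := dgH_smul _ _

/-- twisting: moving a point of level `b` by a power of Frobenius lands in level `a` -/
lemma twist_mem [hH : H.Normal] {τ : Gal(M/K)} (hτ : τ * θ ∈ H) (x : Option M) (a t : ℕ)
    {g : Gal(M/K)} (hg : g ∈ H) :
    τ ^ t • (g * θ ^ (a + t)) • x ∈ orbH H (θ ^ a • x) := by
  rw [mem_orbH]
  refine ⟨τ ^ t * (g * θ ^ (a + t)) * (θ ^ a)⁻¹, ?_, ?_⟩
  · have h1 : (QuotientGroup.mk τ : Gal(M/K) ⧸ H) * QuotientGroup.mk θ = 1 := by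
      rw [← QuotientGroup.mk_mul]
      exact (QuotientGroup.eq_one_iff _).mpr hτ
    have h2 : (QuotientGroup.mk τ : Gal(M/K) ⧸ H) = (QuotientGroup.mk θ)⁻¹ :=
      eq_inv_of_mul_eq_one_left h1
    have h3 : (QuotientGroup.mk g : Gal(M/K) ⧸ H) = 1 := (QuotientGroup.eq_one_iff _).mpr hg
    rw [← QuotientGroup.eq_one_iff]
    rw [QuotientGroup.mk_mul, QuotientGroup.mk_mul, QuotientGroup.mk_mul, QuotientGroup.mk_inv,
      QuotientGroup.mk_pow, QuotientGroup.mk_pow, QuotientGroup.mk_pow, h2, h3, one_mul, add_comm,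
      pow_add, inv_pow]
    group
  · rw [← mul_smul, ← mul_smul]
    congr 1
    group

open Classical in
/-- cross energy in a stable run -/
lemma cross_lowerH [hH : H.Normal] {p : Option M} (hdep : DepH F H P q 1 p) (h : Good P F q)
    (hP0 : P ≠ ⊥) {v : FinitePlace M} (hv : v ∈ TP M P) (hf : ∃ τ : Gal(M/K), τ • mi v = mi v ∧
      (∀ p : Option M, dv v (phi F p) (τ • p) < 1) ∧ τ * θ ∈ H)
    (hp : Wand F p) {N : ℕ} (hN : ∀ t ≤ N, dgH H ((phi F)^[t] p) = dgH H p)
    {a b : ℕ} (hab : a < b) (hbN : b ≤ N) {z : Option M} (hz : z ∈ ZZ F H θ p b) :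
    ew K v * ((a : ℝ) + 1) ≤ ∑ w ∈ ZZ F H θ p a, dl v z w := by
  have hR := h.red_at hP0 hv
  have he := ew_pos (K := K) v
  have hq := hR.two_le
  obtain ⟨m, hm, hm'⟩ := h.exists_depth hP0 hv
  obtain ⟨τ, hτ, hτ', hτθ⟩ := hf
  obtain ⟨t, rfl⟩ := Nat.exists_eq_add_of_lt hab
  obtain ⟨g, hg, hgz⟩ := mem_orbH.mp hz
  set u : Option M := (g * θ ^ (a + t + 1)) • p with hu_def
  have hu : u ∈ orbK K p := mem_orbK.mpr ⟨_, rfl⟩
  have hzu : z = (phi F)^[a + t + 1] u := by
    rw [hu_def, phi_iter_smul, mul_smul, hgz]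
  have hdg : ∀ t ≤ N, ∀ x ∈ orbK K p, dgH H ((phi F)^[t] x) = dgH H x := by
    intro t ht x hx
    obtain ⟨g', rfl⟩ := mem_orbK.mp hx
    rw [phi_iter_smul, dgH_smul, hN t ht, dgH_smul]
  have hbb : ∀ t ≤ N, ∀ x ∈ orbK K p, bbH H v ((phi F)^[t] x) = bbH H v x := by
    intro t ht x hx
    have h1 := bbH_phi (H := H) hR x t
    rw [hdg t ht x hx, mul_comm] at h1
    exact (Nat.eq_of_mul_eq_mul_left (dgH_pos x) h1).symm
  set za := (phi F)^[a] u with hza
  have hz' : z = (phi F)^[t + 1] za := by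
    rw [hzu, hza, ← Function.iterate_add_apply]
    congr 1
    omega
  set w₀ := τ ^ (t + 1) • za with hw₀
  have hw₀' : w₀ ∈ ZZ F H θ p a := by
    rw [hw₀, hza, hu_def, phi_iter_smul]
    exact twist_mem hτθ _ a (t + 1) hg
  have hw₀'' : orbH H w₀ = ZZ F H θ p a := orbH_eq_of_mem hw₀'
  have hd : dv v z w₀ < 1 := by
    rw [hz']
    exact frob_iter hR hτ hτ' za (t + 1)
  set β := bbH H v u with hβ
  have hβ0 : bbH H v w₀ = β := by
    rw [hw₀, bbH_smul (pow_smul_mi hτ _), hza, hbb a (by omega) u hu]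
  have hβ1 : (1 : ℝ) ≤ β := by exact_mod_cast bbH_pos u
  -- the disc
  set S := (ZZ F H θ p a).filter fun w => dv v z w < 1 with hS
  have hSc : S.card = β := by
    rw [← hβ0, hS]
    unfold bbH
    rw [hw₀'']
    congr 1
    refine Finset.filter_congr fun w _ => ⟨fun hw => ?_, fun hw => ?_⟩
    · rw [dv_comm] at hd
      exact dv_lt_one_trans v hd hw
    · exact dv_lt_one_trans v hd hw
  set s := (gq q)^[a] (1 / (β : ℝ)) with hs
  have hterm : ∀ w ∈ S, ew K v * s ≤ dl v z w := by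
    intro w hw
    rw [hS, Finset.mem_filter] at hw
    have hwZ := hw.1
    obtain ⟨g', hg', hgw⟩ := mem_orbH.mp hwZ
    set x : Option M := (g' * θ ^ a) • p with hx_def
    have hx : x ∈ orbK K p := mem_orbK.mpr ⟨_, rfl⟩
    have hwx : w = (phi F)^[a] x := by
      rw [hx_def, phi_iter_smul, mul_smul, hgw]
    have hxw : bbH H v x = β := by
      rw [← hbb a (by omega) x hx, ← hβ0, ← hwx]
      apply bbH_congr (by rw [hw₀'']; exact hwZ)
      rw [dv_comm] at hd
      exact dv_lt_one_trans v hd hw.2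
    refine h.dl_lower hP0 hv hm hw.2 ?_ ?_ ?_ ?_ ?_
    · exact (hp.disj (a := a) (b := a + t + 1) (by omega) (ZZ_subset _ _ hwZ)
        (ZZ_subset _ _ hz)).symm
    · rw [hzu]
      refine le_trans ?_ (hdep.iter h hP0 hp hv hm hm' hu (a + t + 1))
      rw [one_mul]
      exact le_gq_iter hq (by positivity) _ _ (by omega)
    · rw [hwx]
      have := hdep.iter h hP0 hp hv hm hm' hx a
      rwa [one_mul, hxw] at this
    · rw [hzu]
      exact (hp.of_mem hu).iter _
    · rw [hwx]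
      exact (hp.of_mem hx).iter _
  calc ew K v * ((a : ℝ) + 1) ≤ ew K v * (β * s) := by
        apply mul_le_mul_of_nonneg_left _ he.le
        exact gq_iter_mul hq hβ1 a
    _ = ∑ w ∈ S, ew K v * s := by
        rw [Finset.sum_const, nsmul_eq_mul, hSc]
        ring
    _ ≤ ∑ w ∈ S, dl v z w := Finset.sum_le_sum hterm
    _ ≤ ∑ w ∈ ZZ F H θ p a, dl v z w :=
        Finset.sum_le_sum_of_subset_of_nonneg (Finset.filter_subset _ _)
          fun w _ _ => dl_nonneg v _ _

end

end Pool.Agent.Y740.RL
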