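import Mathlib
import Pool.Agent.Y740.RL.CrossH
import Pool.Agent.H420R3.EnergyN

/-!
Choice of a twist which is inverse to a lift of Frobenius at many places.
-/

set_option autoImplicit false
set_option linter.unusedSectionVars false

namespace Pool.Agent.Y740.RL

open NumberField Module MvPolynomial IsDedekindDomain Pool.Agent.H420R3
open scoped Pointwise

noncomputable section

variable {K : Type*} [Field K] [NumberField K]
variable {M : Type*} [Field M] [NumberField M] [Algebra K M]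
variable {F : Fin 2 → MvPolynomial (Fin 2) (𝓞 K)}
variable {P : Ideal (𝓞 K)} [hP : P.IsMaximal] {q : ℕ}

/-- the map is Frobenius on the reduction -/
lemma frob_of_ring (h : Good P F q) (hP0 : P ≠ ⊥) {v : FinitePlace M} (hv : v ∈ TP M P)
    {τ : Gal(M/K)} (hτ : τ • mi v = mi v) (hτ' : ∀ x : 𝓞 M, τ • x - x ^ q ∈ mi v)
    (p : Option M) : dv v (phi F p) (τ • p) < 1 := by
  have hR := h.red_at hP0 hv
  obtain ⟨z, hz, rfl⟩ := exists_int_rep v p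
  rw [phi_pt hR.hom (ne_zero_of_nm_one hz), ← cv_act, ← pt_map, ← cv_smul]
  have h1 : nm v (cv (act F z)) = 1 := by
    rw [cv_act]
    exact hR.nm_act_one hz
  have h2 : nm v (cv fun i => τ • z i) = 1 := by rw [cv_smul, nm_map hτ, hz]
  rw [dv_lt_one_iff h1 h2]
  have h3 : ∀ i, act F z i - τ • z i ∈ mi v := by
    intro i
    have := (mi v).sub_mem (hR.act_mem (z := z) i) (hτ' (z i))
    rwa [sub_sub_sub_cancel_right] at this
  have h4 : wdg (act F z) (fun i => τ • z i) =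
      (act F z 0 - τ • z 0) * act F z 1 - (act F z 1 - τ • z 1) * act F z 0 := by
    unfold wdg
    ring
  rw [h4]
  exact (mi v).sub_mem ((mi v).mul_mem_right _ (h3 0)) ((mi v).mul_mem_right _ (h3 1))

lemma frob_pow {v : FinitePlace M} {σ : Gal(M/K)} (hst : σ • mi v = mi v)
    (hσ' : ∀ x : 𝓞 M, σ • x - x ^ P.absNorm ∈ mi v) (k : ℕ) :
    σ ^ k • mi v = mi v ∧ ∀ x : 𝓞 M, σ ^ k • x - x ^ (P.absNorm ^ k) ∈ mi v := by
  refine ⟨pow_smul_mi hst k, ?_⟩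
  induction k with
  | zero => simp
  | succ k ih =>
    intro x
    have h1 := hσ' (σ ^ k • x)
    have h2 : (σ ^ k • x) ^ P.absNorm - (x ^ P.absNorm ^ k) ^ P.absNorm ∈ mi v := by
      obtain ⟨c, hc⟩ := sub_dvd_pow_sub_pow (σ ^ k • x) (x ^ P.absNorm ^ k) P.absNorm
      rw [hc]
      exact (mi v).mul_mem_right _ (ih x)
    have h3 := (mi v).add_mem h1 h2
    rw [sub_add_sub_cancel, ← pow_mul, ← pow_succ, smul_smul, ← pow_succ'] at h3
    exact h3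

lemma frob_conj {v₀ v : FinitePlace M} {g τ : Gal(M/K)} (hg : g • mi v₀ = mi v) {N : ℕ}
    (hst : τ • mi v₀ = mi v₀) (hτ' : ∀ x : 𝓞 M, τ • x - x ^ N ∈ mi v₀) :
    (g * τ * g⁻¹) • mi v = mi v ∧ ∀ x : 𝓞 M, (g * τ * g⁻¹) • x - x ^ N ∈ mi v := by
  constructor
  · rw [← hg, mul_smul, mul_smul, inv_smul_smul, hst]
  · intro x
    have h1 : (g * τ * g⁻¹) • x - x ^ N = g • (τ • (g⁻¹ • x) - (g⁻¹ • x) ^ N) := by
      rw [smul_sub, smul_pow', smul_inv_smul, mul_smul, mul_smul]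
    rw [h1, ← hg]
    exact Ideal.smul_mem_pointwise_smul _ _ _ (hτ' _)

lemma pigeon {α β : Type*} (s : Finset α) (c : α → β) (w : α → ℝ) (hw : ∀ a ∈ s, 0 < w a)
    (hs : s.Nonempty) (B : ℕ) (hB : (c '' s).ncard ≤ B) :
    ∃ b ∈ s, ∃ T ⊆ s, ∑ a ∈ s, w a ≤ B * ∑ a ∈ T, w a ∧ ∀ a ∈ T, c a = c b := by
  classical
  by_contra hcon
  push Not at hcon
  have h1 : ∀ b ∈ s, (B : ℝ) * ∑ a ∈ s.filter (fun a => c a = c b), w a < ∑ a ∈ s, w a := by
    intro b hb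
    by_contra h2
    push Not at h2
    obtain ⟨a, ha, ha'⟩ := hcon b hb (s.filter fun a => c a = c b) (Finset.filter_subset _ _) h2
    exact ha' (Finset.mem_filter.mp ha).2
  have hpos : 0 < ∑ a ∈ s, w a := Finset.sum_pos hw hs
  have hcard : (s.image c).card ≤ B := by
    have h2 : ((s.image c : Finset β) : Set β) = c '' s := by simp
    rw [← Set.ncard_coe_finset, h2]
    exact hB
  have h3 : ∑ a ∈ s, w a = ∑ x ∈ s.image c, ∑ a ∈ s.filter (fun a => c a = x), w a :=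
    (Finset.sum_fiberwise_of_maps_to (fun a ha => Finset.mem_image_of_mem c ha) w).symm
  have h4 : ∑ x ∈ s.image c, (B : ℝ) * ∑ a ∈ s.filter (fun a => c a = x), w a <
      ∑ x ∈ s.image c, ∑ a ∈ s, w a := by
    refine Finset.sum_lt_sum_of_nonempty (hs.image c) fun x hx => ?_
    obtain ⟨b, hb, rfl⟩ := Finset.mem_image.mp hx
    exact h1 b hb
  rw [← Finset.mul_sum, ← h3, Finset.sum_const, nsmul_eq_mul] at h4
  have h5 : ((s.image c).card : ℝ) ≤ B := by exact_mod_cast hcard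
  nlinarith

variable [IsGalois K M]

lemma exists_theta (h : Good P F q) (hP0 : P ≠ ⊥) {H : Subgroup Gal(M/K)} {Γ : Type*} [Group Γ]
    [Finite Γ] (ρ : Gal(M/K) →* Γ) (hρ : ∀ g, ρ g = 1 → g ∈ H) {n k B : ℕ}
    (hk : q = P.absNorm ^ (n * k))
    (hB : ∀ v ∈ TP M P, ∀ σ : Gal(M/K), σ • mi v = mi v →
      (∀ x : 𝓞 M, σ • x - x ^ P.absNorm ∈ mi v) →
      (Set.range fun g : Γ => g * (ρ σ) ^ n * g⁻¹).ncard ≤ B) :
    ∃ θ : Gal(M/K), ∃ T ⊆ TP M P, ∑ v ∈ TP M P, ew K v ≤ B * ∑ v ∈ T, ew K v ∧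
      ∀ v ∈ T, ∃ τ : Gal(M/K), τ • mi v = mi v ∧
        (∀ p : Option M, dv v (phi F p) (τ • p) < 1) ∧ τ * θ ∈ H := by
  classical
  obtain ⟨v₀, hv₀⟩ := TP_nonempty (M := M) hP0
  obtain ⟨σ, hσ, hσ'⟩ := exists_frob (K := K) hP0 hv₀ 1
  rw [pow_one] at hσ'
  have hcard := hB v₀ hv₀ σ hσ hσ'
  obtain ⟨hτ, hτ'⟩ := frob_pow hσ hσ' (n * k)
  rw [← hk] at hτ'
  set τ₀ := σ ^ (n * k) with hτ₀
  have hlo₀ := liesOver_of_mem hP0 hv₀
  have hex : ∀ v : FinitePlace M, ∃ g : Gal(M/K), v ∈ TP M P → g • mi v₀ = mi v := by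
    intro v
    by_cases hv : v ∈ TP M P
    · have hlo := liesOver_of_mem hP0 hv
      obtain ⟨g, hg⟩ := Ideal.exists_smul_eq_of_isGaloisGroup P (mi v₀) (mi v) Gal(M/K)
      exact ⟨g, fun _ => hg⟩
    · exact ⟨1, fun hv' => absurd hv' hv⟩
  choose g hg using hex
  have hcard2 : ((fun v => ρ (g v * τ₀ * (g v)⁻¹)) '' (TP M P : Set (FinitePlace M))).ncard ≤
      B := by
    refine le_trans ?_ hcard
    have h1 : ((fun v => ρ (g v * τ₀ * (g v)⁻¹)) '' (TP M P : Set (FinitePlace M))) ⊆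
        (fun γ : Γ => γ ^ k) '' (Set.range fun g : Γ => g * (ρ σ) ^ n * g⁻¹) := by
      rintro _ ⟨v, -, rfl⟩
      refine ⟨ρ (g v) * (ρ σ) ^ n * (ρ (g v))⁻¹, ⟨ρ (g v), rfl⟩, ?_⟩
      simp only
      rw [conj_pow, ← pow_mul, hτ₀, map_mul, map_mul, map_pow, map_inv]
    refine (Set.ncard_le_ncard h1 (Set.toFinite _)).trans ?_
    exact Set.ncard_image_le (Set.toFinite _)
  obtain ⟨b, hb, T, hT, hTw, hTc⟩ := pigeon (TP M P) (fun v => ρ (g v * τ₀ * (g v)⁻¹))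
    (fun v => ew K v) (fun v _ => ew_pos v) ⟨v₀, hv₀⟩ B hcard2
  refine ⟨(g b * τ₀ * (g b)⁻¹)⁻¹, T, hT, hTw, fun v hv => ?_⟩
  obtain ⟨h1, h2⟩ := frob_conj (hg v (hT hv)) hτ hτ'
  refine ⟨g v * τ₀ * (g v)⁻¹, h1, frob_of_ring h hP0 (hT hv) h1 h2, hρ _ ?_⟩
  have h3 : ρ (g v * τ₀ * (g v)⁻¹) = ρ (g b * τ₀ * (g b)⁻¹) := hTc v hv
  rw [map_mul, h3, map_inv, mul_inv_cancel]

end

end Pool.Agent.Y740.RL
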