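import Mathlib
import Pool.Agent.Y740.RL.FrobH
import Pool.Agent.H420R3.Final

/-!
The subgroup fixing a Galois extension `E` of a subfield `K` of the base field `K'`.
-/

set_option autoImplicit false
set_option linter.unusedSectionVars false

namespace Pool.Agent.Y740.RL

open NumberField Module MvPolynomial IsDedekindDomain Pool.Agent.H420R3
open scoped Pointwise

noncomputable section

variable {K : Type*} [Field K] [NumberField K]

/-- the `n`-th powers of the elements of the decomposition groups of the primes of `E` above `P₀`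
have at most `B` conjugates in the Galois group -/
def FewConj (P₀ : Ideal (𝓞 K)) (E : Type*) [Field E] [NumberField E] [Algebra K E]
    (B n : ℕ) : Prop :=
  ∀ 𝔓 : Ideal (𝓞 E), 𝔓.IsMaximal → 𝔓.LiesOver P₀ → ∀ σ : Gal(E/K), σ • 𝔓 = 𝔓 →
    (Set.range fun g : Gal(E/K) => g * σ ^ n * g⁻¹).ncard ≤ B

/-- the ramification indices of the primes of `E` above `P₀` are at most `e` -/
def RamLe (P₀ : Ideal (𝓞 K)) (E : Type*) [Field E] [NumberField E] [Algebra K E]
    (e : ℕ) : Prop :=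
  ∀ 𝔓 : Ideal (𝓞 E), 𝔓.IsMaximal → 𝔓.LiesOver P₀ → 𝔓.ramificationIdx (𝓞 K) ≤ e

variable {K' : Type*} [Field K'] [NumberField K'] [Algebra K K']
variable {M : Type*} [Field M] [NumberField M] [Algebra K M] [Algebra K' M]
  [IsScalarTower K K' M]
variable {E : Type*} [Field E] [NumberField E] [Algebra K E] [Algebra E M] [IsScalarTower K E M]
  [IsGalois K E]

variable (K K' E M) in
/-- restriction to `E` -/
def resE : Gal(M/K') →* Gal(E/K) :=
  (AlgEquiv.restrictNormalHom E).comp (AlgEquiv.restrictScalarsHom K)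

lemma resE_apply (g : Gal(M/K')) (x : E) :
    algebraMap E M (resE K K' M E g x) = g (algebraMap E M x) :=
  AlgEquiv.restrictNormal_commutes (AlgEquiv.restrictScalars K g) E x

variable (K K' E M) in
/-- the automorphisms fixing `E` -/
def fixE : Subgroup Gal(M/K') := (resE K K' M E).ker

lemma mem_fixE {g : Gal(M/K')} (hg : g ∈ fixE K K' M E) (x : E) :
    g (algebraMap E M x) = algebraMap E M x := by
  rw [← resE_apply (K := K), (MonoidHom.mem_ker).mp hg]
  rfl

instance normE : (fixE K K' M E).Normal := MonoidHom.normal_ker _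

lemma resE_int (g : Gal(M/K')) (x : 𝓞 E) :
    algebraMap (𝓞 E) (𝓞 M) (resE K K' M E g • x) = g • algebraMap (𝓞 E) (𝓞 M) x := by
  apply RingOfIntegers.ext
  exact resE_apply g (x : E)

section Prime

variable {P : Ideal (𝓞 K')} [hP : P.IsMaximal]

lemma under_over (hP0 : P ≠ ⊥) {v : FinitePlace M} (hv : v ∈ TP M P) :
    ((mi v).under (𝓞 E)).LiesOver (P.under (𝓞 K)) := by
  have hlo := liesOver_of_mem hP0 hv
  have h1 : P.LiesOver (P.under (𝓞 K)) := ⟨rfl⟩
  have h2 : (mi v).LiesOver (P.under (𝓞 K)) := Ideal.LiesOver.trans (mi v) P (P.under (𝓞 K))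
  have h3 : (mi v).LiesOver ((mi v).under (𝓞 E)) := ⟨rfl⟩
  exact Ideal.LiesOver.tower_bot (mi v) ((mi v).under (𝓞 E)) (P.under (𝓞 K))

lemma card_inertia_base (𝔓 : Ideal (𝓞 E)) [h𝔓 : 𝔓.IsMaximal] :
    Nat.card (𝔓.inertia Gal(E/K)) = 𝔓.ramificationIdx (𝓞 K) := by
  let p₀ : Ideal (𝓞 K) := 𝔓.under (𝓞 K)
  have hlo' : 𝔓.LiesOver p₀ := ⟨rfl⟩
  have hqm : p₀.IsMaximal := inferInstance
  have h1 : Nat.card (𝔓.inertia Gal(E/K)) = p₀.ramificationIdxIn (𝓞 E) :=
    Ideal.card_inertia_eq_ramificationIdxIn (G := Gal(E/K)) p₀ 𝔓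
  have h2 : p₀.ramificationIdxIn (𝓞 E) = 𝔓.ramificationIdx (𝓞 K) :=
    Ideal.ramificationIdxIn_eq_ramificationIdx p₀ 𝔓 Gal(E/K)
  rw [h1, h2]

lemma iner_E (hP0 : P ≠ ⊥) {e : ℕ} (hE : RamLe (P.under (𝓞 K)) E e) {v : FinitePlace M}
    (hv : v ∈ TP M P) :
    (Nat.card ((mi v).inertia Gal(M/K')) : ℝ) ≤
      e * Nat.card ((mi v).inertia Gal(M/K') ⊓ fixE K K' M E : Subgroup Gal(M/K')) := by
  let 𝔓 : Ideal (𝓞 E) := (mi v).under (𝓞 E)
  have hqm : 𝔓.IsMaximal := inferInstance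
  have hlo : 𝔓.LiesOver (P.under (𝓞 K)) := under_over hP0 hv
  have h4 : 𝔓.ramificationIdx (𝓞 K) ≤ e := hE 𝔓 hqm hlo
  set I : Subgroup Gal(M/K') := (mi v).inertia Gal(M/K') with hI
  let f : I →* Gal(E/K) := (resE K K' M E).comp I.subtype
  have h1 : Nat.card f.ker * Nat.card f.range = Nat.card I := by
    rw [← Subgroup.index_ker f]
    exact Subgroup.card_mul_index f.ker
  have h2 : Nat.card f.range ≤ Nat.card (𝔓.inertia Gal(E/K)) := by
    apply Subgroup.card_le_of_le
    rintro _ ⟨g, rfl⟩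
    change resE K K' M E g.1 ∈ 𝔓.inertia Gal(E/K)
    rw [AddSubgroup.mem_inertia]
    intro x
    have h3 := (AddSubgroup.mem_inertia.mp g.2) (algebraMap (𝓞 E) (𝓞 M) x)
    change algebraMap (𝓞 E) (𝓞 M) (resE K K' M E g.1 • x - x) ∈ mi v
    rw [map_sub, resE_int]
    exact h3
  have h3 : Nat.card f.ker = Nat.card (I ⊓ fixE K K' M E : Subgroup Gal(M/K')) := by
    refine Nat.card_congr ⟨fun g => ⟨g.1.1, g.1.2, MonoidHom.mem_ker.mp g.2⟩,
      fun g => ⟨⟨g.1, g.2.1⟩, MonoidHom.mem_ker.mpr g.2.2⟩, fun g => rfl, fun g => rfl⟩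
  rw [card_inertia_base] at h2
  have h5 : Nat.card I ≤ e * Nat.card (I ⊓ fixE K K' M E : Subgroup Gal(M/K')) := by
    rw [← h1, ← h3, mul_comm]
    exact Nat.mul_le_mul_right _ (h2.trans h4)
  exact_mod_cast h5

lemma frob_E (hP0 : P ≠ ⊥) {B n : ℕ} (hE : FewConj (P.under (𝓞 K)) E B n) {v : FinitePlace M}
    (hv : v ∈ TP M P) {σ : Gal(M/K')} (hσ : σ • mi v = mi v) :
    (Set.range fun g : Gal(E/K) => g * (resE K K' M E σ) ^ n * g⁻¹).ncard ≤ B := by
  refine hE ((mi v).under (𝓞 E)) inferInstance (under_over hP0 hv) _ ?_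
  ext x
  rw [Ideal.mem_pointwise_smul_iff_inv_smul_mem, ← map_inv]
  change algebraMap (𝓞 E) (𝓞 M) (resE K K' M E σ⁻¹ • x) ∈ mi v ↔
    algebraMap (𝓞 E) (𝓞 M) x ∈ mi v
  rw [resE_int, ← Ideal.mem_pointwise_smul_iff_inv_smul_mem, hσ]

variable [IsGalois K' M]

/-- the data for the relative argument -/
lemma exists_rel {F : Fin 2 → MvPolynomial (Fin 2) (𝓞 K')} {q : ℕ} (h : Good P F q)
    (hP0 : P ≠ ⊥) {e B n k : ℕ} (he : 1 ≤ e) (hB : 1 ≤ B)
    (hE : FewConj (P.under (𝓞 K)) E B n) (hE' : RamLe (P.under (𝓞 K)) E e)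
    (hk : q = P.absNorm ^ (n * k)) :
    ∃ θ : Gal(M/K'), Rel F (fixE K K' M E) P θ e B := by
  obtain ⟨θ, hθ⟩ := exists_theta (M := M) (H := fixE K K' M E) h hP0 (resE K K' M E)
    (fun g hg => MonoidHom.mem_ker.mpr hg) hk (B := B) fun v hv σ hσ _ => frob_E hP0 hE hv hσ
  exact ⟨θ, normE, by exact_mod_cast he, by exact_mod_cast hB, fun v hv => iner_E hP0 hE' hv, hθ⟩

end Prime

section Deg

variable {L : Type*} [Field L] [NumberField L] [Algebra E L] [Algebra L M]
  [IsScalarTower E L M]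

lemma dgH_lin_le (A : Matrix (Fin 2) (Fin 2) K') (x : Fin 2 → L) :
    dgH (fixE K K' M E) (pt (lin (A.map (algebraMap K' M)) fun i => algebraMap L M (x i))) ≤
      finrank E L := by
  classical
  have h1 : orbH (fixE K K' M E)
      (pt (lin (A.map (algebraMap K' M)) fun i => algebraMap L M (x i))) ⊆
      (Finset.univ : Finset (L →ₐ[E] M)).image fun ψ : L →ₐ[E] M =>
        pt (lin (A.map (algebraMap K' M)) fun i => ψ (x i)) := by
    intro w hw
    obtain ⟨g, hg, rfl⟩ := mem_orbH.mp hw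
    rw [Finset.mem_image]
    let ψ : L →ₐ[E] M :=
      { toRingHom := (g.toAlgHom : M →ₐ[K'] M).toRingHom.comp (algebraMap L M)
        commutes' := fun x => by
          change g (algebraMap L M (algebraMap E L x)) = algebraMap E M x
          rw [← IsScalarTower.algebraMap_apply E L M]
          exact mem_fixE hg x }
    refine ⟨ψ, Finset.mem_univ _, ?_⟩
    rw [← pt_map]
    congr 1
    funext i
    unfold lin
    rw [map_sum]
    refine Finset.sum_congr rfl fun j _ => ?_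
    rw [map_mul, Matrix.map_apply, AlgEquiv.commutes]
    rfl
  calc dgH (fixE K K' M E) (pt (lin (A.map (algebraMap K' M)) fun i => algebraMap L M (x i))) ≤
      ((Finset.univ : Finset (L →ₐ[E] M)).image fun ψ : L →ₐ[E] M =>
        pt (lin (A.map (algebraMap K' M)) fun i => ψ (x i))).card :=
        Finset.card_le_card h1
    _ ≤ (Finset.univ : Finset (L →ₐ[E] M)).card := Finset.card_image_le
    _ = Fintype.card (L →ₐ[E] M) := Finset.card_univ
    _ ≤ finrank E L := by
        have := card_algHom_le_finrank E L M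
        rwa [Nat.card_eq_fintype_card] at this

end Deg

end

end Pool.Agent.Y740.RL
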