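import Mathlib
import Pool.Agent.H420R3.Energy
import Pool.Agent.H420R3.Drop
import Pool.Agent.Y740.RL.CrossH

/-!
Consequences of the energy inequality for the orbits of a normal subgroup: at a drop and in a
stable run.
-/

set_option autoImplicit false
set_option linter.unusedSectionVars false

namespace Pool.Agent.Y740.RL

open NumberField Module MvPolynomial IsDedekindDomain Filter Topology Pool.Agent.H420R3
open scoped Pointwise

noncomputable section

variable {K : Type*} [Field K] [NumberField K]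
variable {M : Type*} [Field M] [NumberField M] [Algebra K M]
variable {F : Fin 2 → MvPolynomial (Fin 2) (𝓞 K)}
variable {H : Subgroup Gal(M/K)}
variable {P : Ideal (𝓞 K)} [hP : P.IsMaximal] {q : ℕ}
variable {θ : Gal(M/K)} {e B : ℝ}

variable (K M) in
/-- total weight, divided by `e` -/
def WE (P : Ideal (𝓞 K)) (e : ℝ) : ℝ := ∑ v ∈ TP M P, ew K v / e

lemma WE_eq : WE K M P e = WW M P / e := by
  unfold WE WW
  rw [Finset.sum_div]

lemma WE_pos (hP0 : P ≠ ⊥) (he : 1 ≤ e) : 0 < WE K M P e := by
  rw [WE_eq]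
  exact div_pos (WW_pos hP0) (by linarith)

/-- the normalised constant -/
def cAe (P : Ideal (𝓞 K)) (F : Fin 2 → MvPolynomial (Fin 2) (𝓞 K)) (q : ℕ) (e : ℝ) : ℝ :=
  cA P F q * e

lemma cAe_pos (h : Good P F q) (hP0 : P ≠ ⊥) (he : 1 ≤ e) : 0 < cAe P F q e :=
  mul_pos (h.cA_pos hP0) (by linarith)

lemma ES_leE (h : Good P F q) (hP0 : P ≠ ⊥) (he : 1 ≤ e) (S : Finset (Option M))
    (hS : 1 ≤ S.card) :
    ES P S ≤ WE K M P e * (cAe P F q e *
      (S.card * (1 + Real.log S.card + ∑ p ∈ S, hp F q p))) := by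
  refine (h.ES_le' hP0 S hS).trans (le_of_eq ?_)
  have he0 : e ≠ 0 := by
    intro h0
    rw [h0] at he
    linarith
  rw [WE_eq, cAe]
  field_simp

variable [IsGalois K M]

open Classical in
/-- at a drop -/
lemma dropH {p : Option M} (he1 : 1 ≤ e) (hd : DepH F H P q e p) (h : Good P F q)
    (hP0 : P ≠ ⊥) (hpw : Wand F p) (j : ℕ)
    (hdrop : dgH H ((phi F)^[j + 1] p) < dgH H ((phi F)^[j] p))
    (hsmall : hp F q ((phi F)^[j] p) ≤ 1) :
    (q : ℝ) ^ j * dgH H ((phi F)^[j] p) / dgH H p / e ≤
      2 * cA P F q * Real.exp (4 * cA P F q * q) *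
        (1 + Real.log (dgH H ((phi F)^[j] p)) +
          dgH H ((phi F)^[j] p) * hp F q ((phi F)^[j] p)) := by
  have hq := h.two_le hP0
  have hq' : (2 : ℝ) ≤ q := by exact_mod_cast hq
  have he00 : 0 < e := by linarith
  have hA := h.cA_pos hP0
  set A := cA P F q with hAdef
  have hW := WW_pos (M := M) hP0
  set W := WW M P with hWdef
  set y := (phi F)^[j] p with hy
  have hDj : (0 : ℝ) < dgH H y := by exact_mod_cast dgH_pos y
  have hD0 : (0 : ℝ) < dgH H p := by exact_mod_cast dgH_pos p
  set Λ := (q : ℝ) ^ j * dgH H y / dgH H p / e with hΛ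
  have hΛ0 : 0 < Λ := by positivity
  -- lower bound for every point
  have hlow : ∀ w ∈ orbH H y, W * (Λ / 2 * Real.exp (-(4 * A * q))) ≤
      ∑ w' ∈ orbH H y, ee P w w' := by
    intro w hw
    obtain ⟨w', hw', hne, hphi⟩ := exists_mateH j hdrop hw
    set S : FinitePlace M → ℝ := fun v =>
      (gq q)^[j] ((dgH H y : ℝ) / (e * (dgH H p * bbH H v w))) with hS
    have hS0 : ∀ v, 0 ≤ S v := fun v => gq_iter_nonneg q (by positivity) j
    have hdv : ∀ v ∈ TP M P, dv v w w' < 1 := by
      intro v hv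
      rw [← (h.red_at hP0 hv).dv_phi_lt_one_iff, hphi, dv_self]
      norm_num
    -- pair energy
    have hpair : ∑ v ∈ TP M P, ew K v * S v ≤ W * (4 * A) := by
      have h1 : ∑ v ∈ TP M P, ew K v * S v ≤ ee P w w' := by
        unfold ee
        exact Finset.sum_le_sum fun v hv => self_lowerH he1 hd h hP0 hv hpw j hw hw' hne.symm (hdv v hv)
      have h2 := h.ES_le' hP0 ({w, w'} : Finset (Option M)) (by
        rw [Finset.card_pair hne.symm]
        norm_num)
      have h3 : ES P ({w, w'} : Finset (Option M)) = 2 * ee P w w' := by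
        unfold ES
        rw [Finset.sum_pair hne.symm, Finset.sum_pair hne.symm, Finset.sum_pair hne.symm, ee_self,
          ee_self, ee_comm w' w]
        ring
      rw [h3, Finset.card_pair hne.symm, Finset.sum_pair hne.symm, hp_of_mem (orbH_subset _ hw),
        hp_of_mem (orbH_subset _ hw')] at h2
      have h4 : Real.log 2 ≤ 1 := by
        have := Real.log_two_lt_d9
        linarith
      have h5 : (((2 : ℕ) : ℝ) * (1 + Real.log ((2 : ℕ) : ℝ) + (hp F q y + hp F q y))) ≤ 8 := by
        push_cast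
        linarith
      have h6 : 2 * ee P w w' ≤ W * (A * 8) := by
        refine h2.trans ?_
        apply mul_le_mul_of_nonneg_left _ hW.le
        exact mul_le_mul_of_nonneg_left h5 hA.le
      linarith
    -- each place
    have hplace : ∀ v ∈ TP M P, ew K v * (Λ / 2 * Real.exp (-(q * S v))) ≤
        ∑ w' ∈ orbH H y, dl v w w' := by
      intro v hv
      refine le_trans ?_ (self_sumH he1 hd h hP0 hv hpw j hw)
      have he := ew_pos (K := K) v
      have hb2 : (2 : ℝ) ≤ bbH H v w := by
        have h1 : 2 ≤ bbH H v w := by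
          unfold bbH
          have h2 : ({w, w'} : Finset (Option M)) ⊆
              (orbH H w).filter fun p' => dv v w p' < 1 := by
            intro x hx
            rw [Finset.mem_insert, Finset.mem_singleton] at hx
            rw [Finset.mem_filter, orbH_eq_of_mem hw]
            rcases hx with rfl | rfl
            · exact ⟨hw, by rw [dv_self]; norm_num⟩
            · exact ⟨hw', hdv v hv⟩
          have h3 := Finset.card_le_card h2
          rwa [Finset.card_pair hne.symm] at h3
        exact_mod_cast h1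
      set b : ℝ := (bbH H v w : ℝ) with hb
      have ht : 0 < (dgH H y : ℝ) / (e * (dgH H p * b)) := by positivity
      have hqt : (q : ℝ) ^ j * ((dgH H y : ℝ) / (e * (dgH H p * b))) = Λ / b := by
        rw [hΛ]
        field_simp
      have h1 := gq_iter_min hq ht.le j
      have h2 := gq_iter_log hq ht j
      rw [hqt] at h1 h2
      have hSv : S v = (gq q)^[j] ((dgH H y : ℝ) / (e * (dgH H p * b))) := rfl
      rw [← hSv] at h1 h2 ⊢
      have h3 : Real.exp (-(q * S v)) ≤ b / Λ := by
        rw [← Real.le_log_iff_exp_le (by positivity)]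
        have h4 : Real.log (b / Λ) = -Real.log (Λ / b) := by
          rw [← Real.log_inv, inv_div]
        rw [h4]
        rw [div_le_iff₀ (by linarith)] at h2
        linarith
      have h4 : Real.exp (-(q * S v)) ≤ 1 := by
        rw [Real.exp_le_one_iff]
        have := mul_nonneg (by linarith : (0 : ℝ) ≤ q) (hS0 v)
        linarith
      have h5 : Λ / 2 * Real.exp (-(q * S v)) ≤ (b - 1) * S v := by
        have h6 : b / 2 ≤ b - 1 := by linarith
        have h7 : b / 2 * S v ≤ (b - 1) * S v := mul_le_mul_of_nonneg_right h6 (hS0 v)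
        refine le_trans ?_ h7
        rcases min_le_iff.mp h1 with h8 | h8
        · calc Λ / 2 * Real.exp (-(q * S v)) ≤ Λ / 2 * 1 := by gcongr
            _ = b / 2 * (Λ / b) := by field_simp
            _ ≤ b / 2 * S v := by gcongr
        · calc Λ / 2 * Real.exp (-(q * S v)) ≤ Λ / 2 * (b / Λ) := by gcongr
            _ = b / 2 * 1 := by field_simp
            _ ≤ b / 2 * S v := by gcongr
      calc ew K v * (Λ / 2 * Real.exp (-(q * S v))) ≤ ew K v * ((b - 1) * S v) := by gcongr
        _ = (b - 1) * (ew K v * S v) := by ring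
    have hsum : ∑ v ∈ TP M P, ew K v * (Λ / 2 * Real.exp (-(q * S v))) ≤
        ∑ w' ∈ orbH H y, ee P w w' := by
      refine (Finset.sum_le_sum hplace).trans (le_of_eq ?_)
      rw [Finset.sum_comm]
      rfl
    refine le_trans ?_ hsum
    -- convexity
    set a := 4 * A * q with ha
    have htan : ∀ v ∈ TP M P, ew K v * (Λ / 2 * (Real.exp (-a) * (1 + a - q * S v))) ≤
        ew K v * (Λ / 2 * Real.exp (-(q * S v))) := by
      intro v _
      have he := ew_pos (K := K) v
      have h1 : Real.exp (-a) * (1 + a - q * S v) ≤ Real.exp (-(q * S v)) := by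
        have h2 := Real.add_one_le_exp (a - q * S v)
        have h3 : Real.exp (-(q * S v)) = Real.exp (-a) * Real.exp (a - q * S v) := by
          rw [← Real.exp_add]
          congr 1
          ring
        rw [h3]
        apply mul_le_mul_of_nonneg_left _ (Real.exp_pos _).le
        linarith
      gcongr
    refine le_trans ?_ (Finset.sum_le_sum htan)
    have h1 : ∑ v ∈ TP M P, ew K v * (Λ / 2 * (Real.exp (-a) * (1 + a - q * S v))) =
        Λ / 2 * Real.exp (-a) * ((1 + a) * W - q * ∑ v ∈ TP M P, ew K v * S v) := by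
      rw [hWdef, WW, Finset.mul_sum, Finset.mul_sum, ← Finset.sum_sub_distrib, Finset.mul_sum]
      refine Finset.sum_congr rfl fun v _ => ?_
      ring
    rw [h1]
    have h2 : (q : ℝ) * ∑ v ∈ TP M P, ew K v * S v ≤ a * W := by
      calc (q : ℝ) * ∑ v ∈ TP M P, ew K v * S v ≤ q * (W * (4 * A)) := by gcongr
        _ = a * W := by rw [ha]; ring
    calc W * (Λ / 2 * Real.exp (-a)) = Λ / 2 * Real.exp (-a) * W := by ring
      _ ≤ _ := by
        apply mul_le_mul_of_nonneg_left _ (by positivity)
        linarith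
  -- conclusion
  have h1 := h.ES_le' hP0 (orbH H y) (dgH_pos y)
  have h2 : (dgH H y : ℝ) * (W * (Λ / 2 * Real.exp (-(4 * A * q)))) ≤ ES P (orbH H y) := by
    unfold ES
    have h3 := Finset.sum_le_sum hlow
    rw [Finset.sum_const, nsmul_eq_mul] at h3
    exact h3
  have h3 : ∑ x ∈ orbH H y, hp F q x = dgH H y * hp F q y := by
    rw [Finset.sum_congr rfl fun x hx => hp_of_mem (orbH_subset _ hx), Finset.sum_const, nsmul_eq_mul]
    rfl
  rw [h3] at h1
  change ES P (orbH H y) ≤ W * (A * ((dgH H y : ℝ) *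
    (1 + Real.log (dgH H y : ℝ) + (dgH H y : ℝ) * hp F q y))) at h1
  have h4 := h2.trans h1
  have h5 : Λ * Real.exp (-(4 * A * q)) ≤
      2 * A * (1 + Real.log (dgH H y) + dgH H y * hp F q y) := by
    have h6 : (dgH H y : ℝ) * W * (Λ / 2 * Real.exp (-(4 * A * q))) ≤
        (dgH H y : ℝ) * W * (A * (1 + Real.log (dgH H y : ℝ) + (dgH H y : ℝ) * hp F q y)) := by
      calc _ = (dgH H y : ℝ) * (W * (Λ / 2 * Real.exp (-(4 * A * q)))) := by ring
        _ ≤ _ := h4
        _ = _ := by ring
    have h7 := le_of_mul_le_mul_left h6 (by positivity)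
    linarith
  have h6 : Λ = Λ * Real.exp (-(4 * A * q)) * Real.exp (4 * A * q) := by
    rw [mul_assoc, ← Real.exp_add]
    simp
  rw [h6]
  calc Λ * Real.exp (-(4 * A * q)) * Real.exp (4 * A * q) ≤
      2 * A * (1 + Real.log (dgH H y) + dgH H y * hp F q y) * Real.exp (4 * A * q) := by gcongr
    _ = _ := by ring

open Classical in
/-- in a stable run -/
lemma runH (h : Good P F q) (hP0 : P ≠ ⊥) (hr : Rel F H P θ e B) {p : Option M}
    (hdep : DepH F H P q 1 p) (hpw : Wand F p) {m : ℕ}
    (hm : 1 ≤ m) (hN : ∀ t ≤ 2 * m, dgH H ((phi F)^[t] p) = dgH H p) :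
    ((m : ℝ) + 1) * (m - 1) / 2 ≤
      cAe P F q B * (1 + Real.log (m * dgH H p) + (q : ℝ) ^ (2 * m) * dgH H p * hp F q p) := by
  have hq := h.two_le hP0
  have hq' : (2 : ℝ) ≤ q := by exact_mod_cast hq
  have hH : H.Normal := hr.normal
  have hB1 := hr.one_leB
  have hA := cAe_pos h hP0 hB1
  set A := cAe P F q B with hAdef
  have hW := WE_pos (K := K) (M := M) hP0 hB1
  set W := WE K M P B with hWdef
  obtain ⟨T, hT, hTW, hTf⟩ := hr.frob
  have hWT : W ≤ ∑ v ∈ T, ew K v := by
    rw [hWdef, WE_eq, WW, div_le_iff₀ (by linarith)]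
    linarith
  have hD0 : (0 : ℝ) < dgH H p := by exact_mod_cast dgH_pos p
  have hm' : (1 : ℝ) ≤ m := by exact_mod_cast hm
  set Z : ℕ → Finset (Option M) := fun a => ZZ F H θ p a with hZ
  set S : Finset (Option M) := (Finset.Ico m (2 * m)).biUnion Z with hS
  have hdisj : Set.PairwiseDisjoint (↑(Finset.Ico m (2 * m)) : Set ℕ) Z := by
    intro a _ b _ hab
    rw [Function.onFun, Finset.disjoint_left]
    intro w hw hw'
    exact hpw.disj hab (ZZ_subset _ _ hw) (ZZ_subset _ _ hw') rfl
  have hsum : ∀ f : Option M → ℝ, ∑ x ∈ S, f x = ∑ a ∈ Finset.Ico m (2 * m), ∑ x ∈ Z a, f x :=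
    fun f => Finset.sum_biUnion hdisj
  have hcardZ : ∀ a ∈ Finset.Ico m (2 * m), ((Z a).card : ℝ) = dgH H p := by
    intro a ha
    rw [Finset.mem_Ico] at ha
    rw [hZ]
    simp only
    rw [card_ZZ, hN a (by omega)]
  have hScard : (S.card : ℝ) = m * dgH H p := by
    have h1 := hsum fun _ => (1 : ℝ)
    simp only [Finset.sum_const, nsmul_eq_mul, mul_one] at h1
    rw [h1, Finset.sum_congr rfl hcardZ, Finset.sum_const, Nat.card_Ico, nsmul_eq_mul]
    congr 2
    omega
  have hS1 : 1 ≤ S.card := by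
    have h1 : (0 : ℝ) < S.card := by
      rw [hScard]
      positivity
    exact_mod_cast h1
  have h1 := ES_leE h hP0 hB1 S hS1
  -- lower bound
  have hlow : ((m : ℝ) + 1) * (m * (m - 1) / 2) * (dgH H p * W) ≤ ES P S := by
    unfold ES
    rw [hsum]
    have h2 : ∀ a ∈ Finset.Ico m (2 * m), ((a : ℝ) - m) * ((m + 1) * (dgH H p * W)) ≤
        ∑ z ∈ Z a, ∑ x ∈ S, ee P z x := by
      intro a ha
      have hcz := hcardZ a ha
      rw [Finset.mem_Ico] at ha
      have h3 : ∀ z ∈ Z a, ((a : ℝ) - m) * ((m + 1) * W) ≤ ∑ x ∈ S, ee P z x := by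
        intro z hz
        rw [hsum]
        have h4 : ∀ b ∈ Finset.Ico m a, ((m : ℝ) + 1) * W ≤ ∑ x ∈ Z b, ee P z x := by
          intro b hb
          rw [Finset.mem_Ico] at hb
          have h5 : ∑ x ∈ Z b, ee P z x = ∑ v ∈ TP M P, ∑ x ∈ Z b, dl v z x := by
            unfold ee
            rw [Finset.sum_comm]
          rw [h5]
          refine le_trans ?_ (Finset.sum_le_sum_of_subset_of_nonneg hT fun v _ _ =>
            Finset.sum_nonneg fun x _ => dl_nonneg v z x)
          refine le_trans (mul_le_mul_of_nonneg_left hWT (by positivity)) ?_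
          rw [Finset.mul_sum]
          refine Finset.sum_le_sum fun v hv => ?_
          have h6 := cross_lowerH hdep h hP0 (hT hv) (hTf v hv) hpw (N := 2 * m) hN (a := b)
            (b := a) hb.2 (by omega) hz
          refine le_trans ?_ h6
          have h7 : (m : ℝ) ≤ b := by exact_mod_cast hb.1
          have he := ew_pos (K := K) v
          rw [mul_comm]
          gcongr
        calc ((a : ℝ) - m) * ((m + 1) * W) = ∑ b ∈ Finset.Ico m a, ((m : ℝ) + 1) * W := by
              rw [Finset.sum_const, Nat.card_Ico, nsmul_eq_mul, Nat.cast_sub ha.1]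
          _ ≤ ∑ b ∈ Finset.Ico m a, ∑ x ∈ Z b, ee P z x := Finset.sum_le_sum h4
          _ ≤ ∑ b ∈ Finset.Ico m (2 * m), ∑ x ∈ Z b, ee P z x := by
              refine Finset.sum_le_sum_of_subset_of_nonneg ?_ fun b _ _ =>
                Finset.sum_nonneg fun x _ => ee_nonneg _ _
              exact Finset.Ico_subset_Ico le_rfl (by omega)
      calc ((a : ℝ) - m) * ((m + 1) * (dgH H p * W)) =
          ∑ z ∈ Z a, ((a : ℝ) - m) * ((m + 1) * W) := by
            rw [Finset.sum_const, nsmul_eq_mul, hcz]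
            ring
        _ ≤ _ := Finset.sum_le_sum h3
    refine le_trans (le_of_eq ?_) (Finset.sum_le_sum h2)
    rw [← Finset.sum_mul]
    have h3 : ∑ a ∈ Finset.Ico m (2 * m), ((a : ℝ) - m) = m * (m - 1) / 2 := by
      have h4 : ∑ a ∈ Finset.Ico m (2 * m), ((a : ℝ) - m) = ∑ a ∈ Finset.range m, (a : ℝ) := by
        rw [Finset.sum_Ico_eq_sum_range]
        have : 2 * m - m = m := by omega
        rw [this]
        refine Finset.sum_congr rfl fun a _ => ?_
        push_cast
        ring
      rw [h4]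
      have h5 : ∀ n : ℕ, ∑ a ∈ Finset.range n, (a : ℝ) = n * (n - 1) / 2 := by
        intro n
        induction n with
        | zero => simp
        | succ n ih =>
          rw [Finset.sum_range_succ, ih]
          push_cast
          ring
      exact h5 m
    rw [h3]
    ring
  -- heights
  have hht : ∑ x ∈ S, hp F q x ≤ (q : ℝ) ^ (2 * m) * dgH H p * hp F q p := by
    rw [hsum]
    have h2 : ∀ a ∈ Finset.Ico m (2 * m), ∑ x ∈ Z a, hp F q x =
        (q : ℝ) ^ a * (dgH H p * hp F q p) := by
      intro a ha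
      rw [Finset.sum_congr rfl fun x hx => hp_of_mem (ZZ_subset _ _ hx), Finset.sum_const, nsmul_eq_mul,
        h.hp_iter hP0, hcardZ a ha]
      ring
    rw [Finset.sum_congr rfl h2, ← Finset.sum_mul]
    have h3 := h.hp_nonneg hP0 p
    have h4 : ∑ a ∈ Finset.Ico m (2 * m), (q : ℝ) ^ a ≤ (q : ℝ) ^ (2 * m) := by
      have h5 : ∀ n : ℕ, ∑ a ∈ Finset.range n, (q : ℝ) ^ a ≤ (q : ℝ) ^ n := by
        intro n
        induction n with
        | zero => simp
        | succ n ih =>
          rw [Finset.sum_range_succ, pow_succ]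
          have : (0 : ℝ) < (q : ℝ) ^ n := by positivity
          nlinarith
      refine le_trans ?_ (h5 (2 * m))
      refine Finset.sum_le_sum_of_subset_of_nonneg ?_ fun a _ _ => by positivity
      intro a ha
      rw [Finset.mem_Ico] at ha
      rw [Finset.mem_range]
      exact ha.2
    calc (∑ a ∈ Finset.Ico m (2 * m), (q : ℝ) ^ a) * (dgH H p * hp F q p) ≤
        (q : ℝ) ^ (2 * m) * (dgH H p * hp F q p) := by gcongr
      _ = _ := by ring
  rw [hScard] at h1
  have h2 : ((m : ℝ) + 1) * (m * (m - 1) / 2) * (dgH H p * W) ≤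
      W * (A * ((m * dgH H p) * (1 + Real.log (m * dgH H p) +
        (q : ℝ) ^ (2 * m) * dgH H p * hp F q p))) := by
    refine hlow.trans (h1.trans ?_)
    gcongr
  have h3 : (m * (dgH H p : ℝ) * W) * (((m : ℝ) + 1) * (m - 1) / 2) ≤
      (m * (dgH H p : ℝ) * W) * (A * (1 + Real.log (m * dgH H p) +
        (q : ℝ) ^ (2 * m) * dgH H p * hp F q p)) := by
    calc _ = ((m : ℝ) + 1) * (m * (m - 1) / 2) * (dgH H p * W) := by ring
      _ ≤ _ := h2
      _ = _ := by ring
  exact le_of_mul_le_mul_left h3 (by positivity)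

end

end Pool.Agent.Y740.RL
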