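import Mathlib
import Pool.Agent.H420R3.Main
import Pool.Agent.Y740.RL.DropH
import Pool.Agent.Y740.RL.AssemblyE

/-!
The lower bound for the orbits of a normal subgroup of the Galois group.
-/

set_option autoImplicit false
set_option linter.unusedSectionVars false

namespace Pool.Agent.Y740.RL

open NumberField Module MvPolynomial IsDedekindDomain Filter Topology Pool.Agent.H420R3
open scoped Pointwise

noncomputable section

variable {K : Type*} [Field K] [NumberField K]
variable {F : Fin 2 → MvPolynomial (Fin 2) (𝓞 K)}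
variable {P : Ideal (𝓞 K)} [hP : P.IsMaximal] {q : ℕ}

/-- final constants -/
def k1 (P : Ideal (𝓞 K)) (F : Fin 2 → MvPolynomial (Fin 2) (𝓞 K)) (q : ℕ) (e : ℝ) : ℝ :=
  2 * (2 * cAe P F q e + 3) * Real.log q + 2

/-- final constants -/
def k2 (P : Ideal (𝓞 K)) (F : Fin 2 → MvPolynomial (Fin 2) (𝓞 K)) (q : ℕ) (e : ℝ) : ℝ :=
  2 * (2 * cAe P F q e * Real.exp (4 * cAe P F q e * q) + 1) * (q : ℝ) ^ 3

lemma k1_pos (h : Good P F q) (hP0 : P ≠ ⊥) {e : ℝ} (he : 1 ≤ e) : 0 < k1 P F q e := by
  have hq' : (2 : ℝ) ≤ q := by exact_mod_cast h.two_le hP0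
  have hlq : 0 < Real.log q := Real.log_pos (by linarith)
  have := cAe_pos h hP0 he
  unfold k1
  positivity

lemma k2_pos (h : Good P F q) (hP0 : P ≠ ⊥) {e : ℝ} (he : 1 ≤ e) : 0 < k2 P F q e := by
  have hq' : (2 : ℝ) ≤ q := by exact_mod_cast h.two_le hP0
  have := cAe_pos h hP0 he
  unfold k2
  positivity

/-- the lower bound over a Galois extension -/
lemma main_galH (h : Good P F q) (hP0 : P ≠ ⊥) {M : Type*} [Field M] [NumberField M]
    [Algebra K M] [IsGalois K M] {H : Subgroup Gal(M/K)} {θ : Gal(M/K)} {e B₀ : ℝ}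
    (hr : Rel F H P θ e B₀) {p : Option M} (hpw : Wand F p) :
    Real.exp (-(k1 P F q B₀ * Real.sqrt (1 + Real.log (dgH H p)))) / (k2 P F q B₀ * e) ≤
      dgH H p * hp F q p := by
  have hq := h.two_le hP0
  have hq' : (2 : ℝ) ≤ q := by exact_mod_cast hq
  have he1 := hr.one_le
  have hB01 := hr.one_leB
  have hH : H.Normal := hr.normal
  have hdep := hr.dep h hP0 hpw
  have hA := cAe_pos h hP0 hB01
  have hA0 := h.cA_pos hP0
  have hAA : cA P F q ≤ cAe P F q B₀ := by
    unfold cAe
    nlinarith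
  set A := cAe P F q B₀ with hAdef
  set B := 2 * A * Real.exp (4 * A * q) with hB
  have hB0 : 0 < B := by positivity
  have hD0 : (0 : ℝ) < dgH H p := by exact_mod_cast dgH_pos p
  set D : ℕ → ℕ := fun i => dgH H ((phi F)^[i] p) with hD
  have hDD0 : D 0 = dgH H p := rfl
  set y := (D 0 : ℝ) * hp F q p with hy
  have hy0 : 0 ≤ y := mul_nonneg (by positivity) (h.hp_nonneg hP0 p)
  have hhp : ∀ j, hp F q ((phi F)^[j] p) = (q : ℝ) ^ j * y / D 0 := by
    intro j
    rw [h.hp_iter hP0, hy]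
    rw [hDD0]
    field_simp
  obtain ⟨m, hm1, hm2, hm3⟩ := choose_m hA (n := D 0) (dgH_pos p)
  have hDle : ∀ i, D (i + 1) ≤ D i := by
    intro i
    have := dgH_phi_le (H := H) F ((phi F)^[i] p) 1
    rw [← Function.iterate_add_apply, add_comm] at this
    exact this
  have key := combineE (D := D) (q := q) (A := A) (B := B) (h := y) (e := e) hq
    (fun i => dgH_pos _) hDle hA hB0.le hy0 he1 (by
      intro j hj hs
      rw [← hhp] at hs ⊢
      refine (dropH he1 hdep h hP0 hpw j hj hs).trans ?_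
      have hX : 0 ≤ 1 + Real.log (dgH H ((phi F)^[j] p)) +
          dgH H ((phi F)^[j] p) * hp F q ((phi F)^[j] p) := by
        have e1 : (1 : ℝ) ≤ dgH H ((phi F)^[j] p) := by exact_mod_cast dgH_pos ((phi F)^[j] p)
        have e2 := Real.log_nonneg e1
        have e3 := h.hp_nonneg hP0 ((phi F)^[j] p)
        positivity
      apply mul_le_mul_of_nonneg_right _ hX
      rw [hB]
      gcongr) (by
      intro i m hm hi hst
      have h1 := runH h hP0 hr (hdep.shift he1 h hP0 hpw hi) (hpw.iter i) hm (by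
        intro t ht
        rw [← Function.iterate_add_apply, add_comm t i]
        exact hst t ht)
      rw [hhp] at h1
      exact h1) hm1 hm2
  set s := Real.sqrt (1 + Real.log (D 0)) with hs
  have hn' : (1 : ℝ) ≤ D 0 := by exact_mod_cast dgH_pos p
  have hl : 0 ≤ Real.log (D 0) := Real.log_nonneg hn'
  have hs2 : s ^ 2 = 1 + Real.log (D 0) := Real.sq_sqrt (by linarith)
  have hs0 : 0 ≤ s := Real.sqrt_nonneg _
  refine le_trans ?_ key
  have he0 : 0 < e := by linarith
  rw [le_div_iff₀ (by positivity)]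
  have hlq : 0 < Real.log q := Real.log_pos (by linarith)
  have h1 : (q : ℝ) ^ (2 * m + 1) ≤
      Real.exp (2 * (2 * A + 3) * Real.log q * s) * (q : ℝ) ^ 3 := by
    have h2 : (q : ℝ) ^ (2 * m + 1) = Real.exp ((2 * m + 1) * Real.log q) := by
      rw [← Real.exp_log (show (0 : ℝ) < (q : ℝ) ^ (2 * m + 1) by positivity), Real.log_pow]
      push_cast
      rfl
    have h3 : (q : ℝ) ^ 3 = Real.exp (3 * Real.log q) := by
      rw [← Real.exp_log (show (0 : ℝ) < (q : ℝ) ^ 3 by positivity), Real.log_pow]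
      norm_num
    rw [h2, h3, ← Real.exp_add, Real.exp_le_exp]
    have h4 : (2 * (m : ℝ) + 1) * Real.log q ≤
        (2 * ((2 * A + 3) * s + 1) + 1) * Real.log q := by gcongr
    linarith
  have h2 : 1 + Real.log (D 0) ≤ Real.exp (2 * s) := by
    rw [← hs2]
    have h3 : s ≤ Real.exp s := by
      have := Real.add_one_le_exp s
      linarith
    calc s ^ 2 ≤ (Real.exp s) ^ 2 := by gcongr
      _ = Real.exp (2 * s) := by
          rw [← Real.exp_nat_mul]
          norm_num
  have h3 : (q : ℝ) ^ (2 * m + 1) * (2 * (B + 1) * (1 + Real.log (D 0))) ≤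
      k2 P F q B₀ * Real.exp (k1 P F q B₀ * s) := by
    calc (q : ℝ) ^ (2 * m + 1) * (2 * (B + 1) * (1 + Real.log (D 0))) ≤
        (Real.exp (2 * (2 * A + 3) * Real.log q * s) * (q : ℝ) ^ 3) *
          (2 * (B + 1) * Real.exp (2 * s)) := by gcongr
      _ = (2 * (B + 1) * (q : ℝ) ^ 3) *
          (Real.exp (2 * (2 * A + 3) * Real.log q * s) * Real.exp (2 * s)) := by ring
      _ = k2 P F q B₀ * Real.exp (k1 P F q B₀ * s) := by
          rw [← Real.exp_add, k1, k2, ← hAdef, ← hB]
          congr 2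
          ring
  have hc2 := k2_pos h hP0 hB01
  have hsdg : Real.sqrt (1 + Real.log (dgH H p)) = s := rfl
  rw [hsdg]
  calc Real.exp (-(k1 P F q B₀ * s)) / (k2 P F q B₀ * e) *
      (e * ((q : ℝ) ^ (2 * m + 1) * (2 * (B + 1) * (1 + Real.log (D 0))))) ≤
      Real.exp (-(k1 P F q B₀ * s)) / (k2 P F q B₀ * e) *
        (e * (k2 P F q B₀ * Real.exp (k1 P F q B₀ * s))) := by
        gcongr
    _ = 1 := by
        rw [Real.exp_neg]
        have := Real.exp_pos (k1 P F q B₀ * s)
        field_simp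

end

end Pool.Agent.Y740.RL
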