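import Mathlib
import Pool.Agent.Y740.RL.ExtH
import Pool.Agent.Y740.RL.MainH

/-!
The relative bound over a field containing all the data.
-/

set_option autoImplicit false
set_option linter.unusedSectionVars false

namespace Pool.Agent.Y740.RL

open NumberField Module MvPolynomial IsDedekindDomain Filter Topology Pool.Agent.H420R3
open scoped Pointwise

noncomputable section

section FitMul

lemma Fit_add {R : Type*} [CommRing R] (F : Fin 2 → MvPolynomial (Fin 2) R) (a b : ℕ)
    (i : Fin 2) : Fit F (a + b) i = bind₁ (Fit F b) (Fit F a i) := by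
  induction a generalizing i with
  | zero =>
    rw [Nat.zero_add]
    change Fit F b i = bind₁ (Fit F b) (X i)
    rw [bind₁_X_right]
  | succ a ih =>
    have h1 : a + 1 + b = (a + b) + 1 := by omega
    rw [h1]
    change bind₁ (Fit F (a + b)) (F i) = bind₁ (Fit F b) (bind₁ (Fit F a) (F i))
    rw [bind₁_bind₁]
    congr 2
    funext k
    exact ih k

variable {k : Type*} [Field k] [NumberField k] {P : Ideal (𝓞 k)} [hP : P.IsMaximal]

/-- multiples of the iterate -/
lemma good_mul {F : Fin 2 → MvPolynomial (Fin 2) (𝓞 k)} {q s : ℕ}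
    (hF : ∀ i, (F i).IsHomogeneous q) (h : Good P (Fit F s) (q ^ s)) {n : ℕ} (hn : 1 ≤ n) :
    Good P (Fit F (s * n)) (q ^ (s * n)) ∧ ∃ l, q ^ (s * n) = P.absNorm ^ (n * l) := by
  obtain ⟨l, hl, hql⟩ := h.pow
  have hpow : q ^ (s * n) = P.absNorm ^ (n * l) := by
    rw [pow_mul, hql, ← pow_mul, mul_comm]
  have h1 : ∀ i, rd P (Fit F s i) = X i ^ (q ^ s) := by
    intro i
    have h2 := (rd_eq_iff (P := P)).mpr (h.red i)
    rw [h2, map_pow]
    congr 1
    exact map_X _ _
  have h2 : ∀ n i, rd P (Fit F (s * n) i) = X i ^ (q ^ (s * n)) := by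
    intro n
    induction n with
    | zero =>
      intro i
      rw [Nat.mul_zero, pow_zero, pow_one]
      exact map_X _ _
    | succ n ih =>
      intro i
      rw [Nat.mul_succ, Fit_add]
      have h3 : rd P (bind₁ (Fit F s) (Fit F (s * n) i)) =
          bind₁ (fun k => rd P (Fit F s k)) (rd P (Fit F (s * n) i)) := map_bind₁ _ _ _
      rw [h3, ih i, map_pow, bind₁_X_right, h1 i, ← pow_mul, pow_add, mul_comm]
  refine ⟨⟨Fit_hom hF _, ⟨n * l, Nat.mul_pos hn hl, hpow⟩, fun i => ?_⟩, l, hpow⟩
  rw [← rd_eq_iff, h2 n i, map_pow]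
  congr 1
  exact (map_X _ _).symm

end FitMul

section Core

variable {K K' L M E : Type*} [Field K] [NumberField K] [Field K'] [NumberField K'] [Field L]
  [NumberField L] [Field M] [NumberField M] [Algebra K K'] [Algebra K L] [Algebra K M]
  [Algebra K' M] [Algebra L M] [IsScalarTower K K' M] [IsScalarTower K L M]
  [Field E] [NumberField E] [Algebra K E] [Algebra E M] [Algebra E L] [IsScalarTower K E M]
  [IsScalarTower E L M] [IsGalois K E] [IsGalois K' M]

variable {b : 𝓞 K'} {G : Fin 2 → MvPolynomial (Fin 2) K'}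
  {Gi : Fin 2 → MvPolynomial (Fin 2) (𝓞 K')}

variable {F : Fin 2 → MvPolynomial (Fin 2) K} {A : Matrix (Fin 2) (Fin 2) K'}

variable (M) in
include M in
/-- the bound over a field containing all the data -/
lemma core_rel (hA : A.det ≠ 0) (hconj : Conj A F G) {q s : ℕ} (hq : 2 ≤ q)
    (hGhom : ∀ i, (G i).IsHomogeneous q) (hb : b ≠ 0)
    (hGi : ∀ i, MvPolynomial.map (algebraMap (𝓞 K') K') (Gi i) = C (b : K') * G i)
    (hGihom : ∀ i, (Gi i).IsHomogeneous q) (hs : 1 ≤ s) {P : Ideal (𝓞 K')} [P.IsMaximal]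
    (hP0 : P ≠ ⊥) (hgood : Good P (Fit Gi s) (q ^ s)) {e B n k : ℕ} (he : 1 ≤ e) (hB : 1 ≤ B)
    (hk : q ^ s = P.absNorm ^ (n * k)) (hE : FewConj (P.under (𝓞 K)) E B n)
    (hE' : RamLe (P.under (𝓞 K)) E e) {x : Fin 2 → L} (hx : x ≠ 0)
    (hwand : ¬ ∃ m n : ℕ, m ≠ n ∧ ∃ c : L, c ≠ 0 ∧ (act F)^[n] x = c • (act F)^[m] x) :
    ∃ h : ℝ, Tendsto (fun n : ℕ => Height.logHeight ((act F)^[n] x) /
        ((finrank ℚ L : ℝ) * (q : ℝ) ^ n)) atTop (𝓝 h) ∧
      Real.exp (-(k1 P (Fit Gi s) (q ^ s) B * Real.sqrt (1 + Real.log (finrank E L)))) /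
        (k2 P (Fit Gi s) (q ^ s) B * e * finrank E L) ≤ h := by
  set AM := A.map (algebraMap K' M) with hAM
  have hAM0 : AM.det ≠ 0 := by
    have h1 : AM.det = algebraMap K' M A.det := by
      rw [RingHom.map_det]
      rfl
    rw [h1, Ne, FaithfulSMul.algebraMap_eq_zero_iff]
    exact hA
  set z : Fin 2 → M := fun i => algebraMap L M (x i) with hz
  have hz0 : z ≠ 0 := by
    intro h
    apply hx
    funext i
    have := congrFun h i
    simp only [hz, Pi.zero_apply, FaithfulSMul.algebraMap_eq_zero_iff] at this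
    exact this
  set u := lin AM z with hu
  have hu0 : u ≠ 0 := lin_ne_zero hAM0 hz0
  -- nonvanishing
  have hact0 : ∀ y : Fin 2 → M, y ≠ 0 → act Gi y ≠ 0 := by
    intro y hy h0
    have h1 := hgood.act_ne_zero hP0 hy
    rw [act_Fit] at h1
    apply h1
    obtain ⟨s', rfl⟩ : ∃ s', s = s' + 1 := ⟨s - 1, by omega⟩
    rw [Function.iterate_succ_apply, h0]
    have h2 : act Gi (0 : Fin 2 → M) = 0 := by
      have := act_smul hGihom (0 : M) (0 : Fin 2 → M)
      rwa [zero_smul, zero_pow (by omega), zero_smul] at this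
    clear h1 hs hgood hk
    induction s' with
    | zero => rfl
    | succ s' ih => rw [Function.iterate_succ_apply', ih, h2]
  have hiter0 : ∀ n, (act Gi)^[n] u ≠ 0 := by
    intro n
    induction n with
    | zero => exact hu0
    | succ n ih =>
      rw [Function.iterate_succ_apply']
      exact hact0 _ ih
  -- comparison of the orbits
  have hcomp : ∀ n, ∃ c : M, c ≠ 0 ∧ (act Gi)^[n] u =
      c • lin AM (fun i => algebraMap L M ((act F)^[n] x i)) := by
    intro n
    obtain ⟨c, hc, hc'⟩ := act_int_iter hb hGi hGhom u n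
    refine ⟨c, hc, ?_⟩
    rw [hc', hu, hconj.act_iter, hz, act_iter_base]
  obtain ⟨CA, hCA⟩ := exists_lin_bound hAM0
  have hn := nQ_pos L
  have hnM := nQ_pos M
  have hLM : (0 : ℝ) < finrank L M := by exact_mod_cast (finrank_pos : 0 < finrank L M)
  have hQM : (finrank ℚ M : ℝ) = finrank ℚ L * finrank L M := by
    exact_mod_cast (finrank_mul_finrank ℚ L M).symm
  set a : ℕ → ℝ := fun n => Height.logHeight ((act F)^[n] x) / finrank ℚ L with ha
  set a' : ℕ → ℝ := fun n => Height.logHeight ((act Gi)^[n] u) / finrank ℚ M with ha'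
  have haa : ∀ n, |a' n - a n| ≤ |CA| / finrank ℚ M := by
    intro n
    obtain ⟨c, hc, hc'⟩ := hcomp n
    have h1 : a n = Height.logHeight (fun i => algebraMap L M ((act F)^[n] x i)) /
        finrank ℚ M := by
      simp only [ha]
      rw [Helper259.HtExt.logHeight_ext, hQM]
      field_simp
    have h2 : a' n = Height.logHeight (lin AM (fun i => algebraMap L M ((act F)^[n] x i))) /
        finrank ℚ M := by
      simp only [ha']
      rw [hc', Height.logHeight_smul_eq_logHeight _ hc]
    rw [h1, h2, ← sub_div, abs_div, abs_of_pos hnM]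
    apply div_le_div_of_nonneg_right _ hnM.le
    exact (hCA _).trans (le_abs_self _)
  -- limits
  have hq' : (2 : ℝ) ≤ q := by exact_mod_cast hq
  have hcup := one_le_cup Gi q
  have hlim : Tendsto (fun n => a' n / (q : ℝ) ^ n) atTop (𝓝 (hh (Fit Gi s) (q ^ s) u)) := by
    refine tendsto_of_sub (C := Real.log (cup Gi q)) hq' (Real.log_nonneg hcup) hs ?_ ?_ ?_
    · intro n
      exact div_nonneg (Height.logHeight_nonneg _) hnM.le
    · intro n
      have h1 := height_upper' hGihom (hiter0 n) (hact0 _ (hiter0 n))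
      rw [← Function.iterate_succ_apply' (act Gi) n u] at h1
      simp only [ha']
      rw [div_le_iff₀ hnM]
      have h2 : ((q : ℝ) * (Height.logHeight ((act Gi)^[n] u) / finrank ℚ M) +
          Real.log (cup Gi q)) * finrank ℚ M =
          q * Height.logHeight ((act Gi)^[n] u) + finrank ℚ M * Real.log (cup Gi q) := by
        field_simp
      rw [h2]
      exact h1
    · refine (hgood.tendsto_hh hP0 hu0).congr fun n => ?_
      simp only [ha']
      rw [act_Fit_iter, div_div]
      push_cast
      rw [pow_mul]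
  have hlim2 : Tendsto (fun n => a n / (q : ℝ) ^ n) atTop (𝓝 (hh (Fit Gi s) (q ^ s) u)) := by
    have h1 : Tendsto (fun n : ℕ => (|CA| / finrank ℚ M) / (q : ℝ) ^ n) atTop (𝓝 0) := by
      have h3 : Tendsto (fun n : ℕ => (q : ℝ) ^ n) atTop atTop :=
        tendsto_pow_atTop_atTop_of_one_lt (by linarith)
      exact h3.const_div_atTop _
    have h2 : Tendsto (fun n => a' n / (q : ℝ) ^ n - a n / (q : ℝ) ^ n) atTop (𝓝 0) := by
      refine squeeze_zero_norm (fun n => ?_) h1
      rw [← sub_div, Real.norm_eq_abs, abs_div, abs_of_pos (by positivity : (0 : ℝ) < (q : ℝ) ^ n)]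
      exact div_le_div_of_nonneg_right (haa n) (by positivity)
    have h3 := hlim.sub h2
    rw [sub_zero] at h3
    refine h3.congr fun n => ?_
    ring
  refine ⟨hh (Fit Gi s) (q ^ s) u, ?_, ?_⟩
  · refine hlim2.congr fun n => ?_
    simp only [ha]
    rw [div_div]
  · -- the point is wandering
    have hFiter : ∀ n, (act F)^[n] x ≠ 0 := by
      intro n h0
      obtain ⟨c, hc, hc'⟩ := hcomp n
      apply hiter0 n
      rw [hc', h0]
      funext i
      simp [lin]
    have hw : Wand (Fit Gi s) (pt u) := by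
      intro a b hab
      by_contra hne
      simp only at hab
      have hphi : ∀ n, (phi (Fit Gi s))^[n] (pt u) = pt ((act Gi)^[s * n] u) := by
        intro n
        induction n with
        | zero => rfl
        | succ n ih =>
          rw [Function.iterate_succ_apply', ih, phi_pt hgood.hom (hiter0 _), act_Fit,
            ← Function.iterate_add_apply, Nat.mul_succ, Nat.add_comm]
      rw [hphi, hphi, pt_eq_iff (hiter0 _) (hiter0 _)] at hab
      obtain ⟨c, hc, hc'⟩ := hcomp (s * a)
      obtain ⟨d, hd, hd'⟩ := hcomp (s * b)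
      rw [hc', hd', wdg_smul_left, wdg_smul_right, wdg_lin] at hab
      have h1 : wdg (fun i => algebraMap L M ((act F)^[s * a] x i))
          (fun i => algebraMap L M ((act F)^[s * b] x i)) = 0 := by
        rcases mul_eq_zero.mp hab with h | h
        · exact absurd h hc
        · rcases mul_eq_zero.mp h with h | h
          · exact absurd h hd
          · rcases mul_eq_zero.mp h with h | h
            · exact absurd h hAM0
            · exact h
      have h2 : wdg ((act F)^[s * a] x) ((act F)^[s * b] x) = 0 := by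
        have h3 : algebraMap L M (wdg ((act F)^[s * a] x) ((act F)^[s * b] x)) = 0 := by
          rw [← h1]
          simp [wdg]
        exact (FaithfulSMul.algebraMap_eq_zero_iff L M).mp h3
      obtain ⟨e, he, he'⟩ := wdg_eq_zero (hFiter _) (hFiter _) h2
      apply hwand
      refine ⟨s * b, s * a, ?_, e, he, he'⟩
      intro h3
      exact hne (Nat.eq_of_mul_eq_mul_left (by omega) h3).symm
    obtain ⟨θ, hr⟩ := exists_rel (M := M) hgood hP0 he hB hE hE' hk
    have h1 := main_galH hgood hP0 hr hw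
    rw [hgood.hh_pt hu0] at h1
    have h2 : (dgH (fixE K K' M E) (pt u) : ℝ) ≤ finrank E L := by
      exact_mod_cast dgH_lin_le (K := K) (E := E) A x
    have h3 : (1 : ℝ) ≤ dgH (fixE K K' M E) (pt u) := by exact_mod_cast dgH_pos (pt u)
    have h4 : 0 ≤ hh (Fit Gi s) (q ^ s) u := by
      rw [← hgood.hh_pt hu0]
      exact hgood.hp_nonneg hP0 (pt u)
    have hB' : (1 : ℝ) ≤ B := by exact_mod_cast hB
    have he' : (1 : ℝ) ≤ e := by exact_mod_cast he
    have hc1 := k1_pos hgood hP0 hB'
    have hc2 := k2_pos hgood hP0 hB'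
    have hnn : (0 : ℝ) < finrank E L := by linarith
    set D : ℝ := (dgH (fixE K K' M E) (pt u) : ℝ) with hDdef
    have h5 : Real.exp (-(k1 P (Fit Gi s) (q ^ s) B * Real.sqrt (1 + Real.log (finrank E L)))) /
        (k2 P (Fit Gi s) (q ^ s) B * e) ≤ finrank E L * hh (Fit Gi s) (q ^ s) u := by
      calc Real.exp (-(k1 P (Fit Gi s) (q ^ s) B * Real.sqrt (1 + Real.log (finrank E L)))) /
          (k2 P (Fit Gi s) (q ^ s) B * e) ≤
          Real.exp (-(k1 P (Fit Gi s) (q ^ s) B * Real.sqrt (1 + Real.log D))) /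
            (k2 P (Fit Gi s) (q ^ s) B * e) := by
            gcongr
        _ ≤ D * hh (Fit Gi s) (q ^ s) u := h1
        _ ≤ finrank E L * hh (Fit Gi s) (q ^ s) u := by gcongr
    rw [← div_div, div_le_iff₀ hnn, mul_comm (hh (Fit Gi s) (q ^ s) u)]
    exact h5
end Core

end

end Pool.Agent.Y740.RL
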