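import Mathlib
import Pool.Agent.Y740.RL.TopH

/-!
Elliptic curves on which the multiplication by `p` has potentially good, purely inseparable
reduction.
-/

set_option autoImplicit false

namespace Pool.Agent.Y740.RL

open NumberField Module MvPolynomial Filter Topology Pool.Agent.H420R3
open scoped Pointwise

noncomputable section

section Points

variable {L : Type*} [Field L] {W : WeierstrassCurve.Affine L}

/-- the coordinate vector of the image of a point on the projective line -/
def xc : W.Point → Fin 2 → L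
  | .zero => ![1, 0]
  | .some x _ _ => ![x, 1]

lemma xc_ne_zero (P : W.Point) : xc P ≠ 0 := by
  cases P with
  | zero =>
    intro h
    have := congrFun h 0
    simp [xc] at this
  | some x y hP =>
    intro h
    have := congrFun h 1
    simp [xc] at this

lemma eq_or_neg_of_xc {P Q : W.Point} {c : L} (hc : c ≠ 0) (h : xc P = c • xc Q) :
    P = Q ∨ P = -Q := by
  cases P with
  | zero =>
    cases Q with
    | zero => exact Or.inl rfl
    | some x y hQ =>
      have := congrFun h 1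
      simp [xc] at this
      exact absurd this.symm hc
  | some x y hP =>
    cases Q with
    | zero =>
      have := congrFun h 1
      simp [xc] at this
    | some x' y' hQ =>
      have h1 := congrFun h 1
      have h0 := congrFun h 0
      simp [xc] at h1 h0
      rw [← h1, one_mul] at h0
      exact WeierstrassCurve.Affine.Point.X_eq_iff.mp h0

variable [DecidableEq L]

lemma fin_order_of_eq {P : W.Point} {p m n : ℕ} (hp : 2 ≤ p) (hmn : m ≠ n)
    (h : p ^ n • P = p ^ m • P ∨ p ^ n • P = -(p ^ m • P)) : IsOfFinAddOrder P := by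
  rw [isOfFinAddOrder_iff_zsmul_eq_zero]
  have hne : p ^ n ≠ p ^ m := fun h => hmn (Nat.pow_right_injective hp h).symm
  have hpos : 0 < p ^ n := by positivity
  have hpos' : 0 < p ^ m := by positivity
  rcases h with h | h
  · refine ⟨((p ^ n : ℕ) : ℤ) - ((p ^ m : ℕ) : ℤ), ?_, ?_⟩
    · intro h0
      apply hne
      exact_mod_cast sub_eq_zero.mp h0
    · rw [sub_zsmul, natCast_zsmul, natCast_zsmul, h, add_neg_cancel]
  · refine ⟨((p ^ n : ℕ) : ℤ) + ((p ^ m : ℕ) : ℤ), ?_, ?_⟩
    · have : (0 : ℤ) < ((p ^ n : ℕ) : ℤ) + ((p ^ m : ℕ) : ℤ) := by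
        exact_mod_cast Nat.add_pos_left hpos _
      exact this.ne'
    · rw [add_zsmul, natCast_zsmul, natCast_zsmul, h, neg_add_cancel]

lemma iter_xc {K : Type*} [Field K] [Algebra K L] {F : Fin 2 → MvPolynomial (Fin 2) K} {q p : ℕ}
    (hF : ∀ i, (F i).IsHomogeneous q)
    (hmul : ∀ P : W.Point, ∃ c : L, c ≠ 0 ∧ act F (xc P) = c • xc (p • P)) (P : W.Point)
    (n : ℕ) : ∃ c : L, c ≠ 0 ∧ (act F)^[n] (xc P) = c • xc (p ^ n • P) := by
  induction n with
  | zero => exact ⟨1, one_ne_zero, by simp⟩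
  | succ n ih =>
    obtain ⟨c, hc, hc'⟩ := ih
    obtain ⟨d, hd, hd'⟩ := hmul (p ^ n • P)
    refine ⟨c ^ q * d, mul_ne_zero (pow_ne_zero _ hc) hd, ?_⟩
    rw [Function.iterate_succ_apply', hc', act_smul hF, hd', smul_smul, smul_smul, ← pow_succ']

lemma wandering_xc {K : Type*} [Field K] [Algebra K L] {F : Fin 2 → MvPolynomial (Fin 2) K}
    {q p : ℕ} (hp : 2 ≤ p) (hF : ∀ i, (F i).IsHomogeneous q)
    (hmul : ∀ P : W.Point, ∃ c : L, c ≠ 0 ∧ act F (xc P) = c • xc (p • P)) {P : W.Point}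
    (hP : ¬ IsOfFinAddOrder P) :
    ¬ ∃ m n : ℕ, m ≠ n ∧ ∃ c : L, c ≠ 0 ∧ (act F)^[n] (xc P) = c • (act F)^[m] (xc P) := by
  rintro ⟨m, n, hmn, c, hc, h⟩
  obtain ⟨a, ha, ha'⟩ := iter_xc hF hmul P n
  obtain ⟨b, hb, hb'⟩ := iter_xc hF hmul P m
  rw [ha', hb', smul_smul] at h
  apply hP
  refine fin_order_of_eq hp hmn (eq_or_neg_of_xc (c := a⁻¹ * (c * b)) ?_ ?_)
  · exact mul_ne_zero (inv_ne_zero ha) (mul_ne_zero hc hb)
  · rw [← smul_smul, ← h, smul_smul, inv_mul_cancel₀ ha, one_smul]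

end Points

end

end Pool.Agent.Y740.RL
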