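import Mathlib
import Pool.Agent.Y740.RL.FrobH

/-!
Periodic points: they are determined by their residue discs, and the twist acts on them as the
inverse of the map.
-/

set_option autoImplicit false
set_option linter.unusedSectionVars false

namespace Pool.Agent.Y740.RL

open NumberField Module MvPolynomial IsDedekindDomain Pool.Agent.H420R3
open scoped Pointwise

noncomputable section

variable {K : Type*} [Field K] [NumberField K]
variable {M : Type*} [Field M] [NumberField M] [Algebra K M]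
variable {F : Fin 2 → MvPolynomial (Fin 2) (𝓞 K)}
variable {P : Ideal (𝓞 K)} [hP : P.IsMaximal] {q : ℕ}

/-- periodic points -/
def Per (F : Fin 2 → MvPolynomial (Fin 2) (𝓞 K)) (x : Option M) : Prop :=
  ∃ n, 1 ≤ n ∧ (phi F)^[n] x = x

lemma Per.iter_mul {x : Option M} {n : ℕ} (h : (phi F)^[n] x = x) (m : ℕ) :
    (phi F)^[n * m] x = x := by
  rw [Function.iterate_mul]
  exact Function.iterate_fixed h m

lemma Per.phi {x : Option M} (h : Per F x) : Per F (H420R3.phi F x) := by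
  obtain ⟨n, hn, hx⟩ := h
  refine ⟨n, hn, ?_⟩
  rw [← Function.iterate_succ_apply, Function.iterate_succ_apply', hx]

lemma phi_smul' (g : Gal(M/K)) (x : Option M) : H420R3.phi F (g • x) = g • H420R3.phi F x := by
  have := phi_iter_smul F g x 1
  exact this

lemma Per.smul {x : Option M} (h : Per F x) (g : Gal(M/K)) : Per F (g • x) := by
  obtain ⟨n, hn, hx⟩ := h
  refine ⟨n, hn, ?_⟩
  rw [phi_iter_smul, hx]

lemma per_eq {v : FinitePlace M} {ρ : ℝ} (hR : Red v F q ρ) {x y : Option M} (hx : Per F x)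
    (hy : Per F y) (hd : dv v x y < 1) : x = y := by
  by_contra hne
  obtain ⟨a, ha, hxa⟩ := hx
  obtain ⟨b, hb, hyb⟩ := hy
  have h1 : (H420R3.phi F)^[a * b] x = x := Per.iter_mul hxa b
  have h2 : (H420R3.phi F)^[a * b] y = y := by
    rw [mul_comm]
    exact Per.iter_mul hyb a
  have hab : 1 ≤ a * b := Nat.mul_pos ha hb
  obtain ⟨n, hn⟩ : ∃ n, a * b = n + 1 := ⟨a * b - 1, by omega⟩
  rw [hn, Function.iterate_succ_apply] at h1 h2
  have h3 := hR.dv_iter_le (H420R3.phi F x) (H420R3.phi F y) n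
  rw [h1, h2] at h3
  have h4 := hR.dv_phi_lt hd hne
  linarith

variable [IsGalois K M]

/-- the choice of the twist, with its action on the periodic points -/
lemma exists_theta_per (h : Good P F q) (hP0 : P ≠ ⊥) {H : Subgroup Gal(M/K)} {Γ : Type*}
    [Group Γ] [Finite Γ] (ρ : Gal(M/K) →* Γ)
    (hρ : ∀ g : Gal(M/K), ρ g = 1 → (∀ x : Option M, Per F x → g • x = x) → g ∈ H)
    {n k B : ℕ} (hk : q = P.absNorm ^ (n * k))
    (hB : ∀ v ∈ TP M P, ∀ σ : Gal(M/K), σ • mi v = mi v →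
      (∀ x : 𝓞 M, σ • x - x ^ P.absNorm ∈ mi v) →
      (Set.range fun g : Γ => g * (ρ σ) ^ n * g⁻¹).ncard ≤ B) :
    ∃ θ : Gal(M/K), ∃ T ⊆ TP M P, ∑ v ∈ TP M P, ew K v ≤ B * ∑ v ∈ T, ew K v ∧
      ∀ v ∈ T, ∃ τ : Gal(M/K), τ • mi v = mi v ∧
        (∀ p : Option M, dv v (phi F p) (τ • p) < 1) ∧ τ * θ ∈ H := by
  classical
  obtain ⟨v₀, hv₀⟩ := TP_nonempty (M := M) hP0
  obtain ⟨σ, hσ, hσ'⟩ := exists_frob (K := K) hP0 hv₀ 1
  rw [pow_one] at hσ'
  have hcard := hB v₀ hv₀ σ hσ hσ'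
  obtain ⟨hτ, hτ'⟩ := frob_pow hσ hσ' (n * k)
  rw [← hk] at hτ'
  set τ₀ := σ ^ (n * k) with hτ₀
  have hlo₀ := liesOver_of_mem hP0 hv₀
  have hex : ∀ v : FinitePlace M, ∃ g : Gal(M/K), v ∈ TP M P → g • mi v₀ = mi v := by
    intro v
    by_cases hv : v ∈ TP M P
    · have hlo := liesOver_of_mem hP0 hv
      obtain ⟨g, hg⟩ := Ideal.exists_smul_eq_of_isGaloisGroup P (mi v₀) (mi v) Gal(M/K)
      exact ⟨g, fun _ => hg⟩
    · exact ⟨1, fun hv' => absurd hv' hv⟩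
  choose g hg using hex
  have hcard2 : ((fun v => ρ (g v * τ₀ * (g v)⁻¹)) '' (TP M P : Set (FinitePlace M))).ncard ≤
      B := by
    refine le_trans ?_ hcard
    have h1 : ((fun v => ρ (g v * τ₀ * (g v)⁻¹)) '' (TP M P : Set (FinitePlace M))) ⊆
        (fun γ : Γ => γ ^ k) '' (Set.range fun g : Γ => g * (ρ σ) ^ n * g⁻¹) := by
      rintro _ ⟨v, -, rfl⟩
      refine ⟨ρ (g v) * (ρ σ) ^ n * (ρ (g v))⁻¹, ⟨ρ (g v), rfl⟩, ?_⟩
      simp only
      rw [conj_pow, ← pow_mul, hτ₀, map_mul, map_mul, map_pow, map_inv]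
    refine (Set.ncard_le_ncard h1 (Set.toFinite _)).trans ?_
    exact Set.ncard_image_le (Set.toFinite _)
  obtain ⟨b, hb, T, hT, hTw, hTc⟩ := pigeon (TP M P) (fun v => ρ (g v * τ₀ * (g v)⁻¹))
    (fun v => ew K v) (fun v _ => ew_pos v) ⟨v₀, hv₀⟩ B hcard2
  -- action on the periodic points
  have hact : ∀ v ∈ TP M P, ∀ x : Option M, Per F x →
      (g v * τ₀ * (g v)⁻¹) • x = H420R3.phi F x := by
    intro v hv x hx
    obtain ⟨h1, h2⟩ := frob_conj (hg v hv) hτ hτ'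
    exact (per_eq (h.red_at hP0 hv) hx.phi (hx.smul _) (frob_of_ring h hP0 hv h1 h2 x)).symm
  refine ⟨(g b * τ₀ * (g b)⁻¹)⁻¹, T, hT, hTw, fun v hv => ?_⟩
  obtain ⟨h1, h2⟩ := frob_conj (hg v (hT hv)) hτ hτ'
  refine ⟨g v * τ₀ * (g v)⁻¹, h1, frob_of_ring h hP0 (hT hv) h1 h2, hρ _ ?_ ?_⟩
  · have h3 : ρ (g v * τ₀ * (g v)⁻¹) = ρ (g b * τ₀ * (g b)⁻¹) := hTc v hv
    rw [map_mul, h3, map_inv, mul_inv_cancel]
  · intro x hx
    rw [mul_smul, hact v (hT hv) _ (hx.smul _)]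
    have h4 := hact b hb _ (hx.smul (g b * τ₀ * (g b)⁻¹)⁻¹)
    rw [smul_inv_smul] at h4
    exact h4.symm

end

end Pool.Agent.Y740.RL
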