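import Mathlib
import Pool.Agent.Y740.RL.CoreH
import Pool.Agent.Y740.RL.FrobP

/-!
The relative bound over fields generated by periodic points.
-/

set_option autoImplicit false
set_option linter.unusedSectionVars false

namespace Pool.Agent.Y740.RL

open NumberField Module MvPolynomial IsDedekindDomain Filter Topology Pool.Agent.H420R3
open scoped Pointwise

noncomputable section

section Core0

variable {K K' L M E : Type*} [Field K] [NumberField K] [Field K'] [NumberField K'] [Field L]
  [NumberField L] [Field M] [NumberField M] [Algebra K K'] [Algebra K L] [Algebra K M]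
  [Algebra K' M] [Algebra L M] [IsScalarTower K K' M] [IsScalarTower K L M]
  [Field E] [NumberField E] [Algebra K E] [Algebra E M] [Algebra E L] [IsScalarTower K E M]
  [IsScalarTower E L M] [IsGalois K E] [IsGalois K' M]

variable {b : 𝓞 K'} {G : Fin 2 → MvPolynomial (Fin 2) K'}
  {Gi : Fin 2 → MvPolynomial (Fin 2) (𝓞 K')}

variable {F : Fin 2 → MvPolynomial (Fin 2) K} {A : Matrix (Fin 2) (Fin 2) K'}

variable (M) in
include M in
/-- the bound over a field containing all the data -/
lemma core_rel0 (hA : A.det ≠ 0) (hconj : Conj A F G) {q s : ℕ} (hq : 2 ≤ q)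
    (hGhom : ∀ i, (G i).IsHomogeneous q) (hb : b ≠ 0)
    (hGi : ∀ i, MvPolynomial.map (algebraMap (𝓞 K') K') (Gi i) = C (b : K') * G i)
    (hGihom : ∀ i, (Gi i).IsHomogeneous q) (hs : 1 ≤ s) {P : Ideal (𝓞 K')} [P.IsMaximal]
    (hP0 : P ≠ ⊥) (hgood : Good P (Fit Gi s) (q ^ s)) {e B : ℕ} (he : 1 ≤ e) (hB : 1 ≤ B)
    (hrel : ∃ θ : Gal(M/K'), Rel (Fit Gi s) (fixE K K' M E) P θ e B) {x : Fin 2 → L} (hx : x ≠ 0)
    (hwand : ¬ ∃ m n : ℕ, m ≠ n ∧ ∃ c : L, c ≠ 0 ∧ (act F)^[n] x = c • (act F)^[m] x) :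
    ∃ h : ℝ, Tendsto (fun n : ℕ => Height.logHeight ((act F)^[n] x) /
        ((finrank ℚ L : ℝ) * (q : ℝ) ^ n)) atTop (𝓝 h) ∧
      Real.exp (-(k1 P (Fit Gi s) (q ^ s) B * Real.sqrt (1 + Real.log (finrank E L)))) /
        (k2 P (Fit Gi s) (q ^ s) B * e * finrank E L) ≤ h := by
  set AM := A.map (algebraMap K' M) with hAM
  have hAM0 : AM.det ≠ 0 := by
    have h1 : AM.det = algebraMap K' M A.det := by
      rw [RingHom.map_det]
      rfl
    rw [h1, Ne, FaithfulSMul.algebraMap_eq_zero_iff]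
    exact hA
  set z : Fin 2 → M := fun i => algebraMap L M (x i) with hz
  have hz0 : z ≠ 0 := by
    intro h
    apply hx
    funext i
    have := congrFun h i
    simp only [hz, Pi.zero_apply, FaithfulSMul.algebraMap_eq_zero_iff] at this
    exact this
  set u := lin AM z with hu
  have hu0 : u ≠ 0 := lin_ne_zero hAM0 hz0
  -- nonvanishing
  have hact0 : ∀ y : Fin 2 → M, y ≠ 0 → act Gi y ≠ 0 := by
    intro y hy h0
    have h1 := hgood.act_ne_zero hP0 hy
    rw [act_Fit] at h1
    apply h1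
    obtain ⟨s', rfl⟩ : ∃ s', s = s' + 1 := ⟨s - 1, by omega⟩
    rw [Function.iterate_succ_apply, h0]
    have h2 : act Gi (0 : Fin 2 → M) = 0 := by
      have := act_smul hGihom (0 : M) (0 : Fin 2 → M)
      rwa [zero_smul, zero_pow (by omega), zero_smul] at this
    clear h1 hs hgood hrel
    induction s' with
    | zero => rfl
    | succ s' ih => rw [Function.iterate_succ_apply', ih, h2]
  have hiter0 : ∀ n, (act Gi)^[n] u ≠ 0 := by
    intro n
    induction n with
    | zero => exact hu0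
    | succ n ih =>
      rw [Function.iterate_succ_apply']
      exact hact0 _ ih
  -- comparison of the orbits
  have hcomp : ∀ n, ∃ c : M, c ≠ 0 ∧ (act Gi)^[n] u =
      c • lin AM (fun i => algebraMap L M ((act F)^[n] x i)) := by
    intro n
    obtain ⟨c, hc, hc'⟩ := act_int_iter hb hGi hGhom u n
    refine ⟨c, hc, ?_⟩
    rw [hc', hu, hconj.act_iter, hz, act_iter_base]
  obtain ⟨CA, hCA⟩ := exists_lin_bound hAM0
  have hn := nQ_pos L
  have hnM := nQ_pos M
  have hLM : (0 : ℝ) < finrank L M := by exact_mod_cast (finrank_pos : 0 < finrank L M)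
  have hQM : (finrank ℚ M : ℝ) = finrank ℚ L * finrank L M := by
    exact_mod_cast (finrank_mul_finrank ℚ L M).symm
  set a : ℕ → ℝ := fun n => Height.logHeight ((act F)^[n] x) / finrank ℚ L with ha
  set a' : ℕ → ℝ := fun n => Height.logHeight ((act Gi)^[n] u) / finrank ℚ M with ha'
  have haa : ∀ n, |a' n - a n| ≤ |CA| / finrank ℚ M := by
    intro n
    obtain ⟨c, hc, hc'⟩ := hcomp n
    have h1 : a n = Height.logHeight (fun i => algebraMap L M ((act F)^[n] x i)) /
        finrank ℚ M := by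
      simp only [ha]
      rw [Helper259.HtExt.logHeight_ext, hQM]
      field_simp
    have h2 : a' n = Height.logHeight (lin AM (fun i => algebraMap L M ((act F)^[n] x i))) /
        finrank ℚ M := by
      simp only [ha']
      rw [hc', Height.logHeight_smul_eq_logHeight _ hc]
    rw [h1, h2, ← sub_div, abs_div, abs_of_pos hnM]
    apply div_le_div_of_nonneg_right _ hnM.le
    exact (hCA _).trans (le_abs_self _)
  -- limits
  have hq' : (2 : ℝ) ≤ q := by exact_mod_cast hq
  have hcup := one_le_cup Gi q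
  have hlim : Tendsto (fun n => a' n / (q : ℝ) ^ n) atTop (𝓝 (hh (Fit Gi s) (q ^ s) u)) := by
    refine tendsto_of_sub (C := Real.log (cup Gi q)) hq' (Real.log_nonneg hcup) hs ?_ ?_ ?_
    · intro n
      exact div_nonneg (Height.logHeight_nonneg _) hnM.le
    · intro n
      have h1 := height_upper' hGihom (hiter0 n) (hact0 _ (hiter0 n))
      rw [← Function.iterate_succ_apply' (act Gi) n u] at h1
      simp only [ha']
      rw [div_le_iff₀ hnM]
      have h2 : ((q : ℝ) * (Height.logHeight ((act Gi)^[n] u) / finrank ℚ M) +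
          Real.log (cup Gi q)) * finrank ℚ M =
          q * Height.logHeight ((act Gi)^[n] u) + finrank ℚ M * Real.log (cup Gi q) := by
        field_simp
      rw [h2]
      exact h1
    · refine (hgood.tendsto_hh hP0 hu0).congr fun n => ?_
      simp only [ha']
      rw [act_Fit_iter, div_div]
      push_cast
      rw [pow_mul]
  have hlim2 : Tendsto (fun n => a n / (q : ℝ) ^ n) atTop (𝓝 (hh (Fit Gi s) (q ^ s) u)) := by
    have h1 : Tendsto (fun n : ℕ => (|CA| / finrank ℚ M) / (q : ℝ) ^ n) atTop (𝓝 0) := by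
      have h3 : Tendsto (fun n : ℕ => (q : ℝ) ^ n) atTop atTop :=
        tendsto_pow_atTop_atTop_of_one_lt (by linarith)
      exact h3.const_div_atTop _
    have h2 : Tendsto (fun n => a' n / (q : ℝ) ^ n - a n / (q : ℝ) ^ n) atTop (𝓝 0) := by
      refine squeeze_zero_norm (fun n => ?_) h1
      rw [← sub_div, Real.norm_eq_abs, abs_div, abs_of_pos (by positivity : (0 : ℝ) < (q : ℝ) ^ n)]
      exact div_le_div_of_nonneg_right (haa n) (by positivity)
    have h3 := hlim.sub h2
    rw [sub_zero] at h3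
    refine h3.congr fun n => ?_
    ring
  refine ⟨hh (Fit Gi s) (q ^ s) u, ?_, ?_⟩
  · refine hlim2.congr fun n => ?_
    simp only [ha]
    rw [div_div]
  · -- the point is wandering
    have hFiter : ∀ n, (act F)^[n] x ≠ 0 := by
      intro n h0
      obtain ⟨c, hc, hc'⟩ := hcomp n
      apply hiter0 n
      rw [hc', h0]
      funext i
      simp [lin]
    have hw : Wand (Fit Gi s) (pt u) := by
      intro a b hab
      by_contra hne
      simp only at hab
      have hphi : ∀ n, (phi (Fit Gi s))^[n] (pt u) = pt ((act Gi)^[s * n] u) := by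
        intro n
        induction n with
        | zero => rfl
        | succ n ih =>
          rw [Function.iterate_succ_apply', ih, phi_pt hgood.hom (hiter0 _), act_Fit,
            ← Function.iterate_add_apply, Nat.mul_succ, Nat.add_comm]
      rw [hphi, hphi, pt_eq_iff (hiter0 _) (hiter0 _)] at hab
      obtain ⟨c, hc, hc'⟩ := hcomp (s * a)
      obtain ⟨d, hd, hd'⟩ := hcomp (s * b)
      rw [hc', hd', wdg_smul_left, wdg_smul_right, wdg_lin] at hab
      have h1 : wdg (fun i => algebraMap L M ((act F)^[s * a] x i))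
          (fun i => algebraMap L M ((act F)^[s * b] x i)) = 0 := by
        rcases mul_eq_zero.mp hab with h | h
        · exact absurd h hc
        · rcases mul_eq_zero.mp h with h | h
          · exact absurd h hd
          · rcases mul_eq_zero.mp h with h | h
            · exact absurd h hAM0
            · exact h
      have h2 : wdg ((act F)^[s * a] x) ((act F)^[s * b] x) = 0 := by
        have h3 : algebraMap L M (wdg ((act F)^[s * a] x) ((act F)^[s * b] x)) = 0 := by
          rw [← h1]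
          simp [wdg]
        exact (FaithfulSMul.algebraMap_eq_zero_iff L M).mp h3
      obtain ⟨e, he, he'⟩ := wdg_eq_zero (hFiter _) (hFiter _) h2
      apply hwand
      refine ⟨s * b, s * a, ?_, e, he, he'⟩
      intro h3
      exact hne (Nat.eq_of_mul_eq_mul_left (by omega) h3).symm
    obtain ⟨θ, hr⟩ := hrel
    have h1 := main_galH hgood hP0 hr hw
    rw [hgood.hh_pt hu0] at h1
    have h2 : (dgH (fixE K K' M E) (pt u) : ℝ) ≤ finrank E L := by
      exact_mod_cast dgH_lin_le (K := K) (E := E) A x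
    have h3 : (1 : ℝ) ≤ dgH (fixE K K' M E) (pt u) := by exact_mod_cast dgH_pos (pt u)
    have h4 : 0 ≤ hh (Fit Gi s) (q ^ s) u := by
      rw [← hgood.hh_pt hu0]
      exact hgood.hp_nonneg hP0 (pt u)
    have hB' : (1 : ℝ) ≤ B := by exact_mod_cast hB
    have he' : (1 : ℝ) ≤ e := by exact_mod_cast he
    have hc1 := k1_pos hgood hP0 hB'
    have hc2 := k2_pos hgood hP0 hB'
    have hnn : (0 : ℝ) < finrank E L := by linarith
    set D : ℝ := (dgH (fixE K K' M E) (pt u) : ℝ) with hDdef
    have h5 : Real.exp (-(k1 P (Fit Gi s) (q ^ s) B * Real.sqrt (1 + Real.log (finrank E L)))) /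
        (k2 P (Fit Gi s) (q ^ s) B * e) ≤ finrank E L * hh (Fit Gi s) (q ^ s) u := by
      calc Real.exp (-(k1 P (Fit Gi s) (q ^ s) B * Real.sqrt (1 + Real.log (finrank E L)))) /
          (k2 P (Fit Gi s) (q ^ s) B * e) ≤
          Real.exp (-(k1 P (Fit Gi s) (q ^ s) B * Real.sqrt (1 + Real.log D))) /
            (k2 P (Fit Gi s) (q ^ s) B * e) := by
            gcongr
        _ ≤ D * hh (Fit Gi s) (q ^ s) u := h1
        _ ≤ finrank E L * hh (Fit Gi s) (q ^ s) u := by gcongr
    rw [← div_div, div_le_iff₀ hnn, mul_comm (hh (Fit Gi s) (q ^ s) u)]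
    exact h5
end Core0

section Gen

variable {K K' M E N : Type*} [Field K] [NumberField K] [Field K'] [NumberField K']
  [Field M] [NumberField M] [Field E] [NumberField E] [Field N] [NumberField N]
  [Algebra K K'] [Algebra K M] [Algebra K' M] [IsScalarTower K K' M]
  [Algebra K E] [Algebra E M] [IsScalarTower K E M] [IsGalois K E]
  [Algebra K N] [Algebra N M] [IsScalarTower K N M] [IsGalois K N]
  [Algebra E N] [IsScalarTower E N M]

lemma mem_fixE_of {g : Gal(M/K')} (hg : ∀ x : N, g (algebraMap N M x) = algebraMap N M x) :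
    g ∈ fixE K K' M N := by
  unfold fixE
  rw [MonoidHom.mem_ker]
  apply AlgEquiv.ext
  intro x
  apply (algebraMap N M).injective
  rw [resE_apply, hg]
  rfl

/-- the data for the relative argument over a field generated by periodic points -/
lemma exists_rel_per [IsGalois K' M] {P : Ideal (𝓞 K')} [hP : P.IsMaximal]
    {F : Fin 2 → MvPolynomial (Fin 2) (𝓞 K')} {q : ℕ} (h : Good P F q)
    (hP0 : P ≠ ⊥) {e B n k : ℕ} (he : 1 ≤ e) (hB : 1 ≤ B)
    (hE : FewConj (P.under (𝓞 K)) E B n) (hE' : RamLe (P.under (𝓞 K)) E e)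
    (hk : q = P.absNorm ^ (n * k))
    (hgen : ∀ g : Gal(M/K'), (∀ x : E, g (algebraMap E M x) = algebraMap E M x) →
      (∀ x : Option M, Per F x → g • x = x) → g ∈ fixE K K' M N) :
    ∃ θ : Gal(M/K'), Rel F (fixE K K' M N) P θ e B := by
  obtain ⟨θ, hθ⟩ := exists_theta_per (M := M) (H := fixE K K' M N) h hP0 (resE K K' M E)
    (fun g hg hg' => hgen g (mem_fixE (K := K) (MonoidHom.mem_ker.mpr hg)) hg') hk (B := B)
    fun v hv σ hσ _ => frob_E hP0 hE hv hσ
  refine ⟨θ, normE, by exact_mod_cast he, by exact_mod_cast hB, fun v hv => ?_, hθ⟩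
  refine (iner_E hP0 hE' hv).trans ?_
  have h1 : Nat.card ((mi v).inertia Gal(M/K') ⊓ fixE K K' M E : Subgroup Gal(M/K')) ≤
      Nat.card ((mi v).inertia Gal(M/K') ⊓ fixE K K' M N : Subgroup Gal(M/K')) := by
    apply Subgroup.card_le_of_le
    rintro g ⟨hg1, hg2⟩
    refine ⟨hg1, hgen g (mem_fixE (K := K) hg2) fun x hx => ?_⟩
    exact (per_eq (h.red_at hP0 hv) hx (hx.smul g) (dv_inertia hg1 x)).symm
  have h2 : (0 : ℝ) ≤ e := by positivity
  gcongr

end Gen

section Transfer

variable {K K' M : Type*} [Field K] [NumberField K] [Field K'] [NumberField K']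
  [Field M] [NumberField M]
  [Algebra K K'] [Algebra K M] [Algebra K' M] [IsScalarTower K K' M]

variable {b : 𝓞 K'} {G : Fin 2 → MvPolynomial (Fin 2) K'}
  {Gi : Fin 2 → MvPolynomial (Fin 2) (𝓞 K')}

variable {F : Fin 2 → MvPolynomial (Fin 2) K} {A : Matrix (Fin 2) (Fin 2) K'}

lemma iter_scal {q : ℕ} (hF : ∀ i, (F i).IsHomogeneous q) {z : Fin 2 → M} {j : ℕ} {c : M}
    (hc : c ≠ 0) (hper : (act F)^[j] z = c • z) (m : ℕ) :
    ∃ d : M, d ≠ 0 ∧ (act F)^[m * j] z = d • z := by
  have hs : ∀ (d : M) (y : Fin 2 → M) (i : ℕ), ∃ e : M, (d ≠ 0 → e ≠ 0) ∧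
      (act F)^[i] (d • y) = e • (act F)^[i] y := by
    intro d y i
    induction i with
    | zero => exact ⟨d, fun h => h, rfl⟩
    | succ i ih =>
      obtain ⟨e, he, he'⟩ := ih
      refine ⟨e ^ q, fun h => pow_ne_zero _ (he h), ?_⟩
      rw [Function.iterate_succ_apply', he', act_smul hF, Function.iterate_succ_apply']
  induction m with
  | zero => exact ⟨1, one_ne_zero, by simp⟩
  | succ m ih =>
    obtain ⟨d, hd, hd'⟩ := ih
    obtain ⟨e, he, he'⟩ := hs c z (m * j)
    refine ⟨e * d, mul_ne_zero (he hc) hd, ?_⟩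
    rw [Nat.succ_mul, Function.iterate_add_apply, hper, he', hd', smul_smul]

lemma per_lin (hA : A.det ≠ 0) (hconj : Conj A F G) {q s : ℕ}
    (hGhom : ∀ i, (G i).IsHomogeneous q) (hb : b ≠ 0)
    (hGi : ∀ i, MvPolynomial.map (algebraMap (𝓞 K') K') (Gi i) = C (b : K') * G i)
    {P : Ideal (𝓞 K')} [P.IsMaximal]
    (hP0 : P ≠ ⊥) (hgood : Good P (Fit Gi s) (q ^ s)) (hF : ∀ i, (F i).IsHomogeneous q)
    {z : Fin 2 → M} (hz : z ≠ 0) {j : ℕ} (hj : 1 ≤ j) {c : M} (hc : c ≠ 0)
    (hper : (act F)^[j] z = c • z) :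
    Per (Fit Gi s) (pt (lin (A.map (algebraMap K' M)) z)) := by
  set AM := A.map (algebraMap K' M) with hAM
  have hAM0 : AM.det ≠ 0 := by
    have h1 : AM.det = algebraMap K' M A.det := by
      rw [RingHom.map_det]
      rfl
    rw [h1, Ne, FaithfulSMul.algebraMap_eq_zero_iff]
    exact hA
  have hu0 : lin AM z ≠ 0 := lin_ne_zero hAM0 hz
  obtain ⟨v, hv⟩ := TP_nonempty (M := M) hP0
  have hR := hgood.red_at hP0 hv
  obtain ⟨d, hd, hd'⟩ := iter_scal hF hc hper s
  obtain ⟨c', hc', hc''⟩ := act_int_iter hb hGi hGhom (lin AM z) (s * j)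
  refine ⟨j, hj, ?_⟩
  rw [hR.phi_iter_pt hu0, act_Fit_iter, hc'', hconj.act_iter, hd', lin_smul, smul_smul,
    pt_smul (mul_ne_zero hc' hd)]

lemma fix_of_pt (hA : A.det ≠ 0) {g : Gal(M/K')} {t : M}
    (h : g • pt (lin (A.map (algebraMap K' M)) ![t, 1]) =
      pt (lin (A.map (algebraMap K' M)) ![t, 1])) : g t = t := by
  set AM := A.map (algebraMap K' M) with hAM
  have hAM0 : AM.det ≠ 0 := by
    have h1 : AM.det = algebraMap K' M A.det := by
      rw [RingHom.map_det]
      rfl
    rw [h1, Ne, FaithfulSMul.algebraMap_eq_zero_iff]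
    exact hA
  have hz : ∀ s : M, (![s, 1] : Fin 2 → M) ≠ 0 := by
    intro s h
    have := congrFun h 1
    simp at this
  rw [← pt_map] at h
  have h1 : (fun i => g (lin AM ![t, 1] i)) = lin AM ![g t, 1] := by
    funext i
    simp only [lin, Fin.sum_univ_two, map_add, map_mul, hAM, Matrix.map_apply,
      AlgEquiv.commutes, Matrix.cons_val_zero, Matrix.cons_val_one, map_one]
  rw [h1, pt_eq_iff (lin_ne_zero hAM0 (hz _)) (lin_ne_zero hAM0 (hz _)), wdg_lin] at h
  rcases mul_eq_zero.mp h with h2 | h2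
  · exact absurd h2 hAM0
  · simp only [wdg, Matrix.cons_val_zero, Matrix.cons_val_one, mul_one, one_mul] at h2
    exact sub_eq_zero.mp h2

end Transfer

section Gen2

variable {K K' M E N : Type*} [Field K] [NumberField K] [Field K'] [NumberField K']
  [Field M] [NumberField M] [Field E] [NumberField E] [Field N] [NumberField N]
  [Algebra K K'] [Algebra K M] [Algebra K' M] [IsScalarTower K K' M]
  [Algebra K E] [Algebra E M] [IsScalarTower K E M] [IsGalois K E]
  [Algebra K N] [Algebra N M] [IsScalarTower K N M] [IsGalois K N]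
  [Algebra E N] [IsScalarTower E N M]

variable {b : 𝓞 K'} {G : Fin 2 → MvPolynomial (Fin 2) K'}
  {Gi : Fin 2 → MvPolynomial (Fin 2) (𝓞 K')}

variable {F : Fin 2 → MvPolynomial (Fin 2) K} {A : Matrix (Fin 2) (Fin 2) K'}

/-- the elements `t` of `N` such that `(t : 1)` is a periodic point -/
def PerSet (F : Fin 2 → MvPolynomial (Fin 2) K) (N : Type*) [Field N] [Algebra K N] : Set N :=
  {t | ∃ j, 1 ≤ j ∧ ∃ c : N, c ≠ 0 ∧ (act F)^[j] ![t, 1] = c • ![t, 1]}

lemma gen_fix (hA : A.det ≠ 0) (hconj : Conj A F G) {q s : ℕ}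
    (hGhom : ∀ i, (G i).IsHomogeneous q) (hb : b ≠ 0)
    (hGi : ∀ i, MvPolynomial.map (algebraMap (𝓞 K') K') (Gi i) = C (b : K') * G i)
    {P : Ideal (𝓞 K')} [P.IsMaximal]
    (hP0 : P ≠ ⊥) (hgood : Good P (Fit Gi s) (q ^ s)) (hF : ∀ i, (F i).IsHomogeneous q)
    (hgen : Algebra.adjoin E (PerSet F N) = ⊤) (g : Gal(M/K'))
    (hg : ∀ x : E, g (algebraMap E M x) = algebraMap E M x)
    (hg' : ∀ x : Option M, Per (Fit Gi s) x → g • x = x) : g ∈ fixE K K' M N := by
  apply mem_fixE_of
  let φ₁ : N →ₐ[E] M := IsScalarTower.toAlgHom E N M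
  let φ₂ : N →ₐ[E] M :=
    { toRingHom := (g.toAlgHom : M →ₐ[K'] M).toRingHom.comp (algebraMap N M)
      commutes' := fun x => by
        change g (algebraMap N M (algebraMap E N x)) = algebraMap E M x
        rw [← IsScalarTower.algebraMap_apply E N M]
        exact hg x }
  have hφ : φ₂ = φ₁ := by
    apply AlgHom.ext_of_adjoin_eq_top hgen
    rintro t ⟨j, hj, c, hc, hper⟩
    change g (algebraMap N M t) = algebraMap N M t
    apply fix_of_pt hA (A := A)
    apply hg'
    have hz0 : (fun i => algebraMap N M ((![t, 1] : Fin 2 → N) i)) =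
        (![algebraMap N M t, 1] : Fin 2 → M) := by
      funext i
      fin_cases i <;> simp
    refine per_lin (c := algebraMap N M c) hA hconj hGhom hb hGi hP0 hgood hF ?_ hj ?_ ?_
    · intro h
      have := congrFun h 1
      simp at this
    · rw [Ne, FaithfulSMul.algebraMap_eq_zero_iff]
      exact hc
    · rw [← hz0, act_iter_base, hper]
      funext i
      simp
  intro x
  exact congrArg (fun φ : N →ₐ[E] M => φ x) hφ

end Gen2

end

end Pool.Agent.Y740.RL
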