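import Mathlib
import Pool.Agent.Y740.RL.TopP
import Pool.Agent.Y740.RL.Ell

/-!
Fields generated by torsion points of order prime to `p` of an elliptic curve.
-/

set_option autoImplicit false
set_option linter.unusedSectionVars false

namespace Pool.Agent.Y740.RL

open NumberField Module MvPolynomial Filter Topology Pool.Agent.H420R3
open scoped Pointwise

noncomputable section

section Tors

/-- torsion points of order prime to `p` -/
def Tor {N : Type*} [Field N] [DecidableEq N] {W : WeierstrassCurve.Affine N} (p : ℕ)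
    (T : W.Point) : Prop := ∃ m : ℕ, m.Coprime p ∧ m • T = 0

lemma Tor.add {N : Type*} [Field N] [DecidableEq N] {W : WeierstrassCurve.Affine N} {p : ℕ}
    {T T' : W.Point} (h : Tor p T) (h' : Tor p T') : Tor p (T + T') := by
  obtain ⟨m, hm, h⟩ := h
  obtain ⟨m', hm', h'⟩ := h'
  refine ⟨m * m', Nat.Coprime.mul_left hm hm', ?_⟩
  rw [nsmul_add, mul_nsmul, h, nsmul_zero, zero_add, mul_comm, mul_nsmul, h', nsmul_zero]

variable {K : Type*} [Field K] {N : Type*} [Field N] [Algebra K N] [DecidableEq N]
variable (W : WeierstrassCurve.Affine K) (p : ℕ)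

lemma Tor.map {W : WeierstrassCurve.Affine K} {p : ℕ} {T : (W.baseChange N).Point}
    (h : Tor p T) (f : N →ₐ[K] N) : Tor p (WeierstrassCurve.Affine.Point.map (W' := W) f T) := by
  obtain ⟨m, hm, h⟩ := h
  refine ⟨m, hm, ?_⟩
  rw [← map_nsmul, h]
  exact WeierstrassCurve.Affine.Point.map_zero f

variable (N) in
/-- first coordinates of torsion points -/
def xSet : Set N := {x | ∃ (y : N) (h : (W.baseChange N).Nonsingular x y),
  Tor p (WeierstrassCurve.Affine.Point.some x y h : (W.baseChange N).Point)}

variable (N) in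
/-- coordinates of torsion points -/
def xySet : Set N := {t | ∃ (x y : N) (h : (W.baseChange N).Nonsingular x y),
  Tor p (WeierstrassCurve.Affine.Point.some x y h : (W.baseChange N).Point) ∧ (t = x ∨ t = y)}

lemma xSet_stable (f : N →ₐ[K] N) {x : N} (hx : x ∈ xSet N W p) : f x ∈ xSet N W p := by
  obtain ⟨y, h, hT⟩ := hx
  have h1 := hT.map f
  rw [WeierstrassCurve.Affine.Point.map_some] at h1
  exact ⟨_, _, h1⟩

variable (N) in
/-- the field generated by the first coordinates -/
abbrev NX : IntermediateField K N := IntermediateField.adjoin K (xSet N W p)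

end Tors

section Gal

variable {K : Type*} [Field K] [NumberField K] {N : Type*} [Field N] [NumberField N]
  [Algebra K N] [DecidableEq N] [IsGalois K N]
variable (W : WeierstrassCurve.Affine K) (p : ℕ)

instance galNX : IsGalois K (NX N W p) := by
  have h1 : Normal K (NX N W p) := by
    rw [IntermediateField.normal_iff_forall_map_le']
    intro σ
    rw [IntermediateField.adjoin_map]
    apply IntermediateField.adjoin.mono
    rintro _ ⟨x, hx, rfl⟩
    exact xSet_stable W p _ hx
  exact ⟨⟩

/-- the algebra homomorphism over `K` given by an automorphism over the subfield -/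
def fσ (σ : Gal(N/(NX N W p))) : N →ₐ[K] N := (AlgEquiv.restrictScalars K σ : N ≃ₐ[K] N)

lemma fσ_x (σ : Gal(N/(NX N W p))) {x : N} (hx : x ∈ xSet N W p) : fσ W p σ x = x :=
  σ.commutes ⟨x, IntermediateField.subset_adjoin K _ hx⟩

lemma map_eq_or (σ : Gal(N/(NX N W p))) {T : (W.baseChange N).Point} (hT : Tor p T) :
    WeierstrassCurve.Affine.Point.map (W' := W) (fσ W p σ) T = T ∨
      WeierstrassCurve.Affine.Point.map (W' := W) (fσ W p σ) T = -T := by
  cases T with
  | zero => exact Or.inl rfl
  | some x y h =>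
    rw [WeierstrassCurve.Affine.Point.map_some]
    exact WeierstrassCurve.Affine.Point.X_eq_iff.mp (fσ_x W p σ ⟨y, h, hT⟩)

lemma dich (σ : Gal(N/(NX N W p))) :
    (∀ T : (W.baseChange N).Point, Tor p T →
      WeierstrassCurve.Affine.Point.map (W' := W) (fσ W p σ) T = T) ∨
    (∀ T : (W.baseChange N).Point, Tor p T →
      WeierstrassCurve.Affine.Point.map (W' := W) (fσ W p σ) T = -T) := by
  by_contra hcon
  push Not at hcon
  obtain ⟨⟨T₁, hT₁, h₁⟩, T₂, hT₂, h₂⟩ := hcon
  have e₁ := (map_eq_or W p σ hT₁).resolve_left h₁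
  have e₂ := (map_eq_or W p σ hT₂).resolve_right h₂
  rcases map_eq_or W p σ (hT₁.add hT₂) with h | h
  · rw [map_add, e₁, e₂] at h
    exact h₁ (e₁.trans (add_right_cancel h))
  · rw [map_add, e₁, e₂, neg_add] at h
    exact h₂ (e₂.trans (add_left_cancel h))

lemma card_gal_le (hgen : Algebra.adjoin K (xySet N W p) = ⊤) :
    Nat.card Gal(N/(NX N W p)) ≤ 2 := by
  classical
  let s : Gal(N/(NX N W p)) → Bool := fun σ => decide (∀ T : (W.baseChange N).Point, Tor p T →
      WeierstrassCurve.Affine.Point.map (W' := W) (fσ W p σ) T = T)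
  have hs : Function.Injective s := by
    intro σ σ' hss
    have h1 : ∀ T : (W.baseChange N).Point, Tor p T →
        WeierstrassCurve.Affine.Point.map (W' := W) (fσ W p σ) T =
        WeierstrassCurve.Affine.Point.map (W' := W) (fσ W p σ') T := by
      intro T hT
      by_cases hσ : ∀ T : (W.baseChange N).Point, Tor p T →
          WeierstrassCurve.Affine.Point.map (W' := W) (fσ W p σ) T = T
      · have hσ' : ∀ T : (W.baseChange N).Point, Tor p T →
            WeierstrassCurve.Affine.Point.map (W' := W) (fσ W p σ') T = T := by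
          have e1 : s σ = true := decide_eq_true hσ
          rw [hss] at e1
          exact of_decide_eq_true e1
        rw [hσ T hT, hσ' T hT]
      · have hσ' : ¬ ∀ T : (W.baseChange N).Point, Tor p T →
            WeierstrassCurve.Affine.Point.map (W' := W) (fσ W p σ') T = T := by
          have e1 : s σ = false := decide_eq_false hσ
          rw [hss] at e1
          exact of_decide_eq_false e1
        rw [(dich W p σ).resolve_left hσ T hT, (dich W p σ').resolve_left hσ' T hT]
    have h2 : fσ W p σ = fσ W p σ' := by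
      apply AlgHom.ext_of_adjoin_eq_top hgen
      rintro t ⟨x, y, h, hT, ht⟩
      have h3 := h1 _ hT
      rw [WeierstrassCurve.Affine.Point.map_some, WeierstrassCurve.Affine.Point.map_some] at h3
      have h4 := WeierstrassCurve.Affine.Point.some.inj h3
      rcases ht with rfl | rfl
      · exact h4.1
      · exact h4.2
    apply AlgEquiv.ext
    intro x
    exact congrArg (fun f : N →ₐ[K] N => f x) h2
  have h3 := Nat.card_le_card_of_injective s hs
  simpa using h3

lemma finrank_NX_le (hgen : Algebra.adjoin K (xySet N W p) = ⊤) :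
    finrank (NX N W p) N ≤ 2 := by
  rw [← IsGalois.card_aut_eq_finrank (NX N W p) N]
  exact card_gal_le W p hgen

end Gal

section Per

variable {K : Type*} [Field K] [NumberField K] {N : Type*} [Field N] [NumberField N]
  [Algebra K N] [DecidableEq N]
variable {W : WeierstrassCurve.Affine K} {p : ℕ}
variable {F : Fin 2 → MvPolynomial (Fin 2) K} {q : ℕ}

lemma per_x (hp : 2 ≤ p) (hF : ∀ i, (F i).IsHomogeneous q)
    (hmul : ∀ P : (W.baseChange N).Point, ∃ c : N, c ≠ 0 ∧ act F (xc P) = c • xc (p • P))
    {x : N} (hx : x ∈ xSet N W p) :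
    ∃ j, 1 ≤ j ∧ ∃ c : N, c ≠ 0 ∧ (act F)^[j] ![x, 1] = c • ![x, 1] := by
  obtain ⟨y, h, m, hm, hT⟩ := hx
  set T : (W.baseChange N).Point := WeierstrassCurve.Affine.Point.some x y h with hTdef
  have hm0 : 0 < m := by
    rcases Nat.eq_zero_or_pos m with h0 | h0
    · rw [h0, Nat.coprime_zero_left] at hm
      omega
    · exact h0
  have h1 := Nat.ModEq.pow_totient hm.symm
  have hpos : 0 < p ^ m.totient := by positivity
  have h2 : m ∣ p ^ m.totient - 1 := (Nat.modEq_iff_dvd' (by omega)).mp h1.symm
  obtain ⟨k, hk⟩ := h2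
  have h3 : p ^ m.totient = 1 + m * k := by omega
  have h4 : p ^ m.totient • T = T := by
    rw [h3, add_nsmul, one_nsmul, mul_nsmul, hT, nsmul_zero, add_zero]
  obtain ⟨c, hc, hc'⟩ := iter_xc hF hmul T m.totient
  rw [h4] at hc'
  exact ⟨m.totient, Nat.totient_pos.mpr hm0, c, hc, hc'⟩

lemma mem_perSet (hp : 2 ≤ p) (hF : ∀ i, (F i).IsHomogeneous q)
    (hmul : ∀ P : (W.baseChange N).Point, ∃ c : N, c ≠ 0 ∧ act F (xc P) = c • xc (p • P))
    {x : NX N W p} (hx : (x : N) ∈ xSet N W p) : x ∈ PerSet F (NX N W p) := by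
  obtain ⟨j, hj, c, hc, h⟩ := per_x hp hF hmul hx
  set w := (act F)^[j] (![x, 1] : Fin 2 → NX N W p) with hw
  have h1 : (fun i => algebraMap (NX N W p) N (w i)) = c • (![(x : N), 1] : Fin 2 → N) := by
    rw [← h, hw, ← act_iter_base]
    congr 1
    funext i
    fin_cases i
    · rfl
    · exact map_one _
  have h10 : algebraMap (NX N W p) N (w 0) = c * x := congrFun h1 0
  have h11 : algebraMap (NX N W p) N (w 1) = c := by
    have := congrFun h1 1
    simpa using this
  refine ⟨j, hj, w 1, ?_, ?_⟩
  · intro h0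
    rw [h0, map_zero] at h11
    exact hc h11.symm
  · funext i
    apply (algebraMap (NX N W p) N).injective
    fin_cases i
    · change algebraMap (NX N W p) N (w 0) = algebraMap (NX N W p) N (w 1 * x)
      rw [map_mul, h11, h10]
      rfl
    · change algebraMap (NX N W p) N (w 1) = algebraMap (NX N W p) N (w 1 * 1)
      rw [mul_one]

lemma adjoin_per (hp : 2 ≤ p) (hF : ∀ i, (F i).IsHomogeneous q)
    (hmul : ∀ P : (W.baseChange N).Point, ∃ c : N, c ≠ 0 ∧ act F (xc P) = c • xc (p • P)) :
    Algebra.adjoin K (PerSet F (NX N W p)) = ⊤ := by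
  rw [eq_top_iff]
  have hsub : {x : NX N W p | (x : N) ∈ xSet N W p} ⊆ PerSet F (NX N W p) := fun x hx =>
    mem_perSet hp hF hmul hx
  refine le_trans ?_ (Algebra.adjoin_mono hsub)
  intro z _
  have h1 : (z : N) ∈ (NX N W p).toSubalgebra := z.2
  have h2 : (NX N W p).toSubalgebra = Algebra.adjoin K (xSet N W p) :=
    IntermediateField.adjoin_toSubalgebra_of_isAlgebraic fun x _ => Algebra.IsAlgebraic.isAlgebraic x
  have h3 : ((NX N W p).val : NX N W p → N) '' {x : NX N W p | (x : N) ∈ xSet N W p} =
      xSet N W p := by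
    ext x
    constructor
    · rintro ⟨x', hx', rfl⟩
      exact hx'
    · intro hx
      exact ⟨⟨x, IntermediateField.subset_adjoin K _ hx⟩, hx, rfl⟩
  rw [h2, ← h3, ← AlgHom.map_adjoin] at h1
  obtain ⟨a, ha, haz⟩ := h1
  have : a = z := Subtype.ext haz
  rw [← this]
  exact ha

end Per

end

end Pool.Agent.Y740.RL
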