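import Mathlib
import Pool.Agent.Y740.RL.Ell2

/-!
The lower bound over fields generated by torsion points.
-/

set_option autoImplicit false
set_option linter.unusedSectionVars false

namespace Pool.Agent.Y740.RL

open NumberField Module MvPolynomial Filter Topology Pool.Agent.H420R3
open scoped Pointwise

noncomputable section

lemma fewConj_self {K : Type} [Field K] [NumberField K] (P₀ : Ideal (𝓞 K)) :
    FewConj P₀ K 1 1 := by
  intro 𝔓 _ _ σ _
  have h1 : ∀ g : Gal(K/K), g = 1 := fun g => by
    apply AlgEquiv.ext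
    intro x
    exact g.commutes x
  have h2 : (Set.range fun g : Gal(K/K) => g * σ ^ 1 * g⁻¹) = {1} := by
    ext x
    constructor
    · rintro ⟨g, rfl⟩
      exact h1 _
    · intro hx
      rw [Set.mem_singleton_iff.mp hx]
      exact ⟨1, h1 _⟩
  rw [h2, Set.ncard_singleton]

/-- the bound over fields generated by torsion points of order prime to `p` -/
theorem torsion_top {K : Type} [Field K] [NumberField K] (W : WeierstrassCurve.Affine K)
    {p : ℕ} (hp : p.Prime)
    (F : Fin 2 → MvPolynomial (Fin 2) K) (hF : ∀ i, (F i).IsHomogeneous (p ^ 2))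
    (K' : Type) [Field K'] [NumberField K'] [Algebra K K'] (A : Matrix (Fin 2) (Fin 2) K')
    (hA : A.det ≠ 0) (G : Fin 2 → MvPolynomial (Fin 2) K')
    (hGhom : ∀ i, (G i).IsHomogeneous (p ^ 2)) (hconj : Conj A F G) (v : FinitePlace K')
    (hv : v (p : K') < 1) (hred : InsepAt v (p ^ 2) G) :
    ∃ C : ℝ, 0 < C ∧ ∀ (N L : Type) [Field N] [NumberField N]
      [Field L] [NumberField L] [DecidableEq N] [DecidableEq L] [Algebra K N] [Algebra K L]
      [Algebra N L] [IsScalarTower K N L] [IsGalois K N],
      (∀ Q : (W.baseChange N).Point, ∃ c : N, c ≠ 0 ∧ act F (xc Q) = c • xc (p • Q)) →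
      (∀ Q : (W.baseChange L).Point, ∃ c : L, c ≠ 0 ∧ act F (xc Q) = c • xc (p • Q)) →
      Algebra.adjoin K (xySet N W p) = ⊤ →
      ∀ P : (W.baseChange L).Point, ¬ IsOfFinAddOrder P →
      ∃ h : ℝ, Tendsto (fun k : ℕ => Height.logHeight (xc (p ^ k • P)) /
          ((finrank ℚ L : ℝ) * (p : ℝ) ^ (2 * k))) atTop (𝓝 h) ∧
        Real.exp (-(C * Real.sqrt (1 + Real.log (finrank N L)))) /
          (C * finrank N L) ≤ h := by
  obtain ⟨C, hC, hmain⟩ := topP hp (by norm_num : 1 ≤ 2) F hF K' A hA G hGhom hconj v hv hred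
    1 1 le_rfl
  refine ⟨2 * C, by positivity, ?_⟩
  intro N L _ _ _ _ _ _ _ _ _ _ _ hmulN hmulL hgen P hP
  have hst : IsScalarTower K (NX N W p) L := inferInstance
  obtain ⟨h, hlim, hb, -⟩ := hmain K (NX N W p) L (fewConj_self _)
    (adjoin_per hp.two_le hF hmulN) (xc P) (xc_ne_zero P) (wandering_xc hp.two_le hF hmulL hP)
  refine ⟨h, ?_, ?_⟩
  · refine hlim.congr fun k => ?_
    obtain ⟨c, hc, hc'⟩ := iter_xc hF hmulL P k
    rw [hc', Height.logHeight_smul_eq_logHeight _ hc]
    congr 1
    push_cast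
    rw [← pow_mul]
  · refine le_trans ?_ hb
    have hst2 : IsScalarTower (NX N W p) N L := inferInstance
    have h1 : finrank (NX N W p) L = finrank (NX N W p) N * finrank N L :=
      (finrank_mul_finrank (NX N W p) N L).symm
    have h2 := finrank_NX_le W p hgen
    have h3 : (finrank (NX N W p) L : ℝ) ≤ 2 * finrank N L := by
      rw [h1]
      push_cast
      have : (finrank (NX N W p) N : ℝ) ≤ 2 := by exact_mod_cast h2
      gcongr
    have h4 : (1 : ℝ) ≤ finrank (NX N W p) L := by
      exact_mod_cast (finrank_pos : 0 < finrank (NX N W p) L)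
    have h5 : (1 : ℝ) ≤ finrank N L := by exact_mod_cast (finrank_pos : 0 < finrank N L)
    set D : ℝ := (finrank N L : ℝ) with hD
    set D' : ℝ := (finrank (NX N W p) L : ℝ) with hD'
    have hl : 0 ≤ Real.log D := Real.log_nonneg h5
    have h6 : Real.sqrt (1 + Real.log D') ≤ 2 * Real.sqrt (1 + Real.log D) := by
      rw [← Real.sqrt_sq (by norm_num : (0 : ℝ) ≤ 2), ← Real.sqrt_mul (by norm_num)]
      apply Real.sqrt_le_sqrt
      have h7 : Real.log D' ≤ Real.log (2 * D) := Real.log_le_log (by linarith) h3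
      rw [Real.log_mul (by norm_num) (by linarith)] at h7
      have h8 : Real.log 2 ≤ 1 := by
        have := Real.log_two_lt_d9
        linarith
      linarith
    rw [finrank_self, Nat.cast_one, mul_one]
    have h7 : C * Real.sqrt (1 + Real.log D') ≤ 2 * C * Real.sqrt (1 + Real.log D) := by
      calc C * Real.sqrt (1 + Real.log D') ≤ C * (2 * Real.sqrt (1 + Real.log D)) := by gcongr
        _ = _ := by ring
    have h8 : C * D' ≤ 2 * C * D := by
      calc C * D' ≤ C * (2 * D) := by gcongr
        _ = _ := by ring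
    have h9 : 0 < C * D' := by positivity
    gcongr

end

end Pool.Agent.Y740.RL
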