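import Mathlib
import Pool.Agent.Y740.RL.CoreP
import Pool.Agent.Y740.RL.TopH

/-!
The relative bound over fields generated by periodic points, which need not be Galois.
-/

set_option autoImplicit false
set_option linter.unusedSectionVars false

namespace Pool.Agent.Y740.RL

open NumberField Module MvPolynomial IsDedekindDomain Filter Topology Pool.Agent.H420R3
open scoped Pointwise

noncomputable section

section CoreQ

variable {K K' L M E : Type*} [Field K] [NumberField K] [Field K'] [NumberField K'] [Field L]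
  [NumberField L] [Field M] [NumberField M] [Algebra K K'] [Algebra K L] [Algebra K M]
  [Algebra K' M] [Algebra L M] [IsScalarTower K K' M] [IsScalarTower K L M]
  [IsGalois K' M]

variable {b : 𝓞 K'} {G : Fin 2 → MvPolynomial (Fin 2) K'}
  {Gi : Fin 2 → MvPolynomial (Fin 2) (𝓞 K')}

variable {F : Fin 2 → MvPolynomial (Fin 2) K} {A : Matrix (Fin 2) (Fin 2) K'}

variable (M) in
include M in
/-- the bound over a field containing all the data -/
lemma core_relQ (hA : A.det ≠ 0) (hconj : Conj A F G) {q s : ℕ} (hq : 2 ≤ q)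
    (hGhom : ∀ i, (G i).IsHomogeneous q) (hb : b ≠ 0)
    (hGi : ∀ i, MvPolynomial.map (algebraMap (𝓞 K') K') (Gi i) = C (b : K') * G i)
    (hGihom : ∀ i, (Gi i).IsHomogeneous q) (hs : 1 ≤ s) {P : Ideal (𝓞 K')} [P.IsMaximal]
    (hP0 : P ≠ ⊥) (hgood : Good P (Fit Gi s) (q ^ s)) {e B : ℕ} (he : 1 ≤ e) (hB : 1 ≤ B)
    {H : Subgroup Gal(M/K')} (hrel : ∃ θ : Gal(M/K'), Rel (Fit Gi s) H P θ e B) {dL : ℕ} {x : Fin 2 → L} (hx : x ≠ 0)
    (hdeg : dgH H (pt (lin (A.map (algebraMap K' M)) fun i => algebraMap L M (x i))) ≤ dL)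
    (hwand : ¬ ∃ m n : ℕ, m ≠ n ∧ ∃ c : L, c ≠ 0 ∧ (act F)^[n] x = c • (act F)^[m] x) :
    ∃ h : ℝ, Tendsto (fun n : ℕ => Height.logHeight ((act F)^[n] x) /
        ((finrank ℚ L : ℝ) * (q : ℝ) ^ n)) atTop (𝓝 h) ∧
      Real.exp (-(k1 P (Fit Gi s) (q ^ s) B * Real.sqrt (1 + Real.log (dL)))) /
        (k2 P (Fit Gi s) (q ^ s) B * e * dL) ≤ h := by
  set AM := A.map (algebraMap K' M) with hAM
  have hAM0 : AM.det ≠ 0 := by
    have h1 : AM.det = algebraMap K' M A.det := by
      rw [RingHom.map_det]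
      rfl
    rw [h1, Ne, FaithfulSMul.algebraMap_eq_zero_iff]
    exact hA
  set z : Fin 2 → M := fun i => algebraMap L M (x i) with hz
  have hz0 : z ≠ 0 := by
    intro h
    apply hx
    funext i
    have := congrFun h i
    simp only [hz, Pi.zero_apply, FaithfulSMul.algebraMap_eq_zero_iff] at this
    exact this
  set u := lin AM z with hu
  have hu0 : u ≠ 0 := lin_ne_zero hAM0 hz0
  -- nonvanishing
  have hact0 : ∀ y : Fin 2 → M, y ≠ 0 → act Gi y ≠ 0 := by
    intro y hy h0
    have h1 := hgood.act_ne_zero hP0 hy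
    rw [act_Fit] at h1
    apply h1
    obtain ⟨s', rfl⟩ : ∃ s', s = s' + 1 := ⟨s - 1, by omega⟩
    rw [Function.iterate_succ_apply, h0]
    have h2 : act Gi (0 : Fin 2 → M) = 0 := by
      have := act_smul hGihom (0 : M) (0 : Fin 2 → M)
      rwa [zero_smul, zero_pow (by omega), zero_smul] at this
    clear h1 hs hgood hrel
    induction s' with
    | zero => rfl
    | succ s' ih => rw [Function.iterate_succ_apply', ih, h2]
  have hiter0 : ∀ n, (act Gi)^[n] u ≠ 0 := by
    intro n
    induction n with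
    | zero => exact hu0
    | succ n ih =>
      rw [Function.iterate_succ_apply']
      exact hact0 _ ih
  -- comparison of the orbits
  have hcomp : ∀ n, ∃ c : M, c ≠ 0 ∧ (act Gi)^[n] u =
      c • lin AM (fun i => algebraMap L M ((act F)^[n] x i)) := by
    intro n
    obtain ⟨c, hc, hc'⟩ := act_int_iter hb hGi hGhom u n
    refine ⟨c, hc, ?_⟩
    rw [hc', hu, hconj.act_iter, hz, act_iter_base]
  obtain ⟨CA, hCA⟩ := exists_lin_bound hAM0
  have hn := nQ_pos L
  have hnM := nQ_pos M
  have hLM : (0 : ℝ) < finrank L M := by exact_mod_cast (finrank_pos : 0 < finrank L M)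
  have hQM : (finrank ℚ M : ℝ) = finrank ℚ L * finrank L M := by
    exact_mod_cast (finrank_mul_finrank ℚ L M).symm
  set a : ℕ → ℝ := fun n => Height.logHeight ((act F)^[n] x) / finrank ℚ L with ha
  set a' : ℕ → ℝ := fun n => Height.logHeight ((act Gi)^[n] u) / finrank ℚ M with ha'
  have haa : ∀ n, |a' n - a n| ≤ |CA| / finrank ℚ M := by
    intro n
    obtain ⟨c, hc, hc'⟩ := hcomp n
    have h1 : a n = Height.logHeight (fun i => algebraMap L M ((act F)^[n] x i)) /
        finrank ℚ M := by
      simp only [ha]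
      rw [Helper259.HtExt.logHeight_ext, hQM]
      field_simp
    have h2 : a' n = Height.logHeight (lin AM (fun i => algebraMap L M ((act F)^[n] x i))) /
        finrank ℚ M := by
      simp only [ha']
      rw [hc', Height.logHeight_smul_eq_logHeight _ hc]
    rw [h1, h2, ← sub_div, abs_div, abs_of_pos hnM]
    apply div_le_div_of_nonneg_right _ hnM.le
    exact (hCA _).trans (le_abs_self _)
  -- limits
  have hq' : (2 : ℝ) ≤ q := by exact_mod_cast hq
  have hcup := one_le_cup Gi q
  have hlim : Tendsto (fun n => a' n / (q : ℝ) ^ n) atTop (𝓝 (hh (Fit Gi s) (q ^ s) u)) := by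
    refine tendsto_of_sub (C := Real.log (cup Gi q)) hq' (Real.log_nonneg hcup) hs ?_ ?_ ?_
    · intro n
      exact div_nonneg (Height.logHeight_nonneg _) hnM.le
    · intro n
      have h1 := height_upper' hGihom (hiter0 n) (hact0 _ (hiter0 n))
      rw [← Function.iterate_succ_apply' (act Gi) n u] at h1
      simp only [ha']
      rw [div_le_iff₀ hnM]
      have h2 : ((q : ℝ) * (Height.logHeight ((act Gi)^[n] u) / finrank ℚ M) +
          Real.log (cup Gi q)) * finrank ℚ M =
          q * Height.logHeight ((act Gi)^[n] u) + finrank ℚ M * Real.log (cup Gi q) := by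
        field_simp
      rw [h2]
      exact h1
    · refine (hgood.tendsto_hh hP0 hu0).congr fun n => ?_
      simp only [ha']
      rw [act_Fit_iter, div_div]
      push_cast
      rw [pow_mul]
  have hlim2 : Tendsto (fun n => a n / (q : ℝ) ^ n) atTop (𝓝 (hh (Fit Gi s) (q ^ s) u)) := by
    have h1 : Tendsto (fun n : ℕ => (|CA| / finrank ℚ M) / (q : ℝ) ^ n) atTop (𝓝 0) := by
      have h3 : Tendsto (fun n : ℕ => (q : ℝ) ^ n) atTop atTop :=
        tendsto_pow_atTop_atTop_of_one_lt (by linarith)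
      exact h3.const_div_atTop _
    have h2 : Tendsto (fun n => a' n / (q : ℝ) ^ n - a n / (q : ℝ) ^ n) atTop (𝓝 0) := by
      refine squeeze_zero_norm (fun n => ?_) h1
      rw [← sub_div, Real.norm_eq_abs, abs_div, abs_of_pos (by positivity : (0 : ℝ) < (q : ℝ) ^ n)]
      exact div_le_div_of_nonneg_right (haa n) (by positivity)
    have h3 := hlim.sub h2
    rw [sub_zero] at h3
    refine h3.congr fun n => ?_
    ring
  refine ⟨hh (Fit Gi s) (q ^ s) u, ?_, ?_⟩
  · refine hlim2.congr fun n => ?_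
    simp only [ha]
    rw [div_div]
  · -- the point is wandering
    have hFiter : ∀ n, (act F)^[n] x ≠ 0 := by
      intro n h0
      obtain ⟨c, hc, hc'⟩ := hcomp n
      apply hiter0 n
      rw [hc', h0]
      funext i
      simp [lin]
    have hw : Wand (Fit Gi s) (pt u) := by
      intro a b hab
      by_contra hne
      simp only at hab
      have hphi : ∀ n, (phi (Fit Gi s))^[n] (pt u) = pt ((act Gi)^[s * n] u) := by
        intro n
        induction n with
        | zero => rfl
        | succ n ih =>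
          rw [Function.iterate_succ_apply', ih, phi_pt hgood.hom (hiter0 _), act_Fit,
            ← Function.iterate_add_apply, Nat.mul_succ, Nat.add_comm]
      rw [hphi, hphi, pt_eq_iff (hiter0 _) (hiter0 _)] at hab
      obtain ⟨c, hc, hc'⟩ := hcomp (s * a)
      obtain ⟨d, hd, hd'⟩ := hcomp (s * b)
      rw [hc', hd', wdg_smul_left, wdg_smul_right, wdg_lin] at hab
      have h1 : wdg (fun i => algebraMap L M ((act F)^[s * a] x i))
          (fun i => algebraMap L M ((act F)^[s * b] x i)) = 0 := by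
        rcases mul_eq_zero.mp hab with h | h
        · exact absurd h hc
        · rcases mul_eq_zero.mp h with h | h
          · exact absurd h hd
          · rcases mul_eq_zero.mp h with h | h
            · exact absurd h hAM0
            · exact h
      have h2 : wdg ((act F)^[s * a] x) ((act F)^[s * b] x) = 0 := by
        have h3 : algebraMap L M (wdg ((act F)^[s * a] x) ((act F)^[s * b] x)) = 0 := by
          rw [← h1]
          simp [wdg]
        exact (FaithfulSMul.algebraMap_eq_zero_iff L M).mp h3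
      obtain ⟨e, he, he'⟩ := wdg_eq_zero (hFiter _) (hFiter _) h2
      apply hwand
      refine ⟨s * b, s * a, ?_, e, he, he'⟩
      intro h3
      exact hne (Nat.eq_of_mul_eq_mul_left (by omega) h3).symm
    obtain ⟨θ, hr⟩ := hrel
    have h1 := main_galH hgood hP0 hr hw
    rw [hgood.hh_pt hu0] at h1
    have h2 : (dgH (H) (pt u) : ℝ) ≤ dL := by
      exact_mod_cast hdeg
    have h3 : (1 : ℝ) ≤ dgH (H) (pt u) := by exact_mod_cast dgH_pos (pt u)
    have h4 : 0 ≤ hh (Fit Gi s) (q ^ s) u := by
      rw [← hgood.hh_pt hu0]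
      exact hgood.hp_nonneg hP0 (pt u)
    have hB' : (1 : ℝ) ≤ B := by exact_mod_cast hB
    have he' : (1 : ℝ) ≤ e := by exact_mod_cast he
    have hc1 := k1_pos hgood hP0 hB'
    have hc2 := k2_pos hgood hP0 hB'
    have hnn : (0 : ℝ) < dL := by linarith
    set D : ℝ := (dgH (H) (pt u) : ℝ) with hDdef
    have h5 : Real.exp (-(k1 P (Fit Gi s) (q ^ s) B * Real.sqrt (1 + Real.log (dL)))) /
        (k2 P (Fit Gi s) (q ^ s) B * e) ≤ dL * hh (Fit Gi s) (q ^ s) u := by
      calc Real.exp (-(k1 P (Fit Gi s) (q ^ s) B * Real.sqrt (1 + Real.log (dL)))) /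
          (k2 P (Fit Gi s) (q ^ s) B * e) ≤
          Real.exp (-(k1 P (Fit Gi s) (q ^ s) B * Real.sqrt (1 + Real.log D))) /
            (k2 P (Fit Gi s) (q ^ s) B * e) := by
            gcongr
        _ ≤ D * hh (Fit Gi s) (q ^ s) u := h1
        _ ≤ dL * hh (Fit Gi s) (q ^ s) u := by gcongr
    rw [← div_div, div_le_iff₀ hnn, mul_comm (hh (Fit Gi s) (q ^ s) u)]
    exact h5
end CoreQ

section HH

variable {K K' M E : Type*} [Field K] [NumberField K] [Field K'] [NumberField K']
  [Field M] [NumberField M] [Field E] [NumberField E]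
  [Algebra K K'] [Algebra K M] [Algebra K' M] [IsScalarTower K K' M]
  [Algebra K E] [Algebra E M] [IsScalarTower K E M] [IsGalois K E]

variable (K K' E M) in
/-- the automorphisms fixing `E` and all the periodic points -/
def HH (F : Fin 2 → MvPolynomial (Fin 2) (𝓞 K')) : Subgroup Gal(M/K') where
  carrier := {g | g ∈ fixE K K' M E ∧ ∀ x : Option M, Per F x → g • x = x}
  one_mem' := ⟨Subgroup.one_mem _, fun x _ => one_smul _ x⟩
  mul_mem' := by
    rintro a b ⟨ha, ha'⟩ ⟨hb, hb'⟩
    refine ⟨Subgroup.mul_mem _ ha hb, fun x hx => ?_⟩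
    rw [mul_smul, hb' x hx, ha' x hx]
  inv_mem' := by
    rintro a ⟨ha, ha'⟩
    refine ⟨Subgroup.inv_mem _ ha, fun x hx => ?_⟩
    rw [inv_smul_eq_iff, ha' x hx]

instance normHH (F : Fin 2 → MvPolynomial (Fin 2) (𝓞 K')) : (HH K K' M E F).Normal := by
  refine ⟨?_⟩
  rintro g ⟨hg, hg'⟩ a
  refine ⟨(normE (K := K) (K' := K') (M := M) (E := E)).conj_mem g hg a, fun x hx => ?_⟩
  rw [mul_smul, mul_smul, hg' _ (hx.smul a⁻¹), smul_inv_smul]

/-- the data for the relative argument over a field generated by periodic points -/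
lemma exists_rel_HH [IsGalois K' M] {P : Ideal (𝓞 K')} [hP : P.IsMaximal]
    {F : Fin 2 → MvPolynomial (Fin 2) (𝓞 K')} {q : ℕ} (h : Good P F q)
    (hP0 : P ≠ ⊥) {e B n k : ℕ} (he : 1 ≤ e) (hB : 1 ≤ B)
    (hE : FewConj (P.under (𝓞 K)) E B n) (hE' : RamLe (P.under (𝓞 K)) E e)
    (hk : q = P.absNorm ^ (n * k)) :
    ∃ θ : Gal(M/K'), Rel F (HH K K' M E F) P θ e B := by
  obtain ⟨θ, hθ⟩ := exists_theta_per (M := M) (H := HH K K' M E F) h hP0 (resE K K' M E)
    (fun g hg hg' => ⟨MonoidHom.mem_ker.mpr hg, hg'⟩) hk (B := B)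
    fun v hv σ hσ _ => frob_E hP0 hE hv hσ
  refine ⟨θ, normHH F, by exact_mod_cast he, by exact_mod_cast hB, fun v hv => ?_, hθ⟩
  refine (iner_E hP0 hE' hv).trans ?_
  have h1 : Nat.card ((mi v).inertia Gal(M/K') ⊓ fixE K K' M E : Subgroup Gal(M/K')) ≤
      Nat.card ((mi v).inertia Gal(M/K') ⊓ HH K K' M E F : Subgroup Gal(M/K')) := by
    apply Subgroup.card_le_of_le
    rintro g ⟨hg1, hg2⟩
    refine ⟨hg1, hg2, fun x hx => ?_⟩
    exact (per_eq (h.red_at hP0 hv) hx (hx.smul g) (dv_inertia hg1 x)).symm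
  have h2 : (0 : ℝ) ≤ e := by positivity
  gcongr

end HH

section Gen3

variable {K K' M E N L : Type*} [Field K] [NumberField K] [Field K'] [NumberField K']
  [Field M] [NumberField M] [Field E] [NumberField E] [Field N] [NumberField N]
  [Field L] [NumberField L]
  [Algebra K K'] [Algebra K M] [Algebra K' M] [IsScalarTower K K' M]
  [Algebra K E] [Algebra E M] [IsScalarTower K E M] [IsGalois K E]
  [Algebra K N] [Algebra N M] [IsScalarTower K N M]
  [Algebra E N] [IsScalarTower E N M] [Algebra N L] [Algebra L M] [IsScalarTower N L M]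

variable {b : 𝓞 K'} {G : Fin 2 → MvPolynomial (Fin 2) K'}
  {Gi : Fin 2 → MvPolynomial (Fin 2) (𝓞 K')}

variable {F : Fin 2 → MvPolynomial (Fin 2) K} {A : Matrix (Fin 2) (Fin 2) K'}

lemma gen_fixN (hA : A.det ≠ 0) (hconj : Conj A F G) {q s : ℕ}
    (hGhom : ∀ i, (G i).IsHomogeneous q) (hb : b ≠ 0)
    (hGi : ∀ i, MvPolynomial.map (algebraMap (𝓞 K') K') (Gi i) = C (b : K') * G i)
    {P : Ideal (𝓞 K')} [P.IsMaximal]
    (hP0 : P ≠ ⊥) (hgood : Good P (Fit Gi s) (q ^ s)) (hF : ∀ i, (F i).IsHomogeneous q)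
    (hgen : Algebra.adjoin E (PerSet F N) = ⊤) {g : Gal(M/K')}
    (hg : g ∈ HH K K' M E (Fit Gi s)) (x : N) :
    g (algebraMap N M x) = algebraMap N M x := by
  let φ₁ : N →ₐ[E] M := IsScalarTower.toAlgHom E N M
  let φ₂ : N →ₐ[E] M :=
    { toRingHom := (g.toAlgHom : M →ₐ[K'] M).toRingHom.comp (algebraMap N M)
      commutes' := fun x => by
        change g (algebraMap N M (algebraMap E N x)) = algebraMap E M x
        rw [← IsScalarTower.algebraMap_apply E N M]
        exact mem_fixE (K := K) hg.1 x }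
  have hφ : φ₂ = φ₁ := by
    apply AlgHom.ext_of_adjoin_eq_top hgen
    rintro t ⟨j, hj, c, hc, hper⟩
    change g (algebraMap N M t) = algebraMap N M t
    apply fix_of_pt hA (A := A)
    apply hg.2
    have hz0 : (fun i => algebraMap N M ((![t, 1] : Fin 2 → N) i)) =
        (![algebraMap N M t, 1] : Fin 2 → M) := by
      funext i
      fin_cases i <;> simp
    refine per_lin (c := algebraMap N M c) hA hconj hGhom hb hGi hP0 hgood hF ?_ hj ?_ ?_
    · intro h
      have := congrFun h 1
      simp at this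
    · rw [Ne, FaithfulSMul.algebraMap_eq_zero_iff]
      exact hc
    · rw [← hz0, act_iter_base, hper]
      funext i
      simp
  exact congrArg (fun φ : N →ₐ[E] M => φ x) hφ

lemma dgH_lin_leN {H : Subgroup Gal(M/K')}
    (hH : ∀ g ∈ H, ∀ x : N, g (algebraMap N M x) = algebraMap N M x) (x : Fin 2 → L) :
    dgH H (pt (lin (A.map (algebraMap K' M)) fun i => algebraMap L M (x i))) ≤
      finrank N L := by
  classical
  have h1 : orbH H (pt (lin (A.map (algebraMap K' M)) fun i => algebraMap L M (x i))) ⊆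
      (Finset.univ : Finset (L →ₐ[N] M)).image fun ψ : L →ₐ[N] M =>
        pt (lin (A.map (algebraMap K' M)) fun i => ψ (x i)) := by
    intro w hw
    obtain ⟨g, hg, rfl⟩ := mem_orbH.mp hw
    rw [Finset.mem_image]
    let ψ : L →ₐ[N] M :=
      { toRingHom := (g.toAlgHom : M →ₐ[K'] M).toRingHom.comp (algebraMap L M)
        commutes' := fun x => by
          change g (algebraMap L M (algebraMap N L x)) = algebraMap N M x
          rw [← IsScalarTower.algebraMap_apply N L M]
          exact hH g hg x }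
    refine ⟨ψ, Finset.mem_univ _, ?_⟩
    rw [← pt_map]
    congr 1
    funext i
    unfold lin
    rw [map_sum]
    refine Finset.sum_congr rfl fun j _ => ?_
    rw [map_mul, Matrix.map_apply, AlgEquiv.commutes]
    rfl
  calc dgH H (pt (lin (A.map (algebraMap K' M)) fun i => algebraMap L M (x i))) ≤
      ((Finset.univ : Finset (L →ₐ[N] M)).image fun ψ : L →ₐ[N] M =>
        pt (lin (A.map (algebraMap K' M)) fun i => ψ (x i))).card :=
        Finset.card_le_card h1
    _ ≤ (Finset.univ : Finset (L →ₐ[N] M)).card := Finset.card_image_le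
    _ = Fintype.card (L →ₐ[N] M) := Finset.card_univ
    _ ≤ finrank N L := by
        have := card_algHom_le_finrank N L M
        rwa [Nat.card_eq_fintype_card] at this

end Gen3

end

end Pool.Agent.Y740.RL
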