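import Mathlib
import Pool.Agent.Y740.RL.CoreQ

/-!
The relative theorem over fields generated by periodic points.
-/

set_option autoImplicit false
set_option linter.unusedSectionVars false

namespace Pool.Agent.Y740.RL

open NumberField Module MvPolynomial IsDedekindDomain Filter Topology Pool.Agent.H420R3
open scoped Pointwise

noncomputable section

variable {K K' E N L : Type} [Field K] [NumberField K] [Field K'] [NumberField K'] [Field L]
  [NumberField L] [Field E] [NumberField E] [Field N] [NumberField N] [Algebra K K']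
  [Algebra K L] [Algebra K E] [Algebra K N] [Algebra E N] [Algebra N L] [IsScalarTower K E N]
  [IsScalarTower K N L] [IsGalois K E]

/-- the relative bound, without a field containing all the data -/
lemma core_relQ' {F : Fin 2 → MvPolynomial (Fin 2) K} {A : Matrix (Fin 2) (Fin 2) K'}
    {b : 𝓞 K'} {G : Fin 2 → MvPolynomial (Fin 2) K'} {Gi : Fin 2 → MvPolynomial (Fin 2) (𝓞 K')}
    (hA : A.det ≠ 0) (hconj : Conj A F G) {q s : ℕ} (hq : 2 ≤ q)
    (hF : ∀ i, (F i).IsHomogeneous q)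
    (hGhom : ∀ i, (G i).IsHomogeneous q) (hb : b ≠ 0)
    (hGi : ∀ i, MvPolynomial.map (algebraMap (𝓞 K') K') (Gi i) = C (b : K') * G i)
    (hGihom : ∀ i, (Gi i).IsHomogeneous q) (hs : 1 ≤ s) {P : Ideal (𝓞 K')} [P.IsMaximal]
    (hP0 : P ≠ ⊥) (hgood : Good P (Fit Gi s) (q ^ s)) {e B n k : ℕ} (he : 1 ≤ e) (hB : 1 ≤ B)
    (hk : q ^ s = P.absNorm ^ (n * k)) (hE : FewConj (P.under (𝓞 K)) E B n)
    (hE' : RamLe (P.under (𝓞 K)) E e) (hgen : Algebra.adjoin E (PerSet F N) = ⊤)
    {x : Fin 2 → L} (hx : x ≠ 0)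
    (hwand : ¬ ∃ m n : ℕ, m ≠ n ∧ ∃ c : L, c ≠ 0 ∧ (act F)^[n] x = c • (act F)^[m] x) :
    ∃ h : ℝ, Tendsto (fun n : ℕ => Height.logHeight ((act F)^[n] x) /
        ((finrank ℚ L : ℝ) * (q : ℝ) ^ n)) atTop (𝓝 h) ∧
      Real.exp (-(k1 P (Fit Gi s) (q ^ s) B * Real.sqrt (1 + Real.log (finrank N L)))) /
        (k2 P (Fit Gi s) (q ^ s) B * e * finrank N L) ≤ h := by
  let M : Type := NC K' (CP K K' L)
  let i1 : Field M := inferInstanceAs (Field (NC K' (CP K K' L)))
  let i2 : NumberField M := inferInstanceAs (NumberField (NC K' (CP K K' L)))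
  let i3 : Algebra K' M := inferInstanceAs (Algebra K' (NC K' (CP K K' L)))
  let i4 : Algebra (CP K K' L) M := inferInstanceAs (Algebra (CP K K' L) (NC K' (CP K K' L)))
  have i5 : IsScalarTower K' (CP K K' L) M :=
    inferInstanceAs (IsScalarTower K' (CP K K' L) (NC K' (CP K K' L)))
  have i6 : IsGalois K' M := inferInstanceAs (IsGalois K' (NC K' (CP K K' L)))
  let i7 : Algebra L M := ((algebraMap (CP K K' L) M).comp (algebraMap L (CP K K' L))).toAlgebra
  let i8 : Algebra K M := ((algebraMap (CP K K' L) M).comp (algebraMap K (CP K K' L))).toAlgebra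
  let i9 : Algebra N M := ((algebraMap L M).comp (algebraMap N L)).toAlgebra
  let j9 : Algebra E M := ((algebraMap N M).comp (algebraMap E N)).toAlgebra
  have i10 : IsScalarTower K K' M := IsScalarTower.of_algebraMap_eq fun x => by
    rw [IsScalarTower.algebraMap_apply K' (CP K K' L) M,
      ← IsScalarTower.algebraMap_apply K K' (CP K K' L)]
    rfl
  have i11 : IsScalarTower K L M := IsScalarTower.of_algebraMap_eq fun x => by
    change algebraMap (CP K K' L) M (algebraMap K (CP K K' L) x) =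
      algebraMap (CP K K' L) M (algebraMap L (CP K K' L) (algebraMap K L x))
    rw [← IsScalarTower.algebraMap_apply K L (CP K K' L)]
  have i12 : IsScalarTower N L M := IsScalarTower.of_algebraMap_eq fun x => rfl
  have i13 : IsScalarTower K N M := IsScalarTower.of_algebraMap_eq fun x => by
    change algebraMap K M x = algebraMap L M (algebraMap N L (algebraMap K N x))
    rw [← IsScalarTower.algebraMap_apply K N L, ← IsScalarTower.algebraMap_apply K L M]
  have j12 : IsScalarTower E N M := IsScalarTower.of_algebraMap_eq fun x => rfl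
  have j13 : IsScalarTower K E M := IsScalarTower.of_algebraMap_eq fun x => by
    change algebraMap K M x = algebraMap N M (algebraMap E N (algebraMap K E x))
    rw [← IsScalarTower.algebraMap_apply K E N, ← IsScalarTower.algebraMap_apply K N M]
  have hrel : ∃ θ : Gal(M/K'), Rel (Fit Gi s) (HH K K' M E (Fit Gi s)) P θ e B :=
    exists_rel_HH (E := E) hgood hP0 he hB hE hE' hk
  have hdeg := dgH_lin_leN (A := A) (H := HH K K' M E (Fit Gi s)) (N := N) (M := M)
    (fun g hg y => gen_fixN hA hconj hGhom hb hGi hP0 hgood hF hgen hg y) x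
  exact core_relQ (M := M) hA hconj hq hGhom hb hGi hGihom hs hP0 hgood he hB hrel hx hdeg hwand

/-- the relative theorem -/
theorem topQ {K : Type} [Field K] [NumberField K] {p r : ℕ} (hp : p.Prime) (hr : 1 ≤ r)
    (F : Fin 2 → MvPolynomial (Fin 2) K) (hF : ∀ i, (F i).IsHomogeneous (p ^ r))
    (K' : Type) [Field K'] [NumberField K'] [Algebra K K'] (A : Matrix (Fin 2) (Fin 2) K')
    (hA : A.det ≠ 0) (G : Fin 2 → MvPolynomial (Fin 2) K')
    (hGhom : ∀ i, (G i).IsHomogeneous (p ^ r)) (hconj : Conj A F G) (v : FinitePlace K')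
    (hv : v (p : K') < 1) (hred : InsepAt v (p ^ r) G) (B n : ℕ) (hn : 1 ≤ n) :
    ∃ C : ℝ, 0 < C ∧ ∀ (E N L : Type) [Field E] [NumberField E] [Field N] [NumberField N]
      [Field L] [NumberField L] [Algebra K E] [Algebra K N] [Algebra K L] [Algebra E N]
      [Algebra N L] [IsScalarTower K E N] [IsScalarTower K N L] [IsGalois K E],
      FewConj ((mi v).under (𝓞 K)) E B n → Algebra.adjoin E (PerSet F N) = ⊤ →
      ∀ x : Fin 2 → L, x ≠ 0 →
      (¬ ∃ m n : ℕ, m ≠ n ∧ ∃ c : L, c ≠ 0 ∧ (act F)^[n] x = c • (act F)^[m] x) →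
      ∃ h : ℝ, Tendsto (fun n : ℕ => Height.logHeight ((act F)^[n] x) /
          ((finrank ℚ L : ℝ) * ((p ^ r : ℕ) : ℝ) ^ n)) atTop (𝓝 h) ∧
        Real.exp (-(C * Real.sqrt (1 + Real.log (finrank N L)))) /
          (C * finrank K E * finrank N L) ≤ h ∧
        ∀ e : ℕ, RamLe ((mi v).under (𝓞 K)) E e →
          Real.exp (-(C * Real.sqrt (1 + Real.log (finrank N L)))) / (C * e * finrank N L) ≤
            h := by
  obtain ⟨b, Gi, s₀, hb, hGi, hGih, hs₀, hgood₀⟩ := hred.exists_model hp hr hv hGhom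
  obtain ⟨hgood, k, hk⟩ := good_mul hGih hgood₀ hn
  set s := s₀ * n with hs_def
  have hs : 1 ≤ s := Nat.mul_pos hs₀ hn
  have hB1 : (1 : ℝ) ≤ ((B + 1 : ℕ) : ℝ) := by
    push_cast
    have : (0 : ℝ) ≤ B := by positivity
    linarith
  have hc1 := k1_pos hgood (mi_ne_bot v) hB1
  have hc2 := k2_pos hgood (mi_ne_bot v) hB1
  set γ₁ := k1 (mi v) (Fit Gi s) ((p ^ r) ^ s) ((B + 1 : ℕ) : ℝ) with hγ₁
  set γ₂ := k2 (mi v) (Fit Gi s) ((p ^ r) ^ s) ((B + 1 : ℕ) : ℝ) with hγ₂
  have hq : 2 ≤ p ^ r := by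
    calc 2 ≤ p := hp.two_le
      _ ≤ p ^ r := Nat.le_self_pow (by omega) _
  have hmax : 0 < max γ₁ γ₂ := lt_max_of_lt_left hc1
  refine ⟨max γ₁ γ₂, hmax, ?_⟩
  intro E N L _ _ _ _ _ _ _ _ _ _ _ _ _ _ hE hgen x hx hwand
  have hE1 : FewConj ((mi v).under (𝓞 K)) E (B + 1) n := hE.mono (by omega)
  have hfE : 1 ≤ finrank K E := finrank_pos
  have hfL : (1 : ℝ) ≤ finrank N L := by exact_mod_cast (finrank_pos : 0 < finrank N L)
  have hlog : 0 ≤ Real.log (finrank N L : ℝ) := Real.log_nonneg hfL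
  have key : ∀ e : ℕ, 1 ≤ e → RamLe ((mi v).under (𝓞 K)) E e →
      ∃ h : ℝ, Tendsto (fun n : ℕ => Height.logHeight ((act F)^[n] x) /
          ((finrank ℚ L : ℝ) * ((p ^ r : ℕ) : ℝ) ^ n)) atTop (𝓝 h) ∧
        Real.exp (-(max γ₁ γ₂ * Real.sqrt (1 + Real.log (finrank N L)))) /
          (max γ₁ γ₂ * e * finrank N L) ≤ h := by
    intro e he hE'
    obtain ⟨h, h1, h2⟩ := core_relQ' (L := L) (N := N) (E := E) hA hconj hq hF hGhom hb hGi hGih
      hs (mi_ne_bot v) hgood he (Nat.le_add_left 1 B) hk hE1 hE' hgen hx hwand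
    refine ⟨h, h1, le_trans ?_ h2⟩
    have he' : (1 : ℝ) ≤ e := by exact_mod_cast he
    have h5 : γ₁ * Real.sqrt (1 + Real.log (finrank N L : ℝ)) ≤
        max γ₁ γ₂ * Real.sqrt (1 + Real.log (finrank N L : ℝ)) := by
      gcongr
      exact le_max_left _ _
    have h6 : γ₂ * e * finrank N L ≤ max γ₁ γ₂ * e * finrank N L := by
      gcongr
      exact le_max_right _ _
    have h7 : 0 < γ₂ * e * finrank N L := by positivity
    change _ ≤ Real.exp (-(γ₁ * Real.sqrt (1 + Real.log (finrank N L : ℝ)))) /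
      (γ₂ * e * finrank N L)
    gcongr
  obtain ⟨h, h1, h2⟩ := key (finrank K E) hfE (ramLe_finrank _ E)
  refine ⟨h, h1, h2, fun e he => ?_⟩
  rcases Nat.eq_zero_or_pos e with h0 | h0
  · rw [h0]
    simp only [Nat.cast_zero, mul_zero, zero_mul, div_zero]
    refine le_trans ?_ h2
    positivity
  · obtain ⟨h', h1', h2'⟩ := key e h0 he
    rw [tendsto_nhds_unique h1 h1']
    exact h2'

end

end Pool.Agent.Y740.RL
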