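import Mathlib
import Pool.Agent.Y740.RL.TopQ
import Pool.Agent.Y740.RL.Ell3

/-!
The lower bound over fields generated by torsion points, which need not be Galois.
-/

set_option autoImplicit false
set_option linter.unusedSectionVars false

namespace Pool.Agent.Y740.RL

open NumberField Module MvPolynomial Filter Topology Pool.Agent.H420R3
open scoped Pointwise

noncomputable section

section Emb

variable {K : Type*} [Field K] [NumberField K] {N : Type*} [Field N] [NumberField N]
  [Algebra K N] [DecidableEq N]
variable {Ω : Type*} [Field Ω] [DecidableEq Ω] [Algebra N Ω] [Algebra K Ω] [IsScalarTower K N Ω]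
variable (W : WeierstrassCurve.Affine K) (p : ℕ)

/-- the algebra homomorphism over `K` given by a homomorphism over the subfield -/
def gσ (f : N →ₐ[NX N W p] Ω) : N →ₐ[K] Ω := f.restrictScalars K

variable (K N Ω) in
/-- the structure map -/
def ιN : N →ₐ[K] Ω := IsScalarTower.toAlgHom K N Ω

lemma gσ_x (f : N →ₐ[NX N W p] Ω) {x : N} (hx : x ∈ xSet N W p) :
    gσ W p f x = ιN K N Ω x := by
  have h1 := f.commutes ⟨x, IntermediateField.subset_adjoin K _ hx⟩
  exact h1

lemma map_eq_orN (f : N →ₐ[NX N W p] Ω) {T : (W.baseChange N).Point} (hT : Tor p T) :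
    WeierstrassCurve.Affine.Point.map (W' := W) (gσ W p f) T =
      WeierstrassCurve.Affine.Point.map (W' := W) (ιN K N Ω) T ∨
    WeierstrassCurve.Affine.Point.map (W' := W) (gσ W p f) T =
      -WeierstrassCurve.Affine.Point.map (W' := W) (ιN K N Ω) T := by
  cases T with
  | zero => exact Or.inl rfl
  | some x y h =>
    rw [WeierstrassCurve.Affine.Point.map_some, WeierstrassCurve.Affine.Point.map_some]
    exact WeierstrassCurve.Affine.Point.X_eq_iff.mp (gσ_x W p f ⟨y, h, hT⟩)

lemma dichN (f : N →ₐ[NX N W p] Ω) :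
    (∀ T : (W.baseChange N).Point, Tor p T →
      WeierstrassCurve.Affine.Point.map (W' := W) (gσ W p f) T =
        WeierstrassCurve.Affine.Point.map (W' := W) (ιN K N Ω) T) ∨
    (∀ T : (W.baseChange N).Point, Tor p T →
      WeierstrassCurve.Affine.Point.map (W' := W) (gσ W p f) T =
        -WeierstrassCurve.Affine.Point.map (W' := W) (ιN K N Ω) T) := by
  by_contra hcon
  push Not at hcon
  obtain ⟨⟨T₁, hT₁, h₁⟩, T₂, hT₂, h₂⟩ := hcon
  have e₁ := (map_eq_orN W p f hT₁).resolve_left h₁
  have e₂ := (map_eq_orN W p f hT₂).resolve_right h₂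
  rcases map_eq_orN W p f (hT₁.add hT₂) with h | h
  · rw [map_add, map_add, e₁, e₂] at h
    exact h₁ (e₁.trans (add_right_cancel h))
  · rw [map_add, map_add, e₁, e₂, neg_add] at h
    exact h₂ (e₂.trans (add_left_cancel h))

lemma card_emb_le (hgen : Algebra.adjoin K (xySet N W p) = ⊤) :
    Nat.card (N →ₐ[NX N W p] Ω) ≤ 2 := by
  classical
  let s : (N →ₐ[NX N W p] Ω) → Bool := fun f => decide (∀ T : (W.baseChange N).Point, Tor p T →
      WeierstrassCurve.Affine.Point.map (W' := W) (gσ W p f) T =
        WeierstrassCurve.Affine.Point.map (W' := W) (ιN K N Ω) T)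
  have hs : Function.Injective s := by
    intro f f' hss
    have h1 : ∀ T : (W.baseChange N).Point, Tor p T →
        WeierstrassCurve.Affine.Point.map (W' := W) (gσ W p f) T =
        WeierstrassCurve.Affine.Point.map (W' := W) (gσ W p f') T := by
      intro T hT
      by_cases hσ : ∀ T : (W.baseChange N).Point, Tor p T →
          WeierstrassCurve.Affine.Point.map (W' := W) (gσ W p f) T =
            WeierstrassCurve.Affine.Point.map (W' := W) (ιN K N Ω) T
      · have hσ' : ∀ T : (W.baseChange N).Point, Tor p T →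
            WeierstrassCurve.Affine.Point.map (W' := W) (gσ W p f') T =
              WeierstrassCurve.Affine.Point.map (W' := W) (ιN K N Ω) T := by
          have e1 : s f = true := decide_eq_true hσ
          rw [hss] at e1
          exact of_decide_eq_true e1
        rw [hσ T hT, hσ' T hT]
      · have hσ' : ¬ ∀ T : (W.baseChange N).Point, Tor p T →
            WeierstrassCurve.Affine.Point.map (W' := W) (gσ W p f') T =
              WeierstrassCurve.Affine.Point.map (W' := W) (ιN K N Ω) T := by
          have e1 : s f = false := decide_eq_false hσ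
          rw [hss] at e1
          exact of_decide_eq_false e1
        rw [(dichN W p f).resolve_left hσ T hT, (dichN W p f').resolve_left hσ' T hT]
    have h2 : gσ W p f = gσ W p f' := by
      apply AlgHom.ext_of_adjoin_eq_top hgen
      rintro t ⟨x, y, h, hT, ht⟩
      have h3 := h1 _ hT
      rw [WeierstrassCurve.Affine.Point.map_some, WeierstrassCurve.Affine.Point.map_some] at h3
      have h4 := WeierstrassCurve.Affine.Point.some.inj h3
      rcases ht with rfl | rfl
      · exact h4.1
      · exact h4.2
    apply AlgHom.ext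
    intro x
    exact congrArg (fun f : N →ₐ[K] Ω => f x) h2
  have h3 := Nat.card_le_card_of_injective s hs
  simpa using h3

end Emb

lemma finrank_NX_leN {K : Type*} [Field K] [NumberField K] {N : Type*} [Field N] [NumberField N]
    [Algebra K N] [DecidableEq N] (W : WeierstrassCurve.Affine K) (p : ℕ)
    (hgen : Algebra.adjoin K (xySet N W p) = ⊤) :
    finrank (NX N W p) N ≤ 2 := by
  classical
  have h1 := card_emb_le (Ω := AlgebraicClosure N) W p hgen
  rw [Nat.card_eq_fintype_card, AlgHom.card (NX N W p) N (AlgebraicClosure N)] at h1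
  exact h1

/-- the bound over fields generated by torsion points of order prime to `p` -/
theorem torsion_topQ {K : Type} [Field K] [NumberField K] (W : WeierstrassCurve.Affine K)
    {p : ℕ} (hp : p.Prime)
    (F : Fin 2 → MvPolynomial (Fin 2) K) (hF : ∀ i, (F i).IsHomogeneous (p ^ 2))
    (K' : Type) [Field K'] [NumberField K'] [Algebra K K'] (A : Matrix (Fin 2) (Fin 2) K')
    (hA : A.det ≠ 0) (G : Fin 2 → MvPolynomial (Fin 2) K')
    (hGhom : ∀ i, (G i).IsHomogeneous (p ^ 2)) (hconj : Conj A F G) (v : FinitePlace K')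
    (hv : v (p : K') < 1) (hred : InsepAt v (p ^ 2) G) :
    ∃ C : ℝ, 0 < C ∧ ∀ (N L : Type) [Field N] [NumberField N]
      [Field L] [NumberField L] [DecidableEq N] [DecidableEq L] [Algebra K N] [Algebra K L]
      [Algebra N L] [IsScalarTower K N L],
      (∀ Q : (W.baseChange N).Point, ∃ c : N, c ≠ 0 ∧ act F (xc Q) = c • xc (p • Q)) →
      (∀ Q : (W.baseChange L).Point, ∃ c : L, c ≠ 0 ∧ act F (xc Q) = c • xc (p • Q)) →
      Algebra.adjoin K (xySet N W p) = ⊤ →
      ∀ P : (W.baseChange L).Point, ¬ IsOfFinAddOrder P →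
      ∃ h : ℝ, Tendsto (fun k : ℕ => Height.logHeight (xc (p ^ k • P)) /
          ((finrank ℚ L : ℝ) * (p : ℝ) ^ (2 * k))) atTop (𝓝 h) ∧
        Real.exp (-(C * Real.sqrt (1 + Real.log (finrank N L)))) /
          (C * finrank N L) ≤ h := by
  obtain ⟨C, hC, hmain⟩ := topQ hp (by norm_num : 1 ≤ 2) F hF K' A hA G hGhom hconj v hv hred
    1 1 le_rfl
  refine ⟨2 * C, by positivity, ?_⟩
  intro N L _ _ _ _ _ _ _ _ _ _ hmulN hmulL hgen P hP
  have hst : IsScalarTower K (NX N W p) L := inferInstance
  obtain ⟨h, hlim, hb, -⟩ := hmain K (NX N W p) L (fewConj_self _)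
    (adjoin_per hp.two_le hF hmulN) (xc P) (xc_ne_zero P) (wandering_xc hp.two_le hF hmulL hP)
  refine ⟨h, ?_, ?_⟩
  · refine hlim.congr fun k => ?_
    obtain ⟨c, hc, hc'⟩ := iter_xc hF hmulL P k
    rw [hc', Height.logHeight_smul_eq_logHeight _ hc]
    congr 1
    push_cast
    rw [← pow_mul]
  · refine le_trans ?_ hb
    have hst2 : IsScalarTower (NX N W p) N L := inferInstance
    have h1 : finrank (NX N W p) L = finrank (NX N W p) N * finrank N L :=
      (finrank_mul_finrank (NX N W p) N L).symm
    have h2 := finrank_NX_leN W p hgen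
    have h3 : (finrank (NX N W p) L : ℝ) ≤ 2 * finrank N L := by
      rw [h1]
      push_cast
      have : (finrank (NX N W p) N : ℝ) ≤ 2 := by exact_mod_cast h2
      gcongr
    have h4 : (1 : ℝ) ≤ finrank (NX N W p) L := by
      exact_mod_cast (finrank_pos : 0 < finrank (NX N W p) L)
    have h5 : (1 : ℝ) ≤ finrank N L := by exact_mod_cast (finrank_pos : 0 < finrank N L)
    set D : ℝ := (finrank N L : ℝ) with hD
    set D' : ℝ := (finrank (NX N W p) L : ℝ) with hD'
    have hl : 0 ≤ Real.log D := Real.log_nonneg h5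
    have h6 : Real.sqrt (1 + Real.log D') ≤ 2 * Real.sqrt (1 + Real.log D) := by
      rw [← Real.sqrt_sq (by norm_num : (0 : ℝ) ≤ 2), ← Real.sqrt_mul (by norm_num)]
      apply Real.sqrt_le_sqrt
      have h7 : Real.log D' ≤ Real.log (2 * D) := Real.log_le_log (by linarith) h3
      rw [Real.log_mul (by norm_num) (by linarith)] at h7
      have h8 : Real.log 2 ≤ 1 := by
        have := Real.log_two_lt_d9
        linarith
      linarith
    rw [finrank_self, Nat.cast_one, mul_one]
    have h7 : C * Real.sqrt (1 + Real.log D') ≤ 2 * C * Real.sqrt (1 + Real.log D) := by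
      calc C * Real.sqrt (1 + Real.log D') ≤ C * (2 * Real.sqrt (1 + Real.log D)) := by gcongr
        _ = _ := by ring
    have h8 : C * D' ≤ 2 * C * D := by
      calc C * D' ≤ C * (2 * D) := by gcongr
        _ = _ := by ring
    have h9 : 0 < C * D' := by positivity
    gcongr

end

end Pool.Agent.Y740.RL
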