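import Mathlib
import Pool.Agent.Y740.RL.Ell4

/-!
The Bogomolov property of the finite extensions of fields generated by torsion points.
-/

set_option autoImplicit false
set_option linter.unusedSectionVars false

namespace Pool.Agent.Y740.RL

open NumberField Module MvPolynomial Filter Topology Pool.Agent.H420R3
open scoped Pointwise

noncomputable section

section Desc

variable {K : Type*} [Field K] {Ω : Type*} [Field Ω] [Algebra K Ω]

/-- the degree of an algebraic element over a field is attained over a finitely generated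
subfield -/
lemma exists_finite_level (S : Set Ω) (β : Ω)
    (hβ : IsIntegral (IntermediateField.adjoin K S) β) :
    ∃ T : Set Ω, T.Finite ∧ T ⊆ S ∧ ∀ N : IntermediateField K Ω, T ⊆ N →
      (minpoly N β).natDegree ≤ (minpoly (IntermediateField.adjoin K S) β).natDegree := by
  classical
  set μ := minpoly (IntermediateField.adjoin K S) β with hμ
  have h1 : ∀ i : ℕ, ∃ T : Finset Ω, (T : Set Ω) ⊆ S ∧
      ((μ.coeff i : IntermediateField.adjoin K S) : Ω) ∈ IntermediateField.adjoin K (T : Set Ω) :=
    fun i => IntermediateField.exists_finset_of_mem_adjoin (μ.coeff i).2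
  choose T hT hTm using h1
  refine ⟨((Finset.range (μ.natDegree + 1)).biUnion T : Finset Ω), Finset.finite_toSet _, ?_, ?_⟩
  · intro x hx
    rw [Finset.mem_coe, Finset.mem_biUnion] at hx
    obtain ⟨i, -, hx⟩ := hx
    exact hT i hx
  · intro N hN
    have h2 : ∀ i, ((μ.coeff i : IntermediateField.adjoin K S) : Ω) ∈ N := by
      intro i
      rcases lt_or_ge i (μ.natDegree + 1) with hi | hi
      · have h3 : IntermediateField.adjoin K (T i : Set Ω) ≤ N := by
          rw [IntermediateField.adjoin_le_iff]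
          intro x hx
          apply hN
          rw [Finset.mem_coe, Finset.mem_biUnion]
          exact ⟨i, Finset.mem_range.mpr hi, hx⟩
        exact h3 (hTm i)
      · rw [Polynomial.coeff_eq_zero_of_natDegree_lt (by omega)]
        exact N.zero_mem
    set q : Polynomial Ω := μ.map (algebraMap (IntermediateField.adjoin K S) Ω) with hq
    have h3 : q ∈ Polynomial.lifts (algebraMap N Ω) := by
      rw [Polynomial.lifts_iff_coeff_lifts]
      intro i
      rw [hq, Polynomial.coeff_map]
      exact ⟨⟨_, h2 i⟩, rfl⟩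
    rw [Polynomial.mem_lifts] at h3
    obtain ⟨q', hq'⟩ := h3
    have hdeg : q'.natDegree = μ.natDegree := by
      have h4 : (q'.map (algebraMap N Ω)).natDegree = q'.natDegree :=
        Polynomial.natDegree_map _
      have h5 : q.natDegree = μ.natDegree := Polynomial.natDegree_map _
      rw [← h4, hq', h5]
    have hμ0 : μ ≠ 0 := minpoly.ne_zero hβ
    have hq0 : q' ≠ 0 := by
      rintro rfl
      rw [Polynomial.map_zero] at hq'
      exact hμ0 ((Polynomial.map_eq_zero _).mp hq'.symm)
    have hroot : Polynomial.aeval β q' = 0 := by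
      have h6 : Polynomial.aeval β μ = 0 := minpoly.aeval _ _
      rw [Polynomial.aeval_def, Polynomial.eval₂_eq_eval_map] at h6 ⊢
      rw [hq']
      exact h6
    rw [← hdeg]
    exact Polynomial.natDegree_le_natDegree (minpoly.degree_le_of_ne_zero N β hq0 hroot)

end Desc

section Tors2

variable {K : Type*} [Field K] {Ω : Type*} [Field Ω] [Algebra K Ω] [DecidableEq Ω]
variable (W : WeierstrassCurve.Affine K) (p : ℕ)

/-- coordinates of the points of a set of points -/
def coords (Γ : Set (W.baseChange Ω).Point) : Set Ω :=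
  {t | ∃ (x y : Ω) (h : (W.baseChange Ω).Nonsingular x y),
    (WeierstrassCurve.Affine.Point.some x y h : (W.baseChange Ω).Point) ∈ Γ ∧ (t = x ∨ t = y)}

/-- a finite set of coordinates is contained in the set of coordinates of finitely many points -/
lemma exists_closed (Γ : Set (W.baseChange Ω).Point) (T : Set Ω) (hfin : T.Finite)
    (hT : T ⊆ coords W Γ) :
    ∃ T' : Set Ω, T'.Finite ∧ T ⊆ T' ∧ T' ⊆ coords W Γ ∧
      ∀ t ∈ T', ∃ x y : Ω, x ∈ T' ∧ y ∈ T' ∧ (∃ h : (W.baseChange Ω).Nonsingular x y,
        (WeierstrassCurve.Affine.Point.some x y h : (W.baseChange Ω).Point) ∈ Γ) ∧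
        (t = x ∨ t = y) := by
  have h0 : ∀ t ∈ T, ∃ x y : Ω, (∃ h : (W.baseChange Ω).Nonsingular x y,
      (WeierstrassCurve.Affine.Point.some x y h : (W.baseChange Ω).Point) ∈ Γ) ∧
        (t = x ∨ t = y) := by
    intro t ht
    obtain ⟨x, y, h, h1, h2⟩ := hT ht
    exact ⟨x, y, ⟨h, h1⟩, h2⟩
  choose! X Y h1 h2 using h0
  have h3 : ∀ t' ∈ X '' T ∪ Y '' T, ∃ x y : Ω, x ∈ X '' T ∪ Y '' T ∧ y ∈ X '' T ∪ Y '' T ∧
      (∃ h : (W.baseChange Ω).Nonsingular x y,
        (WeierstrassCurve.Affine.Point.some x y h : (W.baseChange Ω).Point) ∈ Γ) ∧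
        (t' = x ∨ t' = y) := by
    rintro t' (⟨t, ht, rfl⟩ | ⟨t, ht, rfl⟩)
    · exact ⟨X t, Y t, Or.inl ⟨t, ht, rfl⟩, Or.inr ⟨t, ht, rfl⟩, h1 t ht, Or.inl rfl⟩
    · exact ⟨X t, Y t, Or.inl ⟨t, ht, rfl⟩, Or.inr ⟨t, ht, rfl⟩, h1 t ht, Or.inr rfl⟩
  refine ⟨X '' T ∪ Y '' T, (hfin.image X).union (hfin.image Y), ?_, ?_, h3⟩
  · intro t ht
    rcases h2 t ht with h | h
    · exact Or.inl ⟨t, ht, h.symm⟩
    · exact Or.inr ⟨t, ht, h.symm⟩
  · intro t' ht'
    obtain ⟨x, y, -, -, ⟨h, h4⟩, h5⟩ := h3 t' ht'
    exact ⟨x, y, h, h4, h5⟩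

/-- a field generated by coordinates of points of order prime to `p` -/
lemma adjoin_xySet [Algebra.IsAlgebraic K Ω] (Γ : Set (W.baseChange Ω).Point)
    (hΓ : ∀ P ∈ Γ, Tor p P) (T : Set Ω)
    (hT : ∀ t ∈ T, ∃ x y : Ω, x ∈ T ∧ y ∈ T ∧ (∃ h : (W.baseChange Ω).Nonsingular x y,
        (WeierstrassCurve.Affine.Point.some x y h : (W.baseChange Ω).Point) ∈ Γ) ∧
        (t = x ∨ t = y)) :
    Algebra.adjoin K (xySet (IntermediateField.adjoin K T) W p) = ⊤ := by
  set N := IntermediateField.adjoin K T with hN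
  rw [eq_top_iff]
  have hsub : {x : N | (x : Ω) ∈ T} ⊆ xySet N W p := by
    intro t ht
    obtain ⟨x, y, hx, hy, ⟨h, hP⟩, hxy⟩ := hT _ ht
    let x' : N := ⟨x, IntermediateField.subset_adjoin K T hx⟩
    let y' : N := ⟨y, IntermediateField.subset_adjoin K T hy⟩
    have h' : (W.baseChange N).Nonsingular x' y' :=
      (W.baseChange_nonsingular (f := N.val) N.val.injective x' y').mp h
    refine ⟨x', y', h', ?_, ?_⟩
    · obtain ⟨m, hm, hm'⟩ := hΓ _ hP
      refine ⟨m, hm, ?_⟩
      apply WeierstrassCurve.Affine.Point.map_injective (W' := W) (f := N.val)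
      rw [map_nsmul, WeierstrassCurve.Affine.Point.map_some]
      exact hm'
    · rcases hxy with h1 | h1
      · exact Or.inl (Subtype.ext h1)
      · exact Or.inr (Subtype.ext h1)
  refine le_trans ?_ (Algebra.adjoin_mono hsub)
  intro z _
  have h1 : (z : Ω) ∈ N.toSubalgebra := z.2
  have h2 : N.toSubalgebra = Algebra.adjoin K T :=
    IntermediateField.adjoin_toSubalgebra_of_isAlgebraic fun x _ => Algebra.IsAlgebraic.isAlgebraic x
  have h3 : (N.val : N → Ω) '' {x : N | (x : Ω) ∈ T} = T := by
    ext x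
    constructor
    · rintro ⟨x', hx', rfl⟩
      exact hx'
    · intro hx
      exact ⟨⟨x, IntermediateField.subset_adjoin K _ hx⟩, hx, rfl⟩
  rw [h2, ← h3, ← AlgHom.map_adjoin] at h1
  obtain ⟨a, ha, haz⟩ := h1
  have : a = z := Subtype.ext haz
  rw [← this]
  exact ha

end Tors2

section Tr

variable {K : Type} [Field K] {L' : Type} [Field L'] [NumberField L'] {L : Type} [Field L]
  [NumberField L] [Algebra K L'] [Algebra K L] [DecidableEq L'] [DecidableEq L]
variable (W : WeierstrassCurve.Affine K)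

lemma xc_map (j : L' →ₐ[K] L) (Q : (W.baseChange L').Point) :
    xc (WeierstrassCurve.Affine.Point.map (W' := W) j Q) = fun i => j (xc Q i) := by
  cases Q with
  | zero =>
    ext i
    fin_cases i
    · exact (map_one j).symm
    · exact (map_zero j).symm
  | some x y h =>
    ext i
    fin_cases i
    · rfl
    · exact (map_one j).symm

/-- the heights of a point and its image over a larger field -/
lemma height_map (j : L' →ₐ[K] L) (p : ℕ) (P : (W.baseChange L').Point) (k : ℕ) :
    Height.logHeight (xc (p ^ k • WeierstrassCurve.Affine.Point.map (W' := W) j P)) /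
        ((finrank ℚ L : ℝ) * (p : ℝ) ^ (2 * k)) =
      Height.logHeight (xc (p ^ k • P)) / ((finrank ℚ L' : ℝ) * (p : ℝ) ^ (2 * k)) := by
  let _ : Algebra L' L := j.toRingHom.toAlgebra
  have h1 : (finrank ℚ L : ℝ) = finrank ℚ L' * finrank L' L := by
    exact_mod_cast (finrank_mul_finrank ℚ L' L).symm
  have h2 : (0 : ℝ) < finrank L' L := by
    exact_mod_cast (finrank_pos : 0 < finrank L' L)
  have h3 : (0 : ℝ) < finrank ℚ L' := by
    exact_mod_cast (finrank_pos : 0 < finrank ℚ L')
  rw [← map_nsmul, xc_map]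
  have h4 : Height.logHeight (fun i => algebraMap L' L (xc (p ^ k • P) i)) =
      finrank L' L * Height.logHeight (xc (p ^ k • P)) := Helper259.HtExt.logHeight_ext _
  have h5 : (fun i => j (xc (p ^ k • P) i)) = fun i => algebraMap L' L (xc (p ^ k • P) i) := rfl
  rw [h5, h4, h1]
  rw [mul_comm (finrank ℚ L' : ℝ), mul_assoc, mul_div_mul_left _ _ h2.ne']

end Tr

/-- finite extensions of fields generated by torsion points have the Bogomolov property -/
theorem bog {K : Type} [Field K] [NumberField K] (W : WeierstrassCurve.Affine K)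
    {p : ℕ} (hp : p.Prime)
    (F : Fin 2 → MvPolynomial (Fin 2) K) (hF : ∀ i, (F i).IsHomogeneous (p ^ 2))
    (K' : Type) [Field K'] [NumberField K'] [Algebra K K'] (A : Matrix (Fin 2) (Fin 2) K')
    (hA : A.det ≠ 0) (G : Fin 2 → MvPolynomial (Fin 2) K')
    (hGhom : ∀ i, (G i).IsHomogeneous (p ^ 2)) (hconj : Conj A F G) (v : FinitePlace K')
    (hv : v (p : K') < 1) (hred : InsepAt v (p ^ 2) G)
    (hmul : ∀ (L : Type) [Field L] [NumberField L] [Algebra K L] [DecidableEq L]
      (Q : (W.baseChange L).Point), ∃ c : L, c ≠ 0 ∧ act F (xc Q) = c • xc (p • Q)) :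
    ∃ C : ℝ, 0 < C ∧ ∀ (Ω : Type) [Field Ω] [Algebra K Ω] [Algebra.IsAlgebraic K Ω]
      [DecidableEq Ω] (Γ : Set (W.baseChange Ω).Point), (∀ P ∈ Γ, Tor p P) →
      ∀ (M : IntermediateField (IntermediateField.adjoin K (coords W Γ)) Ω)
      [FiniteDimensional (IntermediateField.adjoin K (coords W Γ)) M]
      (L' : Type) [Field L'] [NumberField L'] [Algebra K L'] [DecidableEq L'],
      (L' →ₐ[K] M) → ∀ P : (W.baseChange L').Point, ¬ IsOfFinAddOrder P →
      ∃ h : ℝ, Tendsto (fun k : ℕ => Height.logHeight (xc (p ^ k • P)) /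
          ((finrank ℚ L' : ℝ) * (p : ℝ) ^ (2 * k))) atTop (𝓝 h) ∧
        Real.exp (-(C * Real.sqrt (1 + Real.log
          (finrank (IntermediateField.adjoin K (coords W Γ)) M)))) /
          (C * finrank (IntermediateField.adjoin K (coords W Γ)) M) ≤ h := by
  obtain ⟨C, hC, hmain⟩ := torsion_topQ W hp F hF K' A hA G hGhom hconj v hv hred
  refine ⟨C, hC, ?_⟩
  intro Ω _ _ _ _ Γ hΓ M _ L' _ _ _ _ ι P hP
  obtain ⟨α, hα⟩ := Field.exists_primitive_element K L'
  let ψ : L' →ₐ[K] Ω := (M.val.restrictScalars K).comp ι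
  set β : Ω := ψ α with hβ
  have hβM : β = M.val (ι α) := rfl
  have hβint : IsIntegral (IntermediateField.adjoin K (coords W Γ)) β := by
    rw [hβM]
    exact (Algebra.IsIntegral.isIntegral (R := IntermediateField.adjoin K (coords W Γ)) (ι α)).map M.val
  have hdeg : (minpoly (IntermediateField.adjoin K (coords W Γ)) β).natDegree ≤ finrank (IntermediateField.adjoin K (coords W Γ)) M := by
    rw [hβM, minpoly.algHom_eq M.val M.val.injective (ι α)]
    exact minpoly.natDegree_le _
  obtain ⟨T, hTfin, hTsub, hTmin⟩ := exists_finite_level (coords W Γ) β hβint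
  obtain ⟨T', hT'fin, hTT', hT'sub, hT'⟩ := exists_closed W Γ T hTfin hTsub
  have hgen := adjoin_xySet W p Γ hΓ T' hT'
  set N := IntermediateField.adjoin K T' with hN
  have i1 : Finite T' := hT'fin.to_subtype
  have i2 : FiniteDimensional K N :=
    IntermediateField.finiteDimensional_adjoin (fun x _ => Algebra.IsIntegral.isIntegral x)
  have i3 : NumberField N := NumberField.of_module_finite K N
  have hβN : IsIntegral N β := Algebra.IsIntegral.isIntegral β
  let L : IntermediateField N Ω := IntermediateField.adjoin N {β}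
  have i4 : FiniteDimensional N L := IntermediateField.adjoin.finiteDimensional hβN
  have i5 : NumberField L := NumberField.of_module_finite N L
  have hLdeg : finrank N L = (minpoly N β).natDegree := IntermediateField.adjoin.finrank hβN
  have hle : finrank N L ≤ finrank (IntermediateField.adjoin K (coords W Γ)) M := by
    rw [hLdeg]
    exact (hTmin N (hTT'.trans (IntermediateField.subset_adjoin K T'))).trans hdeg
  have hrange : ∀ x : L', ψ x ∈ L := by
    intro x
    have h1 : x ∈ (⊤ : IntermediateField K L') := IntermediateField.mem_top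
    rw [← hα] at h1
    have h2 : ψ x ∈ (IntermediateField.adjoin K {α}).map ψ := ⟨x, h1, rfl⟩
    rw [IntermediateField.adjoin_map, Set.image_singleton] at h2
    have h3 : IntermediateField.adjoin K {ψ α} ≤ L.restrictScalars K := by
      rw [IntermediateField.adjoin_le_iff]
      rintro _ rfl
      exact IntermediateField.mem_adjoin_simple_self N β
    exact h3 h2
  let j : L' →ₐ[K] L :=
    { toFun := fun x => ⟨ψ x, hrange x⟩
      map_one' := Subtype.ext (map_one ψ)
      map_mul' := fun a b => Subtype.ext (map_mul ψ a b)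
      map_zero' := Subtype.ext (map_zero ψ)
      map_add' := fun a b => Subtype.ext (map_add ψ a b)
      commutes' := fun r => Subtype.ext (ψ.commutes r) }
  have hPL : ¬ IsOfFinAddOrder (WeierstrassCurve.Affine.Point.map (W' := W) j P) := by
    rw [isOfFinAddOrder_iff_nsmul_eq_zero] at hP ⊢
    rintro ⟨n, hn, h⟩
    refine hP ⟨n, hn, ?_⟩
    apply WeierstrassCurve.Affine.Point.map_injective (W' := W) (f := j)
    rw [map_nsmul, h]
    rfl
  obtain ⟨h, hlim, hb⟩ := hmain N L (hmul N) (hmul L) hgen _ hPL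
  refine ⟨h, hlim.congr fun k => height_map W j p P k, le_trans ?_ hb⟩
  have h5 : (1 : ℝ) ≤ finrank N L := by exact_mod_cast (finrank_pos : 0 < finrank N L)
  have h6 : (finrank N L : ℝ) ≤ finrank (IntermediateField.adjoin K (coords W Γ)) M := by exact_mod_cast hle
  have h7 : Real.log (finrank N L) ≤ Real.log (finrank (IntermediateField.adjoin K (coords W Γ)) M) :=
    Real.log_le_log (by linarith) h6
  have h8 : 0 < C * (finrank N L : ℝ) := by positivity
  gcongr

end

end Pool.Agent.Y740.RL
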