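import Mathlib
import Pool.Agent.Y740.RL.Bog

/-!
The lower bound over fields generated by torsion points over an extension with few conjugates.
-/

set_option autoImplicit false
set_option linter.unusedSectionVars false

namespace Pool.Agent.Y740.RL

open NumberField Module MvPolynomial Filter Topology Pool.Agent.H420R3
open scoped Pointwise

noncomputable section

section EmbE

variable {K : Type*} [Field K] [NumberField K] {E : Type*} [Field E] [NumberField E]
  {N : Type*} [Field N] [NumberField N]
  [Algebra K N] [Algebra K E] [Algebra E N] [IsScalarTower K E N] [DecidableEq N]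
variable {Ω : Type*} [Field Ω] [DecidableEq Ω] [Algebra N Ω] [Algebra K Ω] [IsScalarTower K N Ω]
variable (W : WeierstrassCurve.Affine K) (p : ℕ)

variable (E N) in
/-- the field generated over `E` by the first coordinates -/
abbrev NXE : IntermediateField E N := IntermediateField.adjoin E (xSet N W p)

instance towKNX : IsScalarTower K (NXE E N W p) Ω := by
  refine IsScalarTower.of_algebraMap_eq fun x => ?_
  rw [IsScalarTower.algebraMap_apply K N Ω]
  rfl

/-- the algebra homomorphism over `K` given by a homomorphism over the subfield -/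
def gσE (f : N →ₐ[NXE E N W p] Ω) : N →ₐ[K] Ω := f.restrictScalars K

lemma gσE_x (f : N →ₐ[NXE E N W p] Ω) {x : N} (hx : x ∈ xSet N W p) :
    gσE W p f x = ιN K N Ω x := by
  have h1 := f.commutes ⟨x, IntermediateField.subset_adjoin E _ hx⟩
  exact h1

lemma map_eq_orE (f : N →ₐ[NXE E N W p] Ω) {T : (W.baseChange N).Point} (hT : Tor p T) :
    WeierstrassCurve.Affine.Point.map (W' := W) (gσE W p f) T =
      WeierstrassCurve.Affine.Point.map (W' := W) (ιN K N Ω) T ∨
    WeierstrassCurve.Affine.Point.map (W' := W) (gσE W p f) T =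
      -WeierstrassCurve.Affine.Point.map (W' := W) (ιN K N Ω) T := by
  cases T with
  | zero => exact Or.inl rfl
  | some x y h =>
    rw [WeierstrassCurve.Affine.Point.map_some, WeierstrassCurve.Affine.Point.map_some]
    exact WeierstrassCurve.Affine.Point.X_eq_iff.mp (gσE_x W p f ⟨y, h, hT⟩)

lemma dichE (f : N →ₐ[NXE E N W p] Ω) :
    (∀ T : (W.baseChange N).Point, Tor p T →
      WeierstrassCurve.Affine.Point.map (W' := W) (gσE W p f) T =
        WeierstrassCurve.Affine.Point.map (W' := W) (ιN K N Ω) T) ∨
    (∀ T : (W.baseChange N).Point, Tor p T →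
      WeierstrassCurve.Affine.Point.map (W' := W) (gσE W p f) T =
        -WeierstrassCurve.Affine.Point.map (W' := W) (ιN K N Ω) T) := by
  by_contra hcon
  push Not at hcon
  obtain ⟨⟨T₁, hT₁, h₁⟩, T₂, hT₂, h₂⟩ := hcon
  have e₁ := (map_eq_orE W p f hT₁).resolve_left h₁
  have e₂ := (map_eq_orE W p f hT₂).resolve_right h₂
  rcases map_eq_orE W p f (hT₁.add hT₂) with h | h
  · rw [map_add, map_add, e₁, e₂] at h
    exact h₁ (e₁.trans (add_right_cancel h))
  · rw [map_add, map_add, e₁, e₂, neg_add] at h
    exact h₂ (e₂.trans (add_left_cancel h))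

lemma card_embE_le (hgen : Algebra.adjoin E (xySet N W p) = ⊤) :
    Nat.card (N →ₐ[NXE E N W p] Ω) ≤ 2 := by
  classical
  let s : (N →ₐ[NXE E N W p] Ω) → Bool := fun f => decide (∀ T : (W.baseChange N).Point, Tor p T →
      WeierstrassCurve.Affine.Point.map (W' := W) (gσE W p f) T =
        WeierstrassCurve.Affine.Point.map (W' := W) (ιN K N Ω) T)
  have hs : Function.Injective s := by
    intro f f' hss
    have h1 : ∀ T : (W.baseChange N).Point, Tor p T →
        WeierstrassCurve.Affine.Point.map (W' := W) (gσE W p f) T =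
        WeierstrassCurve.Affine.Point.map (W' := W) (gσE W p f') T := by
      intro T hT
      by_cases hσ : ∀ T : (W.baseChange N).Point, Tor p T →
          WeierstrassCurve.Affine.Point.map (W' := W) (gσE W p f) T =
            WeierstrassCurve.Affine.Point.map (W' := W) (ιN K N Ω) T
      · have hσ' : ∀ T : (W.baseChange N).Point, Tor p T →
            WeierstrassCurve.Affine.Point.map (W' := W) (gσE W p f') T =
              WeierstrassCurve.Affine.Point.map (W' := W) (ιN K N Ω) T := by
          have e1 : s f = true := decide_eq_true hσ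
          rw [hss] at e1
          exact of_decide_eq_true e1
        rw [hσ T hT, hσ' T hT]
      · have hσ' : ¬ ∀ T : (W.baseChange N).Point, Tor p T →
            WeierstrassCurve.Affine.Point.map (W' := W) (gσE W p f') T =
              WeierstrassCurve.Affine.Point.map (W' := W) (ιN K N Ω) T := by
          have e1 : s f = false := decide_eq_false hσ
          rw [hss] at e1
          exact of_decide_eq_false e1
        rw [(dichE W p f).resolve_left hσ T hT, (dichE W p f').resolve_left hσ' T hT]
    have h2 : ∀ z ∈ Algebra.adjoin E (xySet N W p), f z = f' z := by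
      intro z hz
      induction hz using Algebra.adjoin_induction with
      | mem t ht =>
        obtain ⟨x, y, h, hT, ht⟩ := ht
        have h3 := h1 _ hT
        rw [WeierstrassCurve.Affine.Point.map_some, WeierstrassCurve.Affine.Point.map_some] at h3
        have h4 := WeierstrassCurve.Affine.Point.some.inj h3
        rcases ht with rfl | rfl
        · exact h4.1
        · exact h4.2
      | algebraMap r =>
        have h5 : algebraMap E N r = algebraMap (NXE E N W p) N (algebraMap E (NXE E N W p) r) :=
          rfl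
        rw [h5, f.commutes, f'.commutes]
      | add x y _ _ h5 h6 => rw [map_add, map_add, h5, h6]
      | mul x y _ _ h5 h6 => rw [map_mul, map_mul, h5, h6]
    apply AlgHom.ext
    intro x
    exact h2 x (hgen ▸ Algebra.mem_top)
  have h3 := Nat.card_le_card_of_injective s hs
  simpa using h3

end EmbE

section PerE

variable {K : Type*} [Field K] [NumberField K] {E : Type*} [Field E] [NumberField E]
  {N : Type*} [Field N] [NumberField N]
  [Algebra K N] [Algebra K E] [Algebra E N] [IsScalarTower K E N] [DecidableEq N]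
variable {W : WeierstrassCurve.Affine K} {p : ℕ}
variable {F : Fin 2 → MvPolynomial (Fin 2) K} {q : ℕ}

lemma mem_perSetE (hp : 2 ≤ p) (hF : ∀ i, (F i).IsHomogeneous q)
    (hmul : ∀ P : (W.baseChange N).Point, ∃ c : N, c ≠ 0 ∧ act F (xc P) = c • xc (p • P))
    {x : NXE E N W p} (hx : (x : N) ∈ xSet N W p) : x ∈ PerSet F (NXE E N W p) := by
  obtain ⟨j, hj, c, hc, h⟩ := per_x hp hF hmul hx
  set w := (act F)^[j] (![x, 1] : Fin 2 → NXE E N W p) with hw
  have h1 : (fun i => algebraMap (NXE E N W p) N (w i)) = c • (![(x : N), 1] : Fin 2 → N) := by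
    rw [← h, hw, ← act_iter_base]
    congr 1
    funext i
    fin_cases i
    · rfl
    · exact map_one _
  have h10 : algebraMap (NXE E N W p) N (w 0) = c * x := congrFun h1 0
  have h11 : algebraMap (NXE E N W p) N (w 1) = c := by
    have := congrFun h1 1
    simpa using this
  refine ⟨j, hj, w 1, ?_, ?_⟩
  · intro h0
    rw [h0, map_zero] at h11
    exact hc h11.symm
  · funext i
    apply (algebraMap (NXE E N W p) N).injective
    fin_cases i
    · change algebraMap (NXE E N W p) N (w 0) = algebraMap (NXE E N W p) N (w 1 * x)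
      rw [map_mul, h11, h10]
      rfl
    · change algebraMap (NXE E N W p) N (w 1) = algebraMap (NXE E N W p) N (w 1 * 1)
      rw [mul_one]

lemma adjoin_perE (hp : 2 ≤ p) (hF : ∀ i, (F i).IsHomogeneous q)
    (hmul : ∀ P : (W.baseChange N).Point, ∃ c : N, c ≠ 0 ∧ act F (xc P) = c • xc (p • P)) :
    Algebra.adjoin E (PerSet F (NXE E N W p)) = ⊤ := by
  rw [eq_top_iff]
  have hsub : {x : NXE E N W p | (x : N) ∈ xSet N W p} ⊆ PerSet F (NXE E N W p) := fun x hx =>
    mem_perSetE hp hF hmul hx
  refine le_trans ?_ (Algebra.adjoin_mono hsub)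
  intro z _
  have h1 : (z : N) ∈ (NXE E N W p).toSubalgebra := z.2
  have h2 : (NXE E N W p).toSubalgebra = Algebra.adjoin E (xSet N W p) :=
    IntermediateField.adjoin_toSubalgebra_of_isAlgebraic fun x _ => Algebra.IsAlgebraic.isAlgebraic x
  have h3 : ((NXE E N W p).val : NXE E N W p → N) '' {x : NXE E N W p | (x : N) ∈ xSet N W p} =
      xSet N W p := by
    ext x
    constructor
    · rintro ⟨x', hx', rfl⟩
      exact hx'
    · intro hx
      exact ⟨⟨x, IntermediateField.subset_adjoin E _ hx⟩, hx, rfl⟩
  rw [h2, ← h3, ← AlgHom.map_adjoin] at h1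
  obtain ⟨a, ha, haz⟩ := h1
  have : a = z := Subtype.ext haz
  rw [← this]
  exact ha

end PerE

lemma finrank_NXE_le {K : Type*} [Field K] [NumberField K] {E : Type*} [Field E] [NumberField E]
    {N : Type*} [Field N] [NumberField N]
    [Algebra K N] [Algebra K E] [Algebra E N] [IsScalarTower K E N] [DecidableEq N] (W : WeierstrassCurve.Affine K) (p : ℕ)
    (hgen : Algebra.adjoin E (xySet N W p) = ⊤) :
    finrank (NXE E N W p) N ≤ 2 := by
  classical
  have h1 := card_embE_le (Ω := AlgebraicClosure N) W p hgen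
  rw [Nat.card_eq_fintype_card, AlgHom.card (NXE E N W p) N (AlgebraicClosure N)] at h1
  exact h1

/-- the bound over fields generated by torsion points of order prime to `p` -/
theorem torsion_topE {K : Type} [Field K] [NumberField K] (W : WeierstrassCurve.Affine K)
    {p : ℕ} (hp : p.Prime)
    (F : Fin 2 → MvPolynomial (Fin 2) K) (hF : ∀ i, (F i).IsHomogeneous (p ^ 2))
    (K' : Type) [Field K'] [NumberField K'] [Algebra K K'] (A : Matrix (Fin 2) (Fin 2) K')
    (hA : A.det ≠ 0) (G : Fin 2 → MvPolynomial (Fin 2) K')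
    (hGhom : ∀ i, (G i).IsHomogeneous (p ^ 2)) (hconj : Conj A F G) (v : FinitePlace K')
    (hv : v (p : K') < 1) (hred : InsepAt v (p ^ 2) G) (B n : ℕ) (hn : 1 ≤ n) :
    ∃ C : ℝ, 0 < C ∧ ∀ (E N L : Type) [Field E] [NumberField E] [Field N] [NumberField N]
      [Field L] [NumberField L] [DecidableEq N] [DecidableEq L] [Algebra K E] [Algebra K N]
      [Algebra K L] [Algebra E N] [Algebra N L] [IsScalarTower K E N] [IsScalarTower K N L]
      [IsGalois K E], FewConj ((mi v).under (𝓞 K)) E B n →
      (∀ Q : (W.baseChange N).Point, ∃ c : N, c ≠ 0 ∧ act F (xc Q) = c • xc (p • Q)) →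
      (∀ Q : (W.baseChange L).Point, ∃ c : L, c ≠ 0 ∧ act F (xc Q) = c • xc (p • Q)) →
      Algebra.adjoin E (xySet N W p) = ⊤ →
      ∀ P : (W.baseChange L).Point, ¬ IsOfFinAddOrder P →
      ∃ h : ℝ, Tendsto (fun k : ℕ => Height.logHeight (xc (p ^ k • P)) /
          ((finrank ℚ L : ℝ) * (p : ℝ) ^ (2 * k))) atTop (𝓝 h) ∧
        ∀ e : ℕ, RamLe ((mi v).under (𝓞 K)) E e →
          Real.exp (-(C * Real.sqrt (1 + Real.log (finrank N L)))) /
            (C * e * finrank N L) ≤ h := by
  obtain ⟨C, hC, hmain⟩ := topQ hp (by norm_num : 1 ≤ 2) F hF K' A hA G hGhom hconj v hv hred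
    B n hn
  refine ⟨2 * C, by positivity, ?_⟩
  intro E N L _ _ _ _ _ _ _ _ _ _ _ _ _ _ _ _ hfew hmulN hmulL hgen P hP
  have hst : IsScalarTower K (NXE E N W p) L := inferInstance
  obtain ⟨h, hlim, -, hb⟩ := hmain E (NXE E N W p) L hfew
    (adjoin_perE hp.two_le hF hmulN) (xc P) (xc_ne_zero P) (wandering_xc hp.two_le hF hmulL hP)
  refine ⟨h, ?_, fun e he => ?_⟩
  · refine hlim.congr fun k => ?_
    obtain ⟨c, hc, hc'⟩ := iter_xc hF hmulL P k
    rw [hc', Height.logHeight_smul_eq_logHeight _ hc]
    congr 1
    push_cast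
    rw [← pow_mul]
  · refine le_trans ?_ (hb e he)
    have hst2 : IsScalarTower (NXE E N W p) N L := inferInstance
    have h1 : finrank (NXE E N W p) L = finrank (NXE E N W p) N * finrank N L :=
      (finrank_mul_finrank (NXE E N W p) N L).symm
    have h2 := finrank_NXE_le W p hgen
    have h3 : (finrank (NXE E N W p) L : ℝ) ≤ 2 * finrank N L := by
      rw [h1]
      push_cast
      have : (finrank (NXE E N W p) N : ℝ) ≤ 2 := by exact_mod_cast h2
      gcongr
    have h4 : (1 : ℝ) ≤ finrank (NXE E N W p) L := by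
      exact_mod_cast (finrank_pos : 0 < finrank (NXE E N W p) L)
    have h5 : (1 : ℝ) ≤ finrank N L := by exact_mod_cast (finrank_pos : 0 < finrank N L)
    set D : ℝ := (finrank N L : ℝ) with hD
    set D' : ℝ := (finrank (NXE E N W p) L : ℝ) with hD'
    have hl : 0 ≤ Real.log D := Real.log_nonneg h5
    have h6 : Real.sqrt (1 + Real.log D') ≤ 2 * Real.sqrt (1 + Real.log D) := by
      rw [← Real.sqrt_sq (by norm_num : (0 : ℝ) ≤ 2), ← Real.sqrt_mul (by norm_num)]
      apply Real.sqrt_le_sqrt
      have h7 : Real.log D' ≤ Real.log (2 * D) := Real.log_le_log (by linarith) h3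
      rw [Real.log_mul (by norm_num) (by linarith)] at h7
      have h8 : Real.log 2 ≤ 1 := by
        have := Real.log_two_lt_d9
        linarith
      linarith
    have h7 : C * Real.sqrt (1 + Real.log D') ≤ 2 * C * Real.sqrt (1 + Real.log D) := by
      calc C * Real.sqrt (1 + Real.log D') ≤ C * (2 * Real.sqrt (1 + Real.log D)) := by gcongr
        _ = _ := by ring
    have h8 : C * e * D' ≤ 2 * C * e * D := by
      calc C * e * D' ≤ C * e * (2 * D) := by gcongr
        _ = _ := by ring
    rcases Nat.eq_zero_or_pos e with h0 | h0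
    · rw [h0]
      simp
    have h9 : 0 < C * e * D' := by positivity
    gcongr

end

end Pool.Agent.Y740.RL
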