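import Mathlib
import Pool.Agent.Y740.RL.Ell5

/-!
The Bogomolov property of the finite extensions of fields generated by torsion points over
infinite extensions with few conjugates.
-/

set_option autoImplicit false
set_option linter.unusedSectionVars false

namespace Pool.Agent.Y740.RL

open NumberField Module MvPolynomial Filter Topology Pool.Agent.H420R3
open scoped Pointwise

noncomputable section

section DescE

variable {K : Type} [Field K] {Ω : Type} [Field Ω] [Algebra K Ω]

/-- the degree of an algebraic element over a field is attained over a finitely generated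
subfield -/
lemma exists_finite_levelE (S : Set Ω) (β : Ω)
    (hβ : IsIntegral (IntermediateField.adjoin K S) β) :
    ∃ T : Set Ω, T.Finite ∧ T ⊆ S ∧ ∀ (N : Type) [Field N] [Algebra K N] [Algebra N Ω]
      [IsScalarTower K N Ω], T ⊆ Set.range (algebraMap N Ω) →
      (minpoly N β).natDegree ≤ (minpoly (IntermediateField.adjoin K S) β).natDegree := by
  classical
  set μ := minpoly (IntermediateField.adjoin K S) β with hμ
  have h1 : ∀ i : ℕ, ∃ T : Finset Ω, (T : Set Ω) ⊆ S ∧
      ((μ.coeff i : IntermediateField.adjoin K S) : Ω) ∈ IntermediateField.adjoin K (T : Set Ω) :=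
    fun i => IntermediateField.exists_finset_of_mem_adjoin (μ.coeff i).2
  choose T hT hTm using h1
  refine ⟨((Finset.range (μ.natDegree + 1)).biUnion T : Finset Ω), Finset.finite_toSet _, ?_, ?_⟩
  · intro x hx
    rw [Finset.mem_coe, Finset.mem_biUnion] at hx
    obtain ⟨i, -, hx⟩ := hx
    exact hT i hx
  · intro N _ _ _ _ hN
    have h2 : ∀ i, ((μ.coeff i : IntermediateField.adjoin K S) : Ω) ∈
        Set.range (algebraMap N Ω) := by
      intro i
      rcases lt_or_ge i (μ.natDegree + 1) with hi | hi
      · have h3 : IntermediateField.adjoin K (T i : Set Ω) ≤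
            (IsScalarTower.toAlgHom K N Ω).fieldRange := by
          rw [IntermediateField.adjoin_le_iff]
          intro x hx
          have h4 : x ∈ Set.range (algebraMap N Ω) := by
            apply hN
            rw [Finset.mem_coe, Finset.mem_biUnion]
            exact ⟨i, Finset.mem_range.mpr hi, hx⟩
          obtain ⟨y, hy⟩ := h4
          exact ⟨y, hy⟩
        obtain ⟨y, hy⟩ := h3 (hTm i)
        exact ⟨y, hy⟩
      · rw [Polynomial.coeff_eq_zero_of_natDegree_lt (by omega)]
        exact ⟨0, map_zero _⟩
    set q : Polynomial Ω := μ.map (algebraMap (IntermediateField.adjoin K S) Ω) with hq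
    have h3 : q ∈ Polynomial.lifts (algebraMap N Ω) := by
      rw [Polynomial.lifts_iff_coeff_lifts]
      intro i
      rw [hq, Polynomial.coeff_map]
      exact h2 i
    rw [Polynomial.mem_lifts] at h3
    obtain ⟨q', hq'⟩ := h3
    have hdeg : q'.natDegree = μ.natDegree := by
      have h4 : (q'.map (algebraMap N Ω)).natDegree = q'.natDegree :=
        Polynomial.natDegree_map _
      have h5 : q.natDegree = μ.natDegree := Polynomial.natDegree_map _
      rw [← h4, hq', h5]
    have hμ0 : μ ≠ 0 := minpoly.ne_zero hβ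
    have hq0 : q' ≠ 0 := by
      rintro rfl
      rw [Polynomial.map_zero] at hq'
      exact hμ0 ((Polynomial.map_eq_zero _).mp hq'.symm)
    have hroot : Polynomial.aeval β q' = 0 := by
      have h6 : Polynomial.aeval β μ = 0 := minpoly.aeval _ _
      rw [Polynomial.aeval_def, Polynomial.eval₂_eq_eval_map] at h6 ⊢
      rw [hq']
      exact h6
    rw [← hdeg]
    exact Polynomial.natDegree_le_natDegree (minpoly.degree_le_of_ne_zero N β hq0 hroot)

/-- a finite subset of a normal extension is contained in a finite Galois extension -/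
lemma exists_galois [CharZero K] (E : IntermediateField K Ω) [Normal K E] (T : Set Ω)
    (hfin : T.Finite) (hT : T ⊆ E) :
    ∃ E' : IntermediateField K Ω, E' ≤ E ∧ T ⊆ E' ∧ FiniteDimensional K E' ∧ IsGalois K E' := by
  let T₁ : Set E := {x : E | (x : Ω) ∈ T}
  have hT₁ : T₁.Finite := hfin.preimage (Subtype.val_injective.injOn)
  have i0 : Finite T₁ := hT₁.to_subtype
  let E₁ : IntermediateField K E := IntermediateField.adjoin K T₁
  have i1 : FiniteDimensional K E₁ :=
    IntermediateField.finiteDimensional_adjoin (fun x _ => Algebra.IsIntegral.isIntegral x)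
  let E₂ : IntermediateField K E := IntermediateField.normalClosure K E₁ E
  have i2 : FiniteDimensional K E₂ := inferInstance
  have i3 : Normal K E₂ := inferInstance
  have i4 : IsGalois K E₂ := ⟨⟩
  refine ⟨IntermediateField.lift E₂, IntermediateField.lift_le _, ?_, ?_, ?_⟩
  · intro x hx
    have h1 : (⟨x, hT hx⟩ : E) ∈ E₁ := IntermediateField.subset_adjoin K T₁ hx
    have h2 : E₁ ≤ E₂ := E₁.le_normalClosure
    exact (IntermediateField.mem_lift (⟨x, hT hx⟩ : E)).mpr (h2 h1)
  · exact Module.Finite.equiv (IntermediateField.liftAlgEquiv E₂).toLinearEquiv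
  · exact IsGalois.of_algEquiv (IntermediateField.liftAlgEquiv E₂)

/-- a field generated by coordinates of points of order prime to `p` -/
lemma adjoin_xySetE [DecidableEq Ω] [Algebra.IsAlgebraic K Ω] (W : WeierstrassCurve.Affine K)
    (p : ℕ) (E : IntermediateField K Ω) (Γ : Set (W.baseChange Ω).Point)
    (hΓ : ∀ P ∈ Γ, Tor p P) (T : Set Ω)
    (hT : ∀ t ∈ T, ∃ x y : Ω, x ∈ T ∧ y ∈ T ∧ (∃ h : (W.baseChange Ω).Nonsingular x y,
        (WeierstrassCurve.Affine.Point.some x y h : (W.baseChange Ω).Point) ∈ Γ) ∧
        (t = x ∨ t = y)) :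
    Algebra.adjoin E (xySet (IntermediateField.adjoin E T) W p) = ⊤ := by
  rw [eq_top_iff]
  have hsub : {x : IntermediateField.adjoin E T | (x : Ω) ∈ T} ⊆
      xySet (IntermediateField.adjoin E T) W p := by
    intro t ht
    obtain ⟨x, y, hx, hy, ⟨h, hP⟩, hxy⟩ := hT _ ht
    let x' : IntermediateField.adjoin E T := ⟨x, IntermediateField.subset_adjoin E T hx⟩
    let y' : IntermediateField.adjoin E T := ⟨y, IntermediateField.subset_adjoin E T hy⟩
    have h' : (W.baseChange (IntermediateField.adjoin E T)).Nonsingular x' y' :=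
      (W.baseChange_nonsingular (f := (IntermediateField.adjoin E T).val)
        (IntermediateField.adjoin E T).val.injective x' y').mp h
    refine ⟨x', y', h', ?_, ?_⟩
    · obtain ⟨m, hm, hm'⟩ := hΓ _ hP
      refine ⟨m, hm, ?_⟩
      apply WeierstrassCurve.Affine.Point.map_injective (W' := W)
        (f := (IntermediateField.adjoin E T).val)
      rw [map_nsmul, WeierstrassCurve.Affine.Point.map_some]
      exact hm'
    · rcases hxy with h1 | h1
      · exact Or.inl (Subtype.ext h1)
      · exact Or.inr (Subtype.ext h1)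
  refine le_trans ?_ (Algebra.adjoin_mono hsub)
  intro z _
  have h1 : (z : Ω) ∈ (IntermediateField.adjoin E T).toSubalgebra := z.2
  have halg : ∀ x : Ω, IsAlgebraic E x := fun x =>
    (Algebra.IsAlgebraic.isAlgebraic (R := K) x).tower_top E
  have h2 : (IntermediateField.adjoin E T).toSubalgebra = Algebra.adjoin E T :=
    IntermediateField.adjoin_toSubalgebra_of_isAlgebraic fun x _ => halg x
  have h3 : ((IntermediateField.adjoin E T).val : IntermediateField.adjoin E T → Ω) ''
      {x : IntermediateField.adjoin E T | (x : Ω) ∈ T} = T := by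
    ext x
    constructor
    · rintro ⟨x', hx', rfl⟩
      exact hx'
    · intro hx
      exact ⟨⟨x, IntermediateField.subset_adjoin E _ hx⟩, hx, rfl⟩
  have h4 : Algebra.adjoin E T = (Algebra.adjoin E
      {x : IntermediateField.adjoin E T | (x : Ω) ∈ T}).map
        (IntermediateField.adjoin E T).val := by
    rw [AlgHom.map_adjoin, h3]
  rw [h2, h4] at h1
  obtain ⟨a, ha, haz⟩ := h1
  have : a = z := Subtype.ext haz
  rw [← this]
  exact ha

end DescE

/-- finite extensions of fields generated by torsion points over a possibly infinite Galois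
extension with few conjugates have the Bogomolov property -/
theorem bogE {K : Type} [Field K] [NumberField K] (W : WeierstrassCurve.Affine K)
    {p : ℕ} (hp : p.Prime)
    (F : Fin 2 → MvPolynomial (Fin 2) K) (hF : ∀ i, (F i).IsHomogeneous (p ^ 2))
    (K' : Type) [Field K'] [NumberField K'] [Algebra K K'] (A : Matrix (Fin 2) (Fin 2) K')
    (hA : A.det ≠ 0) (G : Fin 2 → MvPolynomial (Fin 2) K')
    (hGhom : ∀ i, (G i).IsHomogeneous (p ^ 2)) (hconj : Conj A F G) (v : FinitePlace K')
    (hv : v (p : K') < 1) (hred : InsepAt v (p ^ 2) G)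
    (hmul : ∀ (L : Type) [Field L] [NumberField L] [Algebra K L] [DecidableEq L]
      (Q : (W.baseChange L).Point), ∃ c : L, c ≠ 0 ∧ act F (xc Q) = c • xc (p • Q))
    (B n : ℕ) (hn : 1 ≤ n) :
    ∃ C : ℝ, 0 < C ∧ ∀ (Ω : Type) [Field Ω] [Algebra K Ω] [Algebra.IsAlgebraic K Ω]
      [DecidableEq Ω] (S : IntermediateField K Ω) [Normal K S] (e : ℕ),
      (∀ (E : Type) [Field E] [NumberField E] [Algebra K E] [IsGalois K E],
        Nonempty (E →ₐ[K] S) → FewConj ((mi v).under (𝓞 K)) E B n ∧
          RamLe ((mi v).under (𝓞 K)) E e) →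
      ∀ (Γ : Set (W.baseChange Ω).Point), (∀ P ∈ Γ, Tor p P) →
      ∀ F₀ : IntermediateField K Ω, F₀ = IntermediateField.adjoin K ((S : Set Ω) ∪ coords W Γ) →
      ∀ (M : IntermediateField F₀ Ω) [FiniteDimensional F₀ M]
      (L' : Type) [Field L'] [NumberField L'] [Algebra K L'] [DecidableEq L'],
      (L' →ₐ[K] M) → ∀ P : (W.baseChange L').Point, ¬ IsOfFinAddOrder P →
      ∃ h : ℝ, Tendsto (fun k : ℕ => Height.logHeight (xc (p ^ k • P)) /
          ((finrank ℚ L' : ℝ) * (p : ℝ) ^ (2 * k))) atTop (𝓝 h) ∧
        Real.exp (-(C * Real.sqrt (1 + Real.log (finrank F₀ M)))) /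
          (C * e * finrank F₀ M) ≤ h := by
  obtain ⟨C, hC, hmain⟩ := torsion_topE W hp F hF K' A hA G hGhom hconj v hv hred B n hn
  refine ⟨C, hC, ?_⟩
  intro Ω _ _ _ _ S _ e hS Γ hΓ F₀ hF₀ M _ L' _ _ _ _ ι P hP
  subst hF₀
  obtain ⟨α, hα⟩ := Field.exists_primitive_element K L'
  let ψ : L' →ₐ[K] Ω := (M.val.restrictScalars K).comp ι
  set β : Ω := ψ α with hβ
  have hβM : β = M.val (ι α) := rfl
  have hβint : IsIntegral (IntermediateField.adjoin K ((S : Set Ω) ∪ coords W Γ)) β := by
    rw [hβM]
    exact (Algebra.IsIntegral.isIntegral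
      (R := IntermediateField.adjoin K ((S : Set Ω) ∪ coords W Γ)) (ι α)).map M.val
  have hdeg : (minpoly (IntermediateField.adjoin K ((S : Set Ω) ∪ coords W Γ)) β).natDegree ≤
      finrank (IntermediateField.adjoin K ((S : Set Ω) ∪ coords W Γ)) M := by
    rw [hβM, minpoly.algHom_eq M.val M.val.injective (ι α)]
    exact minpoly.natDegree_le _
  obtain ⟨T, hTfin, hTsub, hTmin⟩ := exists_finite_levelE ((S : Set Ω) ∪ coords W Γ) β hβint
  obtain ⟨E, hES, hTE, i1, i2⟩ := exists_galois S (T ∩ S) (hTfin.inter_of_left _)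
    Set.inter_subset_right
  obtain ⟨T', hT'fin, hTT', hT'sub, hT'⟩ := exists_closed W Γ (T ∩ coords W Γ)
    (hTfin.inter_of_left _) Set.inter_subset_right
  have i3 : NumberField E := NumberField.of_module_finite K E
  have hgen := adjoin_xySetE W p E Γ hΓ T' hT'
  have hintE : ∀ x : Ω, IsIntegral E x := fun x =>
    (Algebra.IsIntegral.isIntegral (R := K) x).tower_top
  have i4 : Finite T' := hT'fin.to_subtype
  have i5 : FiniteDimensional E (IntermediateField.adjoin E T') :=
    IntermediateField.finiteDimensional_adjoin (fun x _ => hintE x)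
  have i6 : NumberField (IntermediateField.adjoin E T') := NumberField.of_module_finite E _
  have i7 : IsScalarTower K (IntermediateField.adjoin E T') Ω :=
    IsScalarTower.of_algebraMap_eq fun x => rfl
  have hβN : IsIntegral (IntermediateField.adjoin E T') β := (hintE β).tower_top
  let L : IntermediateField (IntermediateField.adjoin E T') Ω :=
    IntermediateField.adjoin (IntermediateField.adjoin E T') {β}
  have i8 : FiniteDimensional (IntermediateField.adjoin E T') L :=
    IntermediateField.adjoin.finiteDimensional hβN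
  have i9 : NumberField L := NumberField.of_module_finite (IntermediateField.adjoin E T') L
  have hLdeg : finrank (IntermediateField.adjoin E T') L =
      (minpoly (IntermediateField.adjoin E T') β).natDegree :=
    IntermediateField.adjoin.finrank hβN
  have hTN : T ⊆ Set.range (algebraMap (IntermediateField.adjoin E T') Ω) := by
    intro t ht
    rcases hTsub ht with h | h
    · have h1 : t ∈ E := hTE ⟨ht, h⟩
      exact ⟨algebraMap E (IntermediateField.adjoin E T') ⟨t, h1⟩, rfl⟩
    · exact ⟨⟨t, IntermediateField.subset_adjoin E T' (hTT' ⟨ht, h⟩)⟩, rfl⟩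
  have hle : finrank (IntermediateField.adjoin E T') L ≤
      finrank (IntermediateField.adjoin K ((S : Set Ω) ∪ coords W Γ)) M := by
    rw [hLdeg]
    exact (hTmin (IntermediateField.adjoin E T') hTN).trans hdeg
  have hrange : ∀ x : L', ψ x ∈ L := by
    intro x
    have h1 : x ∈ (⊤ : IntermediateField K L') := IntermediateField.mem_top
    rw [← hα] at h1
    have h2 : ψ x ∈ (IntermediateField.adjoin K {α}).map ψ := ⟨x, h1, rfl⟩
    rw [IntermediateField.adjoin_map, Set.image_singleton] at h2
    have h3 : IntermediateField.adjoin K {ψ α} ≤ L.restrictScalars K := by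
      rw [IntermediateField.adjoin_le_iff]
      rintro _ rfl
      exact IntermediateField.mem_adjoin_simple_self (IntermediateField.adjoin E T') β
    exact h3 h2
  let j : L' →ₐ[K] L :=
    { toFun := fun x => ⟨ψ x, hrange x⟩
      map_one' := Subtype.ext (map_one ψ)
      map_mul' := fun a b => Subtype.ext (map_mul ψ a b)
      map_zero' := Subtype.ext (map_zero ψ)
      map_add' := fun a b => Subtype.ext (map_add ψ a b)
      commutes' := fun r => Subtype.ext (ψ.commutes r) }
  have hPL : ¬ IsOfFinAddOrder (WeierstrassCurve.Affine.Point.map (W' := W) j P) := by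
    rw [isOfFinAddOrder_iff_nsmul_eq_zero] at hP ⊢
    rintro ⟨n, hn, h⟩
    refine hP ⟨n, hn, ?_⟩
    apply WeierstrassCurve.Affine.Point.map_injective (W' := W) (f := j)
    rw [map_nsmul, h]
    rfl
  have hemb : Nonempty (E →ₐ[K] S) := ⟨IntermediateField.inclusion hES⟩
  obtain ⟨hfew, hram⟩ := hS E hemb
  have i10 : IsScalarTower K (IntermediateField.adjoin E T') L :=
    IsScalarTower.of_algebraMap_eq fun x => rfl
  obtain ⟨h, hlim, hb⟩ := hmain E (IntermediateField.adjoin E T') L hfew
    (hmul (IntermediateField.adjoin E T')) (hmul L) hgen _ hPL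
  refine ⟨h, hlim.congr fun k => height_map W j p P k, le_trans ?_ (hb e hram)⟩
  have h5 : (1 : ℝ) ≤ finrank (IntermediateField.adjoin E T') L := by
    exact_mod_cast (finrank_pos : 0 < finrank (IntermediateField.adjoin E T') L)
  have h6 : (finrank (IntermediateField.adjoin E T') L : ℝ) ≤
    finrank (IntermediateField.adjoin K ((S : Set Ω) ∪ coords W Γ)) M := by exact_mod_cast hle
  have h7 : Real.log (finrank (IntermediateField.adjoin E T') L) ≤
    Real.log (finrank (IntermediateField.adjoin K ((S : Set Ω) ∪ coords W Γ)) M) :=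
    Real.log_le_log (by linarith) h6
  rcases Nat.eq_zero_or_pos e with h0 | h0
  · rw [h0]
    simp
  have h8 : 0 < C * e * (finrank (IntermediateField.adjoin E T') L : ℝ) := by positivity
  gcongr

end

end Pool.Agent.Y740.RL
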